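import Mathlib

/-!
# McDiarmid's inequality for the uniform distribution on a finite product
-/

set_option autoImplicit false

namespace Pool.Agent.Lib_helper26.TS

open Finset

theorem exp_le_chord {C z : ℝ} (hC : 0 < C) (hz : |z| ≤ C) :
    Real.exp z ≤ Real.cosh C + z / C * Real.sinh C := by
  obtain ⟨h1, h2⟩ := abs_le.1 hz
  have ha : 0 ≤ (C + z) / (2 * C) := div_nonneg (by linarith) (by linarith)
  have hb : 0 ≤ (C - z) / (2 * C) := div_nonneg (by linarith) (by linarith)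
  have hab : (C + z) / (2 * C) + (C - z) / (2 * C) = 1 := by field_simp; ring
  have h3 := convexOn_exp.2 (Set.mem_univ C) (Set.mem_univ (-C)) ha hb hab
  simp only [smul_eq_mul] at h3
  have h4 : (C + z) / (2 * C) * C + (C - z) / (2 * C) * -C = z := by field_simp; ring
  rw [h4] at h3
  refine h3.trans (le_of_eq ?_)
  rw [Real.cosh_eq, Real.sinh_eq]
  field_simp
  ring

theorem hoeff {κ : Type} [Fintype κ] (z : κ → ℝ) (C : ℝ) (hC : 0 ≤ C) (h0 : ∑ a, z a = 0)
    (hz : ∀ a, |z a| ≤ C) :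
    ∑ a, Real.exp (z a) ≤ (Fintype.card κ : ℝ) * Real.exp (C ^ 2 / 2) := by
  rcases hC.eq_or_lt with h | h
  · have hz0 : ∀ a, z a = 0 := fun a => abs_eq_zero.1 (le_antisymm (by rw [h]; exact hz a)
      (abs_nonneg _))
    simp [hz0, ← h]
  · calc ∑ a, Real.exp (z a) ≤ ∑ a, (Real.cosh C + z a / C * Real.sinh C) :=
          Finset.sum_le_sum fun a _ => exp_le_chord h (hz a)
      _ = (Fintype.card κ : ℝ) * Real.cosh C := by
          rw [Finset.sum_add_distrib, ← Finset.sum_mul, ← Finset.sum_div, h0]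
          simp
      _ ≤ _ := mul_le_mul_of_nonneg_left (Real.cosh_le_exp_half_sq C) (Nat.cast_nonneg _)

/-- McDiarmid, exponential moment, index set `Fin N` -/
theorem mcd_fin {κ : Type} [Fintype κ] [Nonempty κ] (N : ℕ) : ∀ (f : (Fin N → κ) → ℝ) (c : Fin N → ℝ),
    (∀ ω i a, |f (Function.update ω i a) - f ω| ≤ c i) → ∀ l : ℝ,
    ∑ ω, Real.exp (l * (f ω - (∑ ω, f ω) / (Fintype.card κ : ℝ) ^ N)) ≤
      (Fintype.card κ : ℝ) ^ N * Real.exp (l ^ 2 * (∑ i, c i ^ 2) / 2) := by
  have hw : (0:ℝ) < Fintype.card κ := by exact_mod_cast Fintype.card_pos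
  induction N with
  | zero =>
    intro f c _ l
    simp
  | succ N ih =>
    intro f c hf l
    set w : ℝ := (Fintype.card κ : ℝ) with hwd
    set g : (Fin N → κ) → ℝ := fun ω => (∑ a, f (Fin.cons a ω)) / w with hg
    have hsum : ∀ F : (Fin (N + 1) → κ) → ℝ, ∑ ω, F ω = ∑ ω : Fin N → κ, ∑ a, F (Fin.cons a ω) := by
      intro F
      rw [← (Fin.consEquiv (fun _ : Fin (N + 1) => κ)).sum_comp F, Fintype.sum_prod_type,
        Finset.sum_comm]
      rfl
    have havg : (∑ ω, f ω) / w ^ (N + 1) = (∑ ω, g ω) / w ^ N := by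
      rw [hsum, hg, ← Finset.sum_div, pow_succ]
      field_simp
    have hc0 : ∀ (ω : Fin N → κ) (a b : κ), |f (Fin.cons a ω) - f (Fin.cons b ω)| ≤ c 0 := by
      intro ω a b
      have := hf (Fin.cons b ω) 0 a
      rwa [Fin.update_cons_zero] at this
    have hgc : ∀ ω i a, |g (Function.update ω i a) - g ω| ≤ c i.succ := by
      intro ω i a
      simp only [hg]
      rw [← sub_div, ← Finset.sum_sub_distrib, abs_div, abs_of_pos hw, div_le_iff₀ hw]
      calc |∑ b, (f (Fin.cons b (Function.update ω i a)) - f (Fin.cons b ω))|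
          ≤ ∑ b, |f (Fin.cons b (Function.update ω i a)) - f (Fin.cons b ω)| :=
            Finset.abs_sum_le_sum_abs _ _
        _ ≤ ∑ _b : κ, c i.succ := Finset.sum_le_sum fun b _ => by
            rw [Fin.cons_update]
            exact hf _ _ _
        _ = c i.succ * w := by simp [hwd, mul_comm]
    have hdev : ∀ (ω : Fin N → κ) (a : κ), |f (Fin.cons a ω) - g ω| ≤ c 0 := by
      intro ω a
      have h1 : f (Fin.cons a ω) - g ω = (∑ b, (f (Fin.cons a ω) - f (Fin.cons b ω))) / w := by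
        rw [Finset.sum_sub_distrib, Finset.sum_const, Finset.card_univ, nsmul_eq_mul, ← hwd]
        simp only [hg]
        field_simp
      rw [h1, abs_div, abs_of_pos hw, div_le_iff₀ hw]
      calc |∑ b, (f (Fin.cons a ω) - f (Fin.cons b ω))|
          ≤ ∑ b, |f (Fin.cons a ω) - f (Fin.cons b ω)| := Finset.abs_sum_le_sum_abs _ _
        _ ≤ ∑ _b : κ, c 0 := Finset.sum_le_sum fun b _ => hc0 ω a b
        _ = c 0 * w := by simp [hwd, mul_comm]
    have hc00 : 0 ≤ c 0 := by
      obtain ⟨a⟩ := (inferInstance : Nonempty κ)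
      exact (abs_nonneg _).trans (hdev (fun _ => a) a)
    rw [hsum, havg]
    have hin : ∀ ω : Fin N → κ, ∑ a, Real.exp (l * (f (Fin.cons a ω) - (∑ ω, g ω) / w ^ N)) ≤
        Real.exp (l * (g ω - (∑ ω, g ω) / w ^ N)) * (w * Real.exp (l ^ 2 * c 0 ^ 2 / 2)) := by
      intro ω
      have h1 : ∀ a, Real.exp (l * (f (Fin.cons a ω) - (∑ ω, g ω) / w ^ N)) =
          Real.exp (l * (g ω - (∑ ω, g ω) / w ^ N)) * Real.exp (l * (f (Fin.cons a ω) - g ω)) := by
        intro a
        rw [← Real.exp_add]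
        congr 1
        ring
      simp only [h1]
      rw [← Finset.mul_sum]
      refine mul_le_mul_of_nonneg_left ?_ (Real.exp_pos _).le
      have h2 := hoeff (fun a => l * (f (Fin.cons a ω) - g ω)) (|l| * c 0)
        (mul_nonneg (abs_nonneg _) hc00) (by
          rw [← Finset.mul_sum, Finset.sum_sub_distrib, Finset.sum_const, Finset.card_univ,
            nsmul_eq_mul, ← hwd]
          simp only [hg]
          field_simp
          ring)
        (fun a => by rw [abs_mul]; exact mul_le_mul_of_nonneg_left (hdev ω a) (abs_nonneg _))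
      rw [mul_pow, sq_abs] at h2
      exact h2
    calc ∑ ω : Fin N → κ, ∑ a, Real.exp (l * (f (Fin.cons a ω) - (∑ ω, g ω) / w ^ N))
        ≤ ∑ ω : Fin N → κ, Real.exp (l * (g ω - (∑ ω, g ω) / w ^ N)) *
          (w * Real.exp (l ^ 2 * c 0 ^ 2 / 2)) := Finset.sum_le_sum fun ω _ => hin ω
      _ = (∑ ω : Fin N → κ, Real.exp (l * (g ω - (∑ ω, g ω) / w ^ N))) *
          (w * Real.exp (l ^ 2 * c 0 ^ 2 / 2)) := by rw [Finset.sum_mul]
      _ ≤ (w ^ N * Real.exp (l ^ 2 * (∑ i : Fin N, c i.succ ^ 2) / 2)) *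
          (w * Real.exp (l ^ 2 * c 0 ^ 2 / 2)) :=
          mul_le_mul_of_nonneg_right (ih g (fun i => c i.succ) hgc l) (by positivity)
      _ = w ^ (N + 1) * Real.exp (l ^ 2 * (∑ i, c i ^ 2) / 2) := by
          rw [Fin.sum_univ_succ, mul_mul_mul_comm, ← pow_succ, ← Real.exp_add]
          congr 2
          ring

/-- McDiarmid, exponential moment -/
theorem mcd {κ ι : Type} [Fintype κ] [Nonempty κ] [Fintype ι] [DecidableEq ι]
    (f : (ι → κ) → ℝ) (c : ι → ℝ)
    (hf : ∀ ω i a, |f (Function.update ω i a) - f ω| ≤ c i) (l : ℝ) :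
    ∑ ω, Real.exp (l * (f ω - (∑ ω, f ω) / (Fintype.card κ : ℝ) ^ Fintype.card ι)) ≤
      (Fintype.card κ : ℝ) ^ Fintype.card ι * Real.exp (l ^ 2 * (∑ i, c i ^ 2) / 2) := by
  set e := Fintype.equivFin ι with he
  set E : (Fin (Fintype.card ι) → κ) ≃ (ι → κ) := e.symm.arrowCongr (Equiv.refl κ) with hE
  have hEa : ∀ ω i, E ω i = ω (e i) := fun ω i => rfl
  have h := mcd_fin (κ := κ) (Fintype.card ι) (fun ω => f (E ω)) (fun j => c (e.symm j)) (by
    intro ω j a
    have h1 : E (Function.update ω j a) = Function.update (E ω) (e.symm j) a := by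
      ext i
      rw [hEa]
      by_cases hi : i = e.symm j
      · subst hi
        simp
      · have : e i ≠ j := fun h => hi (by rw [← h, Equiv.symm_apply_apply])
        rw [Function.update_of_ne this, Function.update_of_ne hi, hEa]
    rw [h1]
    exact hf _ _ _) l
  rw [E.sum_comp f, E.sum_comp (fun ω => Real.exp (l * (f ω - (∑ ω, f ω) / _))),
    e.symm.sum_comp (fun i => c i ^ 2)] at h
  exact h

/-- upper tail -/
theorem mcd_upper {κ ι : Type} [Fintype κ] [Nonempty κ] [Fintype ι] [DecidableEq ι]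
    (f : (ι → κ) → ℝ) (c : ι → ℝ)
    (hf : ∀ ω i a, |f (Function.update ω i a) - f ω| ≤ c i) (σ E u : ℝ) (hσ : 0 < σ)
    (hc : ∑ i, c i ^ 2 ≤ σ) (hu : 0 ≤ u)
    (hE : ∑ ω, f ω ≤ E * (Fintype.card κ : ℝ) ^ Fintype.card ι) :
    ((univ.filter fun ω => E + u ≤ f ω).card : ℝ) ≤
      (Fintype.card κ : ℝ) ^ Fintype.card ι * Real.exp (-(u ^ 2 / (2 * σ))) := by
  have hw : (0:ℝ) < (Fintype.card κ : ℝ) ^ Fintype.card ι := by
    have : (0:ℝ) < Fintype.card κ := by exact_mod_cast Fintype.card_pos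
    positivity
  set l : ℝ := u / σ with hl
  have hl0 : 0 ≤ l := div_nonneg hu hσ.le
  have h := mcd f c hf l
  have hav : (∑ ω, f ω) / (Fintype.card κ : ℝ) ^ Fintype.card ι ≤ E := by
    rw [div_le_iff₀ hw]; exact hE
  have h1 : ((univ.filter fun ω => E + u ≤ f ω).card : ℝ) * Real.exp (l * u) ≤
      ∑ ω, Real.exp (l * (f ω - (∑ ω, f ω) / (Fintype.card κ : ℝ) ^ Fintype.card ι)) := by
    calc ((univ.filter fun ω => E + u ≤ f ω).card : ℝ) * Real.exp (l * u)
        = ∑ _ω ∈ univ.filter (fun ω => E + u ≤ f ω), Real.exp (l * u) := by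
          rw [Finset.sum_const, nsmul_eq_mul]
      _ ≤ ∑ ω ∈ univ.filter (fun ω => E + u ≤ f ω),
          Real.exp (l * (f ω - (∑ ω, f ω) / (Fintype.card κ : ℝ) ^ Fintype.card ι)) := by
          refine Finset.sum_le_sum fun ω hω => ?_
          rw [Real.exp_le_exp]
          refine mul_le_mul_of_nonneg_left ?_ hl0
          have := (mem_filter.1 hω).2
          linarith
      _ ≤ _ := Finset.sum_le_sum_of_subset_of_nonneg (filter_subset _ _)
          fun _ _ _ => (Real.exp_pos _).le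
  have h2 : l ^ 2 * (∑ i, c i ^ 2) / 2 ≤ l ^ 2 * σ / 2 := by
    have := mul_le_mul_of_nonneg_left hc (sq_nonneg l)
    linarith
  have h3 : ((univ.filter fun ω => E + u ≤ f ω).card : ℝ) * Real.exp (l * u) ≤
      (Fintype.card κ : ℝ) ^ Fintype.card ι * Real.exp (l ^ 2 * σ / 2) :=
    h1.trans (h.trans (mul_le_mul_of_nonneg_left (Real.exp_le_exp.2 h2) hw.le))
  have h4 : ((univ.filter fun ω => E + u ≤ f ω).card : ℝ) =
      ((univ.filter fun ω => E + u ≤ f ω).card : ℝ) * Real.exp (l * u) * Real.exp (-(l * u)) := by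
    rw [mul_assoc, ← Real.exp_add]
    simp
  rw [h4]
  calc _ ≤ (Fintype.card κ : ℝ) ^ Fintype.card ι * Real.exp (l ^ 2 * σ / 2) *
        Real.exp (-(l * u)) := mul_le_mul_of_nonneg_right h3 (Real.exp_pos _).le
    _ = _ := by
      rw [mul_assoc, ← Real.exp_add]
      congr 2
      rw [hl]
      field_simp
      ring

/-- lower tail -/
theorem mcd_lower {κ ι : Type} [Fintype κ] [Nonempty κ] [Fintype ι] [DecidableEq ι]
    (f : (ι → κ) → ℝ) (c : ι → ℝ)
    (hf : ∀ ω i a, |f (Function.update ω i a) - f ω| ≤ c i) (σ E u : ℝ) (hσ : 0 < σ)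
    (hc : ∑ i, c i ^ 2 ≤ σ) (hu : 0 ≤ u)
    (hE : E * (Fintype.card κ : ℝ) ^ Fintype.card ι ≤ ∑ ω, f ω) :
    ((univ.filter fun ω => f ω ≤ E - u).card : ℝ) ≤
      (Fintype.card κ : ℝ) ^ Fintype.card ι * Real.exp (-(u ^ 2 / (2 * σ))) := by
  have h := mcd_upper (fun ω => -f ω) c (fun ω i a => by
    rw [show -f (Function.update ω i a) - -f ω = -(f (Function.update ω i a) - f ω) by ring,
      abs_neg]
    exact hf ω i a) σ (-E) u hσ hc hu (by rw [Finset.sum_neg_distrib]; linarith)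
  refine le_trans (le_of_eq ?_) h
  congr 2
  ext ω
  simp only [mem_filter, mem_univ, true_and]
  constructor <;> intro h <;> linarith

end Pool.Agent.Lib_helper26.TS
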