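import Pool.Agent.Lib_helper26.TS.McD

/-!
# Random colours of the segments and random marks of the cells

`S e` is the set of segments in which the cell `e` is read. Every segment gets a random colour in
`Fin w`, every cell `k` random marks in `Fin w`. A cell is in `inF a b` if it is only read in
segments of colour `a` and its marks number `i ≥ |S e|` are zero: this has probability `w ^ (-k)`
for every cell read in at most `k` segments.
-/

set_option autoImplicit false
set_option linter.unusedSectionVars false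

namespace Pool.Agent.Lib_helper26.TS

open Finset

/-- all elements with a property -/
noncomputable def fil {α : Type} [Fintype α] (P : α → Prop) : Finset α := by
  classical exact univ.filter P

theorem mem_fil {α : Type} [Fintype α] {P : α → Prop} {a : α} : a ∈ fil P ↔ P a := by
  unfold fil
  simp

theorem fil_congr {α : Type} [Fintype α] {P Q : α → Prop} (h : ∀ a, P a ↔ Q a) :
    fil P = fil Q := by
  ext a
  rw [mem_fil, mem_fil, h a]

/-- the sample space -/
abbrev Om (r : ℕ) (I : Type) (k w : ℕ) : Type := (Fin r ⊕ (I × Fin k)) → Fin w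

variable {r k w : ℕ} {I : Type}

/-- number of segments of colour `a` in which `e` is read -/
noncomputable def own (a : Fin w) (S : I → Finset (Fin r)) (ω : Om r I k w) (e : I) : ℕ :=
  ((S e).filter fun j => ω (Sum.inl j) = a).card

/-- the cell is a candidate for the colour `a` -/
def inP [NeZero w] (a b : Fin w) (S : I → Finset (Fin r)) (ω : Om r I k w) (e : I) : Prop :=
  (∀ j ∈ S e, ω (Sum.inl j) = a ∨ ω (Sum.inl j) = b) ∧ own a S ω e ≤ k ∧
    ∀ i : Fin k, own a S ω e ≤ i.val → ω (Sum.inr (e, i)) = 0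

/-- the cell is a survivor for the colour `a` -/
def inF [NeZero w] (a b : Fin w) (S : I → Finset (Fin r)) (ω : Om r I k w) (e : I) : Prop :=
  inP a b S ω e ∧ ∀ j ∈ S e, ω (Sum.inl j) ≠ b

/-- number of functions with prescribed values -/
theorem card_fixed {ι κ : Type} [Fintype ι] [DecidableEq ι] [Fintype κ] (T : Finset ι)
    (v : ι → κ) : (fil fun ω : ι → κ => ∀ i ∈ T, ω i = v i).card * Fintype.card κ ^ T.card =
      Fintype.card κ ^ Fintype.card ι := by
  have h : (fil fun ω : ι → κ => ∀ i ∈ T, ω i = v i) =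
      Fintype.piFinset fun i => if i ∈ T then {v i} else univ := by
    ext ω
    rw [mem_fil]
    simp only [Fintype.mem_piFinset]
    constructor
    · intro h i
      by_cases hi : i ∈ T
      · rw [if_pos hi, mem_singleton]; exact h i hi
      · rw [if_neg hi]; exact mem_univ _
    · intro h i hi
      have := h i
      rwa [if_pos hi, mem_singleton] at this
  rw [h, Fintype.card_piFinset]
  have h1 : ∀ i, (if i ∈ T then ({v i} : Finset κ) else univ).card =
      if i ∈ T then 1 else Fintype.card κ := by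
    intro i
    split_ifs
    · exact card_singleton _
    · exact card_univ
  simp only [h1]
  rw [Finset.prod_ite, Finset.prod_const_one, one_mul, Finset.prod_const, ← pow_add]
  congr 1
  have h2 := card_filter_add_card_filter_not (s := (univ : Finset ι)) (fun i => i ∈ T)
  have h3 : (univ.filter fun i => i ∈ T) = T := by ext i; simp
  rw [h3, card_univ] at h2
  omega

theorem comb {α : Type} (s : Finset α) (hw : 4 ≤ w) (hk : 2 * k ≤ w) :
    ∑ R ∈ s.powerset.filter (fun R => R.card ≤ k), (w : ℝ) ^ R.card ≤ 3 * (w : ℝ) ^ s.card := by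
  have hw0 : (0:ℝ) < w := by exact_mod_cast (by omega : 0 < w)
  rcases le_or_gt s.card w with h | h
  · have h1 : ∑ R ∈ s.powerset.filter (fun R => R.card ≤ k), (w : ℝ) ^ R.card ≤
        ∑ R ∈ s.powerset, (w : ℝ) ^ R.card * 1 ^ (s.card - R.card) := by
      refine (Finset.sum_le_sum_of_subset_of_nonneg (filter_subset _ _)
        fun _ _ _ => by positivity).trans (le_of_eq ?_)
      exact Finset.sum_congr rfl fun R _ => by rw [one_pow, mul_one]
    rw [Finset.sum_pow_mul_eq_add_pow] at h1
    refine h1.trans ?_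
    have h2 : ((w : ℝ) + 1) ^ s.card = (w : ℝ) ^ s.card * (1 + 1 / w) ^ s.card := by
      rw [← mul_pow]
      congr 1
      field_simp
    have h3 : (1 + 1 / (w : ℝ)) ^ s.card ≤ 3 := by
      calc (1 + 1 / (w : ℝ)) ^ s.card ≤ (Real.exp (1 / w)) ^ s.card := by
            refine pow_le_pow_left₀ (by positivity) ?_ _
            rw [add_comm]
            exact Real.add_one_le_exp _
        _ = Real.exp (s.card / w) := by
            rw [← Real.exp_nat_mul]
            congr 1
            ring
        _ ≤ Real.exp 1 := by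
            rw [Real.exp_le_exp, div_le_one hw0]
            exact_mod_cast h
        _ ≤ 3 := by
            have := Real.exp_one_lt_d9
            linarith
    rw [h2, mul_comm]
    exact mul_le_mul_of_nonneg_right h3 (by positivity)
  · have h1 : ∑ R ∈ s.powerset.filter (fun R => R.card ≤ k), (w : ℝ) ^ R.card ≤
        2 ^ s.card * (w : ℝ) ^ k := by
      calc _ ≤ ∑ R ∈ s.powerset.filter (fun R => R.card ≤ k), (w : ℝ) ^ k := by
            refine Finset.sum_le_sum fun R hR => ?_
            refine pow_le_pow_right₀ ?_ (mem_filter.1 hR).2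
            exact_mod_cast (by omega : 1 ≤ w)
        _ = ((s.powerset.filter (fun R => R.card ≤ k)).card : ℝ) * (w : ℝ) ^ k := by
            rw [Finset.sum_const, nsmul_eq_mul]
        _ ≤ _ := by
            refine mul_le_mul_of_nonneg_right ?_ (by positivity)
            have := card_le_card (filter_subset (fun R => R.card ≤ k) s.powerset)
            rw [card_powerset] at this
            exact_mod_cast this
    have h2 : (2 ^ s.card * (w : ℝ) ^ k) ^ 2 ≤ ((w : ℝ) ^ s.card) ^ 2 := by
      calc (2 ^ s.card * (w : ℝ) ^ k) ^ 2 = 4 ^ s.card * (w : ℝ) ^ (2 * k) := by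
            rw [mul_pow, ← pow_mul, ← pow_mul, mul_comm s.card 2, pow_mul 2 2, mul_comm k 2]
            norm_num
        _ ≤ (w : ℝ) ^ s.card * (w : ℝ) ^ s.card := by
            refine mul_le_mul ?_ ?_ (by positivity) (by positivity)
            · exact pow_le_pow_left₀ (by norm_num) (by exact_mod_cast hw) _
            · exact pow_le_pow_right₀ (by exact_mod_cast (by omega : 1 ≤ w)) (by omega)
        _ = _ := by ring
    have h3 : 2 ^ s.card * (w : ℝ) ^ k ≤ (w : ℝ) ^ s.card := by
      refine le_of_sq_le_sq ?_ (by positivity)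
      exact h2
    have h4 : (0:ℝ) ≤ (w : ℝ) ^ s.card := by positivity
    linarith

variable [Fintype I] [DecidableEq I] [NeZero w]

theorem card_inF (a b : Fin w) (hab : a ≠ b) (S : I → Finset (Fin r)) (e : I)
    (he : (S e).card ≤ k) :
    w ^ Fintype.card (Fin r ⊕ (I × Fin k)) ≤
      (fil fun ω : Om r I k w => inF a b S ω e).card * w ^ k := by
  set T : Finset (Fin r ⊕ (I × Fin k)) := (S e).map ⟨Sum.inl, Sum.inl_injective⟩ ∪
    (univ.filter fun i : Fin k => (S e).card ≤ i.val).map
      ⟨fun i => Sum.inr (e, i), fun i j h => by simpa using h⟩ with hT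
  have hTc : T.card = k := by
    rw [hT, card_union_of_disjoint, card_map, card_map]
    · have h1 : (univ.filter fun i : Fin k => (S e).card ≤ i.val).card = k - (S e).card := by
        have h2 := card_filter_add_card_filter_not (s := (univ : Finset (Fin k)))
          (fun i => (S e).card ≤ i.val)
        have h3 : (univ.filter fun i : Fin k => ¬ (S e).card ≤ i.val).card = (S e).card := by
          have h4 : (univ.filter fun i : Fin k => ¬ (S e).card ≤ i.val) =
              (univ : Finset (Fin (S e).card)).map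
                (Fin.castLEEmb he) := by
            ext i
            simp only [mem_filter, mem_univ, true_and, mem_map]
            constructor
            · intro h
              exact ⟨⟨i.val, by omega⟩, rfl⟩
            · rintro ⟨j, rfl⟩
              have := j.2
              rw [Fin.castLEEmb_apply, Fin.val_castLE]
              omega
          rw [h4, card_map, card_univ, Fintype.card_fin]
        rw [h3, card_univ, Fintype.card_fin] at h2
        omega
      rw [h1]
      omega
    · rw [disjoint_left]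
      intro x hx hx'
      simp only [mem_map, Function.Embedding.coeFn_mk] at hx hx'
      obtain ⟨j, _, rfl⟩ := hx
      obtain ⟨i, _, hi⟩ := hx'
      exact Sum.inr_ne_inl hi
  have h := card_fixed T (fun x : Fin r ⊕ (I × Fin k) => match x with
    | Sum.inl _ => a
    | Sum.inr _ => (0 : Fin w))
  rw [hTc, Fintype.card_fin] at h
  rw [← h]
  refine Nat.mul_le_mul_right _ (card_le_card fun ω hω => ?_)
  rw [mem_fil] at hω ⊢
  have h1 : ∀ j ∈ S e, ω (Sum.inl j) = a := fun j hj =>
    hω (Sum.inl j) (mem_union_left _ (mem_map.2 ⟨j, hj, rfl⟩))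
  have h2 : own a S ω e = (S e).card := by
    unfold own
    rw [filter_true_of_mem h1]
  refine ⟨⟨fun j hj => Or.inl (h1 j hj), by rw [h2]; exact he, ?_⟩, ?_⟩
  · intro i hi
    rw [h2] at hi
    exact hω (Sum.inr (e, i)) (mem_union_right _ (mem_map.2 ⟨i, by simpa using hi, rfl⟩))
  · intro j hj
    rw [h1 j hj]
    exact hab

theorem card_inP (a b : Fin w) (S : I → Finset (Fin r)) (e : I) (hw : 4 ≤ w) (hk : 2 * k ≤ w) :
    ((fil fun ω : Om r I k w => inP a b S ω e).card : ℝ) * (w : ℝ) ^ k ≤
      3 * (w : ℝ) ^ Fintype.card (Fin r ⊕ (I × Fin k)) := by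
  have hw0 : (0:ℝ) < w := by exact_mod_cast (by omega : 0 < w)
  set N := Fintype.card (Fin r ⊕ (I × Fin k)) with hN
  -- the piece of a set `R`
  set T : Finset (Fin r) → Finset (Fin r ⊕ (I × Fin k)) := fun R =>
    (S e).map ⟨Sum.inl, Sum.inl_injective⟩ ∪
    (univ.filter fun i : Fin k => R.card ≤ i.val).map
      ⟨fun i => Sum.inr (e, i), fun i j h => by simpa using h⟩ with hT
  have hTc : ∀ R : Finset (Fin r), R.card ≤ k → (T R).card + R.card = (S e).card + k := by
    intro R hR
    rw [hT]
    simp only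
    rw [card_union_of_disjoint, card_map, card_map]
    · have h1 : (univ.filter fun i : Fin k => R.card ≤ i.val).card = k - R.card := by
        have h2 := card_filter_add_card_filter_not (s := (univ : Finset (Fin k)))
          (fun i => R.card ≤ i.val)
        have h3 : (univ.filter fun i : Fin k => ¬ R.card ≤ i.val).card = R.card := by
          have h4 : (univ.filter fun i : Fin k => ¬ R.card ≤ i.val) =
              (univ : Finset (Fin R.card)).map
                (Fin.castLEEmb hR) := by
            ext i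
            simp only [mem_filter, mem_univ, true_and, mem_map]
            constructor
            · intro h
              exact ⟨⟨i.val, by omega⟩, rfl⟩
            · rintro ⟨j, rfl⟩
              have := j.2
              rw [Fin.castLEEmb_apply, Fin.val_castLE]
              omega
          rw [h4, card_map, card_univ, Fintype.card_fin]
        rw [h3, card_univ, Fintype.card_fin] at h2
        omega
      rw [h1]
      omega
    · rw [disjoint_left]
      intro x hx hx'
      simp only [mem_map, Function.Embedding.coeFn_mk] at hx hx'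
      obtain ⟨j, _, rfl⟩ := hx
      obtain ⟨i, _, hi⟩ := hx'
      exact Sum.inr_ne_inl hi
  set A : Finset (Fin r) → Finset (Om r I k w) := fun R =>
    fil fun ω => ∀ x ∈ T R, ω x = (match x with
      | Sum.inl j => if j ∈ R then a else b
      | Sum.inr _ => (0 : Fin w)) with hA
  have hAc : ∀ R : Finset (Fin r), R.card ≤ k →
      ((A R).card : ℝ) * (w : ℝ) ^ ((S e).card + k) = (w : ℝ) ^ N * (w : ℝ) ^ R.card := by
    intro R hR
    have h := card_fixed (T R) (fun x : Fin r ⊕ (I × Fin k) => (match x with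
      | Sum.inl j => if j ∈ R then a else b
      | Sum.inr _ => (0 : Fin w)))
    rw [Fintype.card_fin] at h
    have h' : ((A R).card : ℝ) * (w : ℝ) ^ (T R).card = (w : ℝ) ^ N := by exact_mod_cast h
    rw [← hTc R hR, pow_add, ← mul_assoc, h']
  have hsub : (fil fun ω : Om r I k w => inP a b S ω e) ⊆
      ((S e).powerset.filter (fun R => R.card ≤ k)).biUnion A := by
    intro ω hω
    rw [mem_fil] at hω
    obtain ⟨h1, h2, h3⟩ := hω
    rw [mem_biUnion]
    refine ⟨(S e).filter fun j => ω (Sum.inl j) = a, ?_, ?_⟩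
    · rw [mem_filter, mem_powerset]
      exact ⟨filter_subset _ _, h2⟩
    · rw [hA, mem_fil]
      intro x hx
      rw [hT] at hx
      rcases mem_union.1 hx with hx | hx
      · obtain ⟨j, hj, rfl⟩ := mem_map.1 hx
        show ω (Sum.inl j) = if j ∈ (S e).filter (fun j => ω (Sum.inl j) = a) then a else b
        by_cases hja : ω (Sum.inl j) = a
        · rw [if_pos (mem_filter.2 ⟨hj, hja⟩), hja]
        · rw [if_neg (show ¬ j ∈ (S e).filter (fun j => ω (Sum.inl j) = a) from
            fun h => hja (mem_filter.1 h).2)]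
          exact (h1 j hj).resolve_left hja
      · obtain ⟨i, hi, rfl⟩ := mem_map.1 hx
        exact h3 i (mem_filter.1 hi).2
  have h1 : ((fil fun ω : Om r I k w => inP a b S ω e).card : ℝ) *
      (w : ℝ) ^ ((S e).card + k) ≤ 3 * (w : ℝ) ^ (S e).card * (w : ℝ) ^ N := by
    calc _ ≤ (∑ R ∈ (S e).powerset.filter (fun R => R.card ≤ k), ((A R).card : ℝ)) *
          (w : ℝ) ^ ((S e).card + k) := by
          refine mul_le_mul_of_nonneg_right ?_ (by positivity)
          have := (card_le_card hsub).trans card_biUnion_le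
          exact_mod_cast this
      _ = (w : ℝ) ^ N * ∑ R ∈ (S e).powerset.filter (fun R => R.card ≤ k), (w : ℝ) ^ R.card := by
          rw [Finset.sum_mul, Finset.mul_sum]
          exact Finset.sum_congr rfl fun R hR => hAc R (mem_filter.1 hR).2
      _ ≤ (w : ℝ) ^ N * (3 * (w : ℝ) ^ (S e).card) :=
          mul_le_mul_of_nonneg_left (comb (S e) hw hk) (by positivity)
      _ = _ := by ring
  have hs : (0:ℝ) < (w : ℝ) ^ (S e).card := by positivity
  rw [pow_add] at h1
  have h2 : ((fil fun ω : Om r I k w => inP a b S ω e).card : ℝ) * (w : ℝ) ^ k *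
      (w : ℝ) ^ (S e).card ≤ 3 * (w : ℝ) ^ N * (w : ℝ) ^ (S e).card := by
    linarith
  exact le_of_mul_le_mul_right h2 hs

omit [Fintype I] [DecidableEq I] in
theorem own_congr (a : Fin w) (S : I → Finset (Fin r)) (ω ω' : Om r I k w) (e : I)
    (h : ∀ j ∈ S e, ω (Sum.inl j) = ω' (Sum.inl j)) : own a S ω e = own a S ω' e := by
  unfold own
  congr 1
  refine filter_congr fun j hj => ?_
  rw [h j hj]

omit [Fintype I] [DecidableEq I] in
theorem inP_congr (a b : Fin w) (S : I → Finset (Fin r)) (ω ω' : Om r I k w) (e : I)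
    (h : ∀ j ∈ S e, ω (Sum.inl j) = ω' (Sum.inl j))
    (h' : ∀ i, ω (Sum.inr (e, i)) = ω' (Sum.inr (e, i))) : inP a b S ω e → inP a b S ω' e := by
  rintro ⟨h1, h2, h3⟩
  refine ⟨fun j hj => by rw [← h j hj]; exact h1 j hj, by rw [← own_congr a S ω ω' e h]; exact h2,
    fun i hi => ?_⟩
  rw [← own_congr a S ω ω' e h] at hi
  rw [← h' i]
  exact h3 i hi

omit [Fintype I] [DecidableEq I] in
theorem inF_congr (a b : Fin w) (S : I → Finset (Fin r)) (ω ω' : Om r I k w) (e : I)
    (h : ∀ j ∈ S e, ω (Sum.inl j) = ω' (Sum.inl j))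
    (h' : ∀ i, ω (Sum.inr (e, i)) = ω' (Sum.inr (e, i))) : inF a b S ω e → inF a b S ω' e := by
  rintro ⟨h1, h2⟩
  exact ⟨inP_congr a b S ω ω' e h h' h1, fun j hj => by rw [← h j hj]; exact h2 j hj⟩

/-- number of elements of `J` with the property -/
noncomputable def cnt (J : Finset I) (p : I → Prop) : ℝ := ((J ∩ fil p).card : ℝ)

theorem cnt_diff (J D : Finset I) (p q : I → Prop) (h : ∀ e, e ∉ D → (p e ↔ q e)) :
    |cnt J p - cnt J q| ≤ ((J ∩ D).card : ℝ) := by
  have h1 : ∀ p q : I → Prop, (∀ e, e ∉ D → (p e ↔ q e)) →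
      cnt J p ≤ cnt J q + ((J ∩ D).card : ℝ) := by
    intro p q h
    unfold cnt
    have : J ∩ fil p ⊆ (J ∩ fil q) ∪ (J ∩ D) := by
      intro e he
      rw [mem_inter, mem_fil] at he
      by_cases hD : e ∈ D
      · exact mem_union_right _ (mem_inter.2 ⟨he.1, hD⟩)
      · exact mem_union_left _ (mem_inter.2 ⟨he.1, mem_fil.2 ((h e hD).1 he.2)⟩)
    have h2 := (card_le_card this).trans (card_union_le _ _)
    exact_mod_cast h2
  rw [abs_le]
  have a1 := h1 p q h
  have a2 := h1 q p fun e he => (h e he).symm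
  constructor <;> linarith

theorem sum_cnt (J : Finset I) (p : Om r I k w → I → Prop) :
    ∑ ω, cnt J (p ω) = ∑ e ∈ J, ((fil fun ω => p ω e).card : ℝ) := by
  classical
  have h1 : ∀ ω, cnt J (p ω) = ∑ e ∈ J, if p ω e then (1:ℝ) else 0 := by
    intro ω
    unfold cnt
    rw [← Finset.sum_filter, Finset.sum_const, nsmul_eq_mul, mul_one]
    congr 2
    ext e
    rw [mem_inter, mem_fil, mem_filter]
  simp only [h1]
  rw [Finset.sum_comm]
  refine Finset.sum_congr rfl fun e _ => ?_
  rw [← Finset.sum_filter, Finset.sum_const, nsmul_eq_mul, mul_one]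
  congr 2

/-- differences: predicates that depend on the colours of the segments of `e` and the marks of
`e` only -/
theorem cnt_update (J : Finset I) (S : I → Finset (Fin r)) (L : ℕ)
    (hL : ∀ j, (J ∩ fil fun e => j ∈ S e).card ≤ L) (p : Om r I k w → I → Prop)
    (hp : ∀ ω ω' e, (∀ j ∈ S e, ω (Sum.inl j) = ω' (Sum.inl j)) →
      (∀ i, ω (Sum.inr (e, i)) = ω' (Sum.inr (e, i))) → p ω e → p ω' e)
    (ω : Om r I k w) (x : Fin r ⊕ (I × Fin k)) (v : Fin w) :
    |cnt J (p (Function.update ω x v)) - cnt J (p ω)| ≤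
      (match x with
        | Sum.inl _ => (L : ℝ)
        | Sum.inr _ => 1) := by
  rcases x with j | ⟨e0, i0⟩
  · simp only
    refine (cnt_diff J (fil fun e => j ∈ S e) _ _ fun e he => ?_).trans (by exact_mod_cast hL j)
    rw [mem_fil] at he
    have h1 : ∀ j' ∈ S e, Function.update ω (Sum.inl j) v (Sum.inl j') = ω (Sum.inl j') := by
      intro j' hj'
      rw [Function.update_of_ne]
      intro h
      have : j' = j := Sum.inl_injective h
      exact he (this ▸ hj')
    have h2 : ∀ i, Function.update ω (Sum.inl j) v (Sum.inr (e, i)) = ω (Sum.inr (e, i)) := by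
      intro i
      rw [Function.update_of_ne]
      exact Sum.inr_ne_inl
    exact ⟨hp _ _ e h1 h2, hp _ _ e (fun j hj => (h1 j hj).symm) fun i => (h2 i).symm⟩
  · simp only
    refine (cnt_diff J {e0} _ _ fun e he => ?_).trans ?_
    · rw [mem_singleton] at he
      have h1 : ∀ j' ∈ S e, Function.update ω (Sum.inr (e0, i0)) v (Sum.inl j') =
          ω (Sum.inl j') := by
        intro j' _
        rw [Function.update_of_ne]
        exact Sum.inl_ne_inr
      have h2 : ∀ i, Function.update ω (Sum.inr (e0, i0)) v (Sum.inr (e, i)) =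
          ω (Sum.inr (e, i)) := by
        intro i
        rw [Function.update_of_ne]
        intro h
        have := Sum.inr_injective h
        rw [Prod.mk.injEq] at this
        exact he this.1
      exact ⟨hp _ _ e h1 h2, hp _ _ e (fun j hj => (h1 j hj).symm) fun i => (h2 i).symm⟩
    · have : (J ∩ {e0}).card ≤ 1 := (card_le_card inter_subset_right).trans (by simp)
      exact_mod_cast this

theorem sum_sq_diff (L : ℕ) :
    ∑ x : Fin r ⊕ (I × Fin k), (match x with
        | Sum.inl _ => (L : ℝ)
        | Sum.inr _ => 1) ^ 2 = r * (L : ℝ) ^ 2 + Fintype.card I * k := by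
  rw [Fintype.sum_sum_type]
  simp

/-- few survivors: exponentially small probability -/
theorem few_inF (a b : Fin w) (hab : a ≠ b) (S : I → Finset (Fin r)) (J : Finset I) (L : ℕ)
    (hL : ∀ j, (J ∩ fil fun e => j ∈ S e).card ≤ L) (m : ℝ) (σ : ℝ) (hσ : 0 < σ)
    (hσ' : r * (L : ℝ) ^ 2 + Fintype.card I * k ≤ σ) (hm : 0 ≤ m)
    (hlow : 2 * m * (w : ℝ) ^ k ≤ ((J ∩ fil fun e => (S e).card ≤ k).card : ℝ)) :
    ((fil fun ω : Om r I k w => cnt J (inF a b S ω) ≤ m).card : ℝ) ≤
      (w : ℝ) ^ Fintype.card (Fin r ⊕ (I × Fin k)) * Real.exp (-(m ^ 2 / (2 * σ))) := by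
  have hw0 : (0:ℝ) < w := by exact_mod_cast Nat.pos_of_ne_zero (NeZero.ne w)
  have h := mcd_lower (fun ω : Om r I k w => cnt J (inF a b S ω)) _
    (fun ω x v => cnt_update J S L hL (fun ω e => inF a b S ω e)
      (fun ω ω' e => inF_congr a b S ω ω' e) ω x v) σ (2 * m) m hσ
    (by rw [sum_sq_diff]; exact hσ') hm (by
      rw [Fintype.card_fin, sum_cnt]
      have h1 : ∀ e ∈ J ∩ fil (fun e => (S e).card ≤ k),
          (w : ℝ) ^ Fintype.card (Fin r ⊕ (I × Fin k)) / (w : ℝ) ^ k ≤
            ((fil fun ω : Om r I k w => inF a b S ω e).card : ℝ) := by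
        intro e he
        rw [mem_inter, mem_fil] at he
        rw [div_le_iff₀ (by positivity)]
        exact_mod_cast card_inF a b hab S e he.2
      calc 2 * m * (w : ℝ) ^ Fintype.card (Fin r ⊕ (I × Fin k))
          = 2 * m * (w : ℝ) ^ k * ((w : ℝ) ^ Fintype.card (Fin r ⊕ (I × Fin k)) /
            (w : ℝ) ^ k) := by field_simp
        _ ≤ ((J ∩ fil fun e => (S e).card ≤ k).card : ℝ) *
            ((w : ℝ) ^ Fintype.card (Fin r ⊕ (I × Fin k)) / (w : ℝ) ^ k) :=
            mul_le_mul_of_nonneg_right hlow (by positivity)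
        _ = ∑ _e ∈ J ∩ fil (fun e => (S e).card ≤ k),
            (w : ℝ) ^ Fintype.card (Fin r ⊕ (I × Fin k)) / (w : ℝ) ^ k := by
            rw [Finset.sum_const, nsmul_eq_mul]
        _ ≤ ∑ e ∈ J ∩ fil (fun e => (S e).card ≤ k),
            ((fil fun ω : Om r I k w => inF a b S ω e).card : ℝ) := Finset.sum_le_sum h1
        _ ≤ _ := Finset.sum_le_sum_of_subset_of_nonneg inter_subset_left
            fun _ _ _ => Nat.cast_nonneg _)
  rw [Fintype.card_fin] at h
  refine le_trans (le_of_eq ?_) h
  congr 2
  ext ω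
  rw [mem_fil, mem_filter]
  simp only [mem_univ, true_and]
  rw [show 2 * m - m = m by ring]

/-- many candidates: exponentially small probability -/
theorem many_inP (a b : Fin w) (hw : 4 ≤ w) (hk : 2 * k ≤ w) (S : I → Finset (Fin r))
    (J : Finset I) (L : ℕ)
    (hL : ∀ j, (J ∩ fil fun e => j ∈ S e).card ≤ L) (m : ℝ) (σ : ℝ) (hσ : 0 < σ)
    (hσ' : r * (L : ℝ) ^ 2 + Fintype.card I * k ≤ σ) (hm : 0 ≤ m)
    (hup : (J.card : ℝ) ≤ m * (w : ℝ) ^ k) :
    ((fil fun ω : Om r I k w => 4 * m ≤ cnt J (inP a b S ω)).card : ℝ) ≤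
      (w : ℝ) ^ Fintype.card (Fin r ⊕ (I × Fin k)) * Real.exp (-(m ^ 2 / (2 * σ))) := by
  have hw0 : (0:ℝ) < w := by exact_mod_cast Nat.pos_of_ne_zero (NeZero.ne w)
  have h := mcd_upper (fun ω : Om r I k w => cnt J (inP a b S ω)) _
    (fun ω x v => cnt_update J S L hL (fun ω e => inP a b S ω e)
      (fun ω ω' e => inP_congr a b S ω ω' e) ω x v) σ (3 * m) m hσ
    (by rw [sum_sq_diff]; exact hσ') hm (by
      rw [Fintype.card_fin, sum_cnt]
      have h1 : ∀ e ∈ J, ((fil fun ω : Om r I k w => inP a b S ω e).card : ℝ) ≤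
          3 * (w : ℝ) ^ Fintype.card (Fin r ⊕ (I × Fin k)) / (w : ℝ) ^ k := by
        intro e _
        rw [le_div_iff₀ (by positivity)]
        exact card_inP a b S e hw hk
      calc ∑ e ∈ J, ((fil fun ω : Om r I k w => inP a b S ω e).card : ℝ)
          ≤ ∑ _e ∈ J, 3 * (w : ℝ) ^ Fintype.card (Fin r ⊕ (I × Fin k)) / (w : ℝ) ^ k :=
            Finset.sum_le_sum h1
        _ = (J.card : ℝ) * (3 * (w : ℝ) ^ Fintype.card (Fin r ⊕ (I × Fin k)) / (w : ℝ) ^ k) := by
            rw [Finset.sum_const, nsmul_eq_mul]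
        _ ≤ (m * (w : ℝ) ^ k) *
            (3 * (w : ℝ) ^ Fintype.card (Fin r ⊕ (I × Fin k)) / (w : ℝ) ^ k) :=
            mul_le_mul_of_nonneg_right hup (by positivity)
        _ = 3 * m * (w : ℝ) ^ Fintype.card (Fin r ⊕ (I × Fin k)) := by field_simp)
  rw [Fintype.card_fin] at h
  refine le_trans (le_of_eq ?_) h
  congr 2
  ext ω
  rw [mem_fil, mem_filter]
  simp only [mem_univ, true_and]
  rw [show 3 * m + m = 4 * m by ring]

end Pool.Agent.Lib_helper26.TS
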