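import Pool.Agent.Lib_helper26.TS.Defs

/-!
# Parity checks of the Reed-Solomon code, character sums over rectangles
-/

set_option autoImplicit false

namespace Pool.Agent.Lib_helper26.TS

open Finset

variable {q : ℕ} [Fact q.Prime]

theorem par_sub (n t : ℕ) (x y : Fin n → ZMod q) (i : Fin t) :
    par n t (fun j => x j - y j) i = par n t x i - par n t y i := by
  unfold par
  rw [← Finset.sum_sub_distrib]
  exact Finset.sum_congr rfl fun j _ => by ring

/-- at most `t` columns of the parity check matrix are linearly independent -/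
theorem par_zero {n t : ℕ} (hn : n ≤ q) (A : Finset (Fin n)) (hA : A.card ≤ t)
    (x : Fin n → ZMod q) (hx : ∀ j, j ∉ A → x j = 0) (h : ∀ i, par n t x i = 0) (j : Fin n) :
    x j = 0 := by
  by_cases hj : j ∈ A
  swap
  · exact hx j hj
  have e := A.equivFin
  set f : Fin A.card → ZMod q := fun i => (((e.symm i).1 : ℕ) : ZMod q) with hf
  set v : Fin A.card → ZMod q := fun i => x (e.symm i).1 with hv
  have hinj : Function.Injective f := by
    intro i i' h
    rw [hf] at h
    simp only at h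
    rw [ZMod.natCast_eq_natCast_iff', Nat.mod_eq_of_lt (lt_of_lt_of_le (e.symm i).1.2 hn),
      Nat.mod_eq_of_lt (lt_of_lt_of_le (e.symm i').1.2 hn)] at h
    exact e.symm.injective (Subtype.ext (Fin.ext h))
  have hsum : ∀ i : Fin A.card, ∑ j, v j * f j ^ (i : ℕ) = 0 := by
    intro i
    have h1 := h ⟨i.1, lt_of_lt_of_le i.2 hA⟩
    unfold par at h1
    have h2 : ∑ j : Fin n, ((j : ℕ) : ZMod q) ^ (i : ℕ) * x j =
        ∑ j ∈ A, ((j : ℕ) : ZMod q) ^ (i : ℕ) * x j := by
      symm
      refine Finset.sum_subset (subset_univ _) fun j _ hjA => ?_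
      rw [hx j hjA, mul_zero]
    simp only at h1
    rw [h2, ← Finset.sum_coe_sort A] at h1
    rw [← h1, ← e.symm.sum_comp]
    exact Finset.sum_congr rfl fun j _ => by rw [hv, hf]; simp only; ring
  have h3 := Matrix.eq_zero_of_forall_pow_sum_mul_pow_eq_zero hinj hsum
  have h4 := congrFun h3 (e ⟨j, hj⟩)
  rw [hv] at h4
  simpa using h4

/-- two words with the same parity checks that differ in at most `t` places are equal -/
theorem par_inj {n t : ℕ} (hn : n ≤ q) (A : Finset (Fin n)) (hA : A.card ≤ t)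
    (x y : Fin n → ZMod q) (hx : ∀ j, j ∉ A → x j = y j) (h : ∀ i, par n t x i = par n t y i) :
    x = y := by
  funext j
  have := par_zero (t := t) hn A hA (fun j => x j - y j) (fun j hj => by rw [hx j hj, sub_self])
    (fun i => by rw [par_sub, h i, sub_self]) j
  exact sub_eq_zero.1 this

/-- every vector of parity checks is possible -/
theorem exists_par {n t : ℕ} (hn : n ≤ q) (ht : t ≤ n) (v : Fin t → ZMod q) :
    ∃ x : Fin n → ZMod q, ∀ i, par n t x i = v i := by
  set ext : (Fin t → ZMod q) → Fin n → ZMod q := fun u j =>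
    if h : j.val < t then u ⟨j.val, h⟩ else 0 with hext
  have hinj : Function.Injective fun u : Fin t → ZMod q => par n t (ext u) := by
    intro u u' h
    have h1 := par_inj (t := t) hn ((univ : Finset (Fin t)).map (Fin.castLEEmb ht))
      (by rw [card_map, card_univ, Fintype.card_fin]) (ext u) (ext u') (by
        intro j hj
        have : ¬ j.val < t := by
          intro hjt
          apply hj
          rw [mem_map]
          exact ⟨⟨j.val, hjt⟩, mem_univ _, by ext; simp⟩
        rw [hext]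
        simp only
        rw [dif_neg this, dif_neg this]) fun i => congrFun h i
    funext i
    have h2 := congrFun h1 ⟨i.val, lt_of_lt_of_le i.2 ht⟩
    rw [hext] at h2
    simpa using h2
  have hsurj := Finite.surjective_of_injective hinj
  obtain ⟨u, hu⟩ := hsurj v
  exact ⟨ext u, fun i => congrFun hu i⟩

/-- orthogonality -/
theorem orth {ψ : AddChar (ZMod q) ℂ} (hψ : ψ.IsPrimitive) (t : ℕ) {l : ZMod q} (hl : l ≠ 0)
    (d : Fin t → ZMod q) :
    ∑ a : Fin t → ZMod q, ψ (l * ∑ i, a i * d i) = if d = 0 then (q : ℂ) ^ t else 0 := by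
  classical
  have h1 : ∀ a : Fin t → ZMod q, ψ (l * ∑ i, a i * d i) = ∏ i, ψ (a i * (l * d i)) := by
    intro a
    rw [Finset.mul_sum]
    have : ∀ s : Finset (Fin t), ψ (∑ i ∈ s, l * (a i * d i)) = ∏ i ∈ s, ψ (a i * (l * d i)) := by
      intro s
      induction s using Finset.induction_on with
      | empty => simp
      | insert i s hi ih =>
        rw [Finset.sum_insert hi, Finset.prod_insert hi, AddChar.map_add_eq_mul, ih]
        congr 2
        ring
    exact this univ
  simp only [h1]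
  have h2 : ∏ i : Fin t, ∑ c : ZMod q, ψ (c * (l * d i)) =
      ∑ a : Fin t → ZMod q, ∏ i, ψ (a i * (l * d i)) := by
    rw [Finset.prod_univ_sum, Fintype.piFinset_univ]
  rw [← h2]
  have h3 : ∀ i, ∑ c : ZMod q, ψ (c * (l * d i)) = if d i = 0 then (q : ℂ) else 0 := by
    intro i
    have := AddChar.sum_mulShift (l * d i) hψ
    rw [ZMod.card] at this
    rw [this]
    by_cases hd : d i = 0
    · rw [if_pos hd, if_pos (by rw [hd, mul_zero])]
    · rw [if_neg hd, if_neg (mul_ne_zero hl hd)]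
      exact Nat.cast_zero
  simp only [h3]
  by_cases hd : d = 0
  · rw [if_pos hd]
    rw [hd]
    simp
  · rw [if_neg hd]
    obtain ⟨i, hi⟩ := Function.ne_iff.1 hd
    exact Finset.prod_eq_zero (mem_univ i) (if_neg hi)

/-- the character sum over a rectangle is small -/
theorem rect {ψ : AddChar (ZMod q) ℂ} (hψ : ψ.IsPrimitive) (t : ℕ) {l : ZMod q} (hl : l ≠ 0)
    (U V : Finset (Fin t → ZMod q)) :
    ‖∑ a ∈ U, ∑ b ∈ V, ψ (l * ∑ i, a i * b i)‖ ^ 2 ≤ (U.card : ℝ) * (V.card * (q : ℝ) ^ t) := by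
  classical
  set S : (Fin t → ZMod q) → ℂ := fun a => ∑ b ∈ V, ψ (l * ∑ i, a i * b i) with hS
  have h1 : ‖∑ a ∈ U, S a‖ ^ 2 ≤ (U.card : ℝ) * ∑ a ∈ U, ‖S a‖ ^ 2 := by
    refine (pow_le_pow_left₀ (norm_nonneg _) (norm_sum_le _ _) 2).trans ?_
    exact sq_sum_le_card_mul_sum_sq
  have h2 : ∑ a ∈ U, ‖S a‖ ^ 2 ≤ ∑ a, ‖S a‖ ^ 2 :=
    Finset.sum_le_sum_of_subset_of_nonneg (subset_univ _) fun _ _ _ => by positivity
  have h3 : ∑ a, ‖S a‖ ^ 2 = V.card * (q : ℝ) ^ t := by
    have h4 : ((∑ a, ‖S a‖ ^ 2 : ℝ) : ℂ) = V.card * (q : ℂ) ^ t := by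
      push_cast
      have h5 : ∀ a, ((‖S a‖ : ℝ) : ℂ) ^ 2 =
          ∑ b ∈ V, ∑ b' ∈ V, ψ (l * ∑ i, a i * (b i - b' i)) := by
        intro a
        rw [← Complex.mul_conj', hS]
        simp only
        rw [map_sum, Finset.sum_mul_sum]
        refine Finset.sum_congr rfl fun b _ => Finset.sum_congr rfl fun b' _ => ?_
        have e1 : (starRingEnd ℂ) (ψ (l * ∑ i, a i * b' i)) = ψ (-(l * ∑ i, a i * b' i)) :=
          (AddChar.map_neg_eq_conj ψ _).symm
        rw [e1, ← AddChar.map_add_eq_mul]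
        congr 1
        rw [← mul_neg, ← mul_add, ← Finset.sum_neg_distrib, ← Finset.sum_add_distrib]
        congr 1
        exact Finset.sum_congr rfl fun i _ => by ring
      simp only [h5]
      rw [Finset.sum_comm]
      have h6 : ∀ b ∈ V, ∑ a : Fin t → ZMod q, ∑ b' ∈ V, ψ (l * ∑ i, a i * (b i - b' i)) =
          (q : ℂ) ^ t := by
        intro b hb
        rw [Finset.sum_comm]
        have h7 : ∀ b' ∈ V, ∑ a : Fin t → ZMod q, ψ (l * ∑ i, a i * (b i - b' i)) =
            if b' = b then (q : ℂ) ^ t else 0 := by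
          intro b' _
          rw [orth hψ t hl fun i => b i - b' i]
          congr 1
          rw [eq_iff_iff]
          constructor
          · intro h
            funext i
            exact (sub_eq_zero.1 (congrFun h i)).symm
          · rintro rfl
            funext i
            exact sub_self _
        rw [Finset.sum_congr rfl h7, Finset.sum_ite_eq', if_pos hb]
      rw [Finset.sum_congr rfl h6, Finset.sum_const, nsmul_eq_mul]
    exact_mod_cast h4
  rw [h3] at h2
  exact h1.trans (mul_le_mul_of_nonneg_left h2 (Nat.cast_nonneg _))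

/-- the inner product of the parity checks -/
def dotp (n t : ℕ) (p : (Fin n → ZMod q) × (Fin n → ZMod q)) : ZMod q :=
  ∑ i, par n t p.1 i * par n t p.2 i

/-- the set of pairs is closed under mixing on `A` and `B` -/
def Closed {n : ℕ} (A B : Finset (Fin n)) (K : Finset ((Fin n → ZMod q) × (Fin n → ZMod q))) :
    Prop :=
  ∀ p ∈ K, ∀ p' ∈ K, (∀ j, j ∉ A → p.1 j = p'.1 j) → (∀ j, j ∉ B → p.2 j = p'.2 j) →
    (p.1, p'.2) ∈ K

theorem class_bound {ψ : AddChar (ZMod q) ℂ} (hψ : ψ.IsPrimitive) {n τ : ℕ} (hn : n ≤ q)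
    {l : ZMod q} (hl : l ≠ 0) (A B : Finset (Fin n)) (hA : A.card = 2 * τ) (hB : B.card = 2 * τ)
    (K : Finset ((Fin n → ZMod q) × (Fin n → ZMod q))) (hK : Closed A B K) :
    ‖∑ p ∈ K, ψ (l * dotp n (2 * τ) p)‖ ≤ (q : ℝ) ^ (2 * n - τ) := by
  classical
  set R := ({j // j ∉ A} → ZMod q) × ({j // j ∉ B} → ZMod q) with hR
  set res : ((Fin n → ZMod q) × (Fin n → ZMod q)) → R := fun p =>
    (fun j => p.1 j.1, fun j => p.2 j.1) with hres
  have h1 : ∑ p ∈ K, ψ (l * dotp n (2 * τ) p) =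
      ∑ β : R, ∑ p ∈ K.filter (fun p => res p = β), ψ (l * dotp n (2 * τ) p) :=
    (Finset.sum_fiberwise K res _).symm
  have hq1 : (1:ℝ) ≤ q := by exact_mod_cast (Fact.out : q.Prime).one_lt.le
  have h2 : ∀ β : R, ‖∑ p ∈ K.filter (fun p => res p = β), ψ (l * dotp n (2 * τ) p)‖ ≤
      (q : ℝ) ^ (3 * τ) := by
    intro β
    set Kβ := K.filter (fun p => res p = β) with hKβ
    set U := Kβ.image Prod.fst with hU
    set W := Kβ.image Prod.snd with hW
    have hprod : Kβ = U ×ˢ W := by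
      ext p
      rw [mem_product, hU, hW, mem_image, mem_image]
      constructor
      · intro hp
        exact ⟨⟨p, hp, rfl⟩, ⟨p, hp, rfl⟩⟩
      · rintro ⟨⟨p1, hp1, e1⟩, ⟨p2, hp2, e2⟩⟩
        rw [hKβ, mem_filter] at hp1 hp2 ⊢
        have hA' : ∀ j, j ∉ A → p1.1 j = p2.1 j := by
          intro j hj
          have := hp1.2.trans hp2.2.symm
          exact congrFun (congrArg Prod.fst this) ⟨j, hj⟩
        have hB' : ∀ j, j ∉ B → p1.2 j = p2.2 j := by
          intro j hj
          have := hp1.2.trans hp2.2.symm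
          exact congrFun (congrArg Prod.snd this) ⟨j, hj⟩
        have h3 := hK p1 hp1.1 p2 hp2.1 hA' hB'
        have hp : (p1.1, p2.2) = p := by rw [e1, e2]
        rw [hp] at h3
        refine ⟨h3, ?_⟩
        rw [← hp1.2, ← hp]
        refine Prod.ext rfl ?_
        funext j
        exact (hB' j.1 j.2).symm
    have hUinj : Set.InjOn (fun x => par n (2 * τ) x) (U : Set (Fin n → ZMod q)) := by
      intro x hx x' hx' h
      rw [hU, coe_image] at hx hx'
      obtain ⟨p, hp, rfl⟩ := hx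
      obtain ⟨p', hp', rfl⟩ := hx'
      rw [mem_coe, hKβ, mem_filter] at hp hp'
      refine par_inj (t := 2 * τ) hn A hA.le _ _ (fun j hj => ?_) fun i => congrFun h i
      have := hp.2.trans hp'.2.symm
      exact congrFun (congrArg Prod.fst this) ⟨j, hj⟩
    have hWinj : Set.InjOn (fun x => par n (2 * τ) x) (W : Set (Fin n → ZMod q)) := by
      intro x hx x' hx' h
      rw [hW, coe_image] at hx hx'
      obtain ⟨p, hp, rfl⟩ := hx
      obtain ⟨p', hp', rfl⟩ := hx'
      rw [mem_coe, hKβ, mem_filter] at hp hp'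
      refine par_inj (t := 2 * τ) hn B hB.le _ _ (fun j hj => ?_) fun i => congrFun h i
      have := hp.2.trans hp'.2.symm
      exact congrFun (congrArg Prod.snd this) ⟨j, hj⟩
    have hsum : ∑ p ∈ Kβ, ψ (l * dotp n (2 * τ) p) =
        ∑ a ∈ U.image (fun x => par n (2 * τ) x), ∑ b ∈ W.image (fun x => par n (2 * τ) x),
          ψ (l * ∑ i, a i * b i) := by
      rw [hprod, Finset.sum_product, Finset.sum_image hUinj]
      refine Finset.sum_congr rfl fun x _ => ?_
      rw [Finset.sum_image hWinj]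
      rfl
    rw [hsum]
    have h4 := rect hψ (2 * τ) hl (U.image (fun x => par n (2 * τ) x))
      (W.image (fun x => par n (2 * τ) x))
    have hcard : ∀ U : Finset (Fin (2 * τ) → ZMod q), (U.card : ℝ) ≤ (q : ℝ) ^ (2 * τ) := by
      intro U
      have := card_le_univ U
      rw [Fintype.card_fun, ZMod.card, Fintype.card_fin] at this
      exact_mod_cast this
    have h5 : ‖∑ a ∈ U.image (fun x => par n (2 * τ) x), ∑ b ∈ W.image (fun x => par n (2 * τ) x),
          ψ (l * ∑ i, a i * b i)‖ ^ 2 ≤ ((q : ℝ) ^ (3 * τ)) ^ 2 := by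
      refine h4.trans ?_
      calc _ ≤ (q : ℝ) ^ (2 * τ) * ((q : ℝ) ^ (2 * τ) * (q : ℝ) ^ (2 * τ)) := by
            have h0 : (0:ℝ) ≤ (q : ℝ) ^ (2 * τ) := by positivity
            exact mul_le_mul (hcard _) (mul_le_mul_of_nonneg_right (hcard _) h0)
              (mul_nonneg (Nat.cast_nonneg _) h0) h0
        _ = _ := by rw [← pow_add, ← pow_add, ← pow_mul]; congr 1; omega
    exact le_of_sq_le_sq h5 (by positivity)
  have hAn : 2 * τ ≤ n := by
    rw [← hA]
    refine (card_le_univ A).trans ?_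
    rw [Fintype.card_fin]
  rw [h1]
  refine (norm_sum_le _ _).trans ((Finset.sum_le_sum fun β _ => h2 β).trans ?_)
  rw [Finset.sum_const, nsmul_eq_mul, card_univ]
  have hcardR : Fintype.card R = q ^ (n - 2 * τ) * q ^ (n - 2 * τ) := by
    have e1 : ∀ A : Finset (Fin n), A.card = 2 * τ →
        Fintype.card ({j // j ∉ A} → ZMod q) = q ^ (n - 2 * τ) := by
      intro A hA
      rw [Fintype.card_fun, ZMod.card]
      congr 1
      rw [Fintype.card_subtype_compl, Fintype.card_fin, Fintype.card_coe, hA]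
    have e2 : Fintype.card R = Fintype.card ({j // j ∉ A} → ZMod q) *
        Fintype.card ({j // j ∉ B} → ZMod q) := Fintype.card_prod _ _
    rw [e2, e1 A hA, e1 B hB]
  rw [hcardR]
  push_cast
  rw [← pow_add, ← pow_add]
  refine le_of_eq ?_
  congr 1
  omega

/-- the difference of two indicators -/
def dl (c : ZMod q) : ℝ := (if c = 0 then 1 else 0) - (if c = 1 then 1 else 0)

theorem ind {ψ : AddChar (ZMod q) ℂ} (hψ : ψ.IsPrimitive) (c : ZMod q) :
    (q : ℂ) * (if c = 0 then 1 else 0) = ∑ l : ZMod q, ψ (l * c) := by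
  have := AddChar.sum_mulShift c hψ
  rw [ZMod.card] at this
  rw [this]
  split_ifs <;> simp

theorem delta_bound {n τ : ℕ} (hn : n ≤ q) (A B : Finset (Fin n)) (hA : A.card = 2 * τ)
    (hB : B.card = 2 * τ) (K : Finset ((Fin n → ZMod q) × (Fin n → ZMod q)))
    (hK : Closed A B K) :
    |∑ p ∈ K, dl (dotp n (2 * τ) p)| ≤ 2 * (q : ℝ) ^ (2 * n - τ) := by
  have hψ := ZMod.isPrimitive_stdAddChar q
  set ψ : AddChar (ZMod q) ℂ := ZMod.stdAddChar with hψd
  have hq0 : (0:ℝ) < q := by exact_mod_cast (Fact.out : q.Prime).pos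
  have h1 : ∀ c : ZMod q, (q : ℂ) * (dl c : ℂ) = ∑ l : ZMod q, (1 - ψ (-l)) * ψ (l * c) := by
    intro c
    have e1 := ind hψ c
    have e2 := ind hψ (c - 1)
    have e3 : (dl c : ℂ) = (if c = 0 then 1 else 0) - (if c - 1 = 0 then 1 else 0) := by
      unfold dl
      simp only [sub_eq_zero]
      split_ifs <;> simp
    rw [e3, mul_sub, e1, e2, ← Finset.sum_sub_distrib]
    refine Finset.sum_congr rfl fun l _ => ?_
    rw [sub_mul, one_mul, ← AddChar.map_add_eq_mul]
    congr 2
    ring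
  have h2 : (q : ℂ) * ((∑ p ∈ K, dl (dotp n (2 * τ) p) : ℝ) : ℂ) =
      ∑ l : ZMod q, (1 - ψ (-l)) * ∑ p ∈ K, ψ (l * dotp n (2 * τ) p) := by
    push_cast
    rw [Finset.mul_sum]
    simp only [h1, Finset.mul_sum]
    rw [Finset.sum_comm]
  have h3 : ∀ l : ZMod q, ‖(1 - ψ (-l)) * ∑ p ∈ K, ψ (l * dotp n (2 * τ) p)‖ ≤
      2 * (q : ℝ) ^ (2 * n - τ) := by
    intro l
    by_cases hl : l = 0
    · rw [hl, neg_zero, AddChar.map_zero_eq_one, sub_self, zero_mul, norm_zero]
      positivity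
    · rw [norm_mul]
      refine mul_le_mul ?_ (class_bound hψ hn hl A B hA hB K hK) (norm_nonneg _) (by norm_num)
      refine (norm_sub_le _ _).trans ?_
      rw [norm_one, AddChar.norm_apply]
      norm_num
  have h4 : (q : ℝ) * |∑ p ∈ K, dl (dotp n (2 * τ) p)| ≤ q * (2 * (q : ℝ) ^ (2 * n - τ)) := by
    calc (q : ℝ) * |∑ p ∈ K, dl (dotp n (2 * τ) p)|
        = ‖(q : ℂ) * ((∑ p ∈ K, dl (dotp n (2 * τ) p) : ℝ) : ℂ)‖ := by
          rw [norm_mul, Complex.norm_natCast, Complex.norm_real, Real.norm_eq_abs]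
      _ ≤ ∑ _l : ZMod q, 2 * (q : ℝ) ^ (2 * n - τ) := by
          rw [h2]
          exact (norm_sum_le _ _).trans (Finset.sum_le_sum fun l _ => h3 l)
      _ = _ := by rw [Finset.sum_const, card_univ, ZMod.card, nsmul_eq_mul]
  exact le_of_mul_le_mul_left h4 hq0

/-- the number of pairs with inner product zero -/
theorem count_zero {n τ : ℕ} (hn : n ≤ q) (hτ : 2 * τ ≤ n) :
    (q : ℝ) ^ (2 * n) ≤ q * (((univ : Finset ((Fin n → ZMod q) × (Fin n → ZMod q))).filter
      (fun p => dotp n (2 * τ) p = 0)).card : ℝ) + q * (q : ℝ) ^ (2 * n - τ) := by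
  have hψ := ZMod.isPrimitive_stdAddChar q
  set ψ : AddChar (ZMod q) ℂ := ZMod.stdAddChar with hψd
  have hq0 : (0:ℝ) < q := by exact_mod_cast (Fact.out : q.Prime).pos
  obtain ⟨A, -, hA⟩ := exists_subset_card_eq (s := (univ : Finset (Fin n))) (n := 2 * τ)
    (by rw [card_univ, Fintype.card_fin]; exact hτ)
  set D := (((univ : Finset ((Fin n → ZMod q) × (Fin n → ZMod q))).filter
      (fun p => dotp n (2 * τ) p = 0)).card : ℝ) with hD
  have h1 : (q : ℂ) * (D : ℂ) = ∑ l : ZMod q,
      ∑ p : (Fin n → ZMod q) × (Fin n → ZMod q), ψ (l * dotp n (2 * τ) p) := by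
    have e1 : (D : ℂ) = ∑ p : (Fin n → ZMod q) × (Fin n → ZMod q),
        if dotp n (2 * τ) p = 0 then (1:ℂ) else 0 := by
      rw [hD, ← Finset.sum_filter, Finset.sum_const, nsmul_eq_mul, mul_one]
      push_cast
      rfl
    rw [e1, Finset.mul_sum, Finset.sum_comm]
    exact Finset.sum_congr rfl fun p _ => ind hψ _
  have h2 : ∑ p : (Fin n → ZMod q) × (Fin n → ZMod q), ψ (0 * dotp n (2 * τ) p) =
      ((q : ℝ) ^ (2 * n) : ℝ) := by
    simp only [zero_mul, AddChar.map_zero_eq_one]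
    rw [Finset.sum_const, nsmul_eq_mul, mul_one, card_univ, Fintype.card_prod, Fintype.card_fun,
      ZMod.card, Fintype.card_fin]
    push_cast
    rw [← pow_add]
    congr 1
    omega
  rw [← Finset.add_sum_erase univ _ (mem_univ (0 : ZMod q)), h2] at h1
  have h3 : ‖∑ l ∈ univ.erase (0 : ZMod q),
      ∑ p : (Fin n → ZMod q) × (Fin n → ZMod q), ψ (l * dotp n (2 * τ) p)‖ ≤
      q * (q : ℝ) ^ (2 * n - τ) := by
    refine (norm_sum_le _ _).trans ?_
    calc _ ≤ ∑ _l ∈ univ.erase (0 : ZMod q), (q : ℝ) ^ (2 * n - τ) := by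
          refine Finset.sum_le_sum fun l hl => ?_
          exact class_bound hψ hn (ne_of_mem_erase hl) A A hA hA univ
            (fun _ _ _ _ _ _ => mem_univ _)
      _ ≤ q * (q : ℝ) ^ (2 * n - τ) := by
          rw [Finset.sum_const, nsmul_eq_mul]
          refine mul_le_mul_of_nonneg_right ?_ (by positivity)
          have := card_le_univ (univ.erase (0 : ZMod q))
          rw [ZMod.card] at this
          exact_mod_cast this
  have h4 : ((q : ℝ) ^ (2 * n) : ℝ) = ‖(((q : ℝ) ^ (2 * n) : ℝ) : ℂ)‖ := by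
    rw [Complex.norm_real, Real.norm_eq_abs, abs_of_nonneg (by positivity)]
  rw [h4]
  have h5 : (((q : ℝ) ^ (2 * n) : ℝ) : ℂ) = (q : ℂ) * (D : ℂ) -
      ∑ l ∈ univ.erase (0 : ZMod q),
      ∑ p : (Fin n → ZMod q) × (Fin n → ZMod q), ψ (l * dotp n (2 * τ) p) := by
    rw [h1]
    ring
  rw [h5]
  refine (norm_sub_le _ _).trans (add_le_add ?_ h3)
  have hD0 : 0 ≤ D := Nat.cast_nonneg _
  rw [norm_mul, Complex.norm_natCast, Complex.norm_real, Real.norm_eq_abs, abs_of_nonneg hD0]

end Pool.Agent.Lib_helper26.TS
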