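import Mathlib

/-!
# Random access machines, the modes NP, coNP, PP, PSPACE, and the two functions

The definitions used in the statement of the separations.
-/

set_option autoImplicit false

namespace Pool.Agent.Lib_helper26.TS

/-- A nondeterministic nonuniform random access machine for inputs `x : I → A` (cells `I`, words
`A`) with memory states `V`: at time `t`, in state `v`, it reads the cell `query t v` and may move
to every state `v'` with `step t v (contents of the cell) v'`. -/
structure NMach (I A V : Type) where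
  /-- initial state -/
  start : V
  /-- the cell read at time `t` in state `v` -/
  query : ℕ → V → I
  /-- possible next states -/
  step : ℕ → V → A → V → Prop
  /-- accepting states -/
  acc : V → Prop

/-- `ρ` is a computation of `T` steps on input `x`. -/
def NMach.Run {I A V : Type} (M : NMach I A V) (T : ℕ) (x : I → A) (ρ : ℕ → V) : Prop :=
  ρ 0 = M.start ∧ ∀ t < T, M.step t (ρ t) (x (M.query t (ρ t))) (ρ (t + 1))

/-- The machine accepts `x` after `T` steps. -/
def NMach.Accepts {I A V : Type} (M : NMach I A V) (T : ℕ) (x : I → A) : Prop :=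
  ∃ ρ, M.Run T x ρ ∧ M.acc (ρ T)

/-- Deterministic machine: exactly one next state. -/
def NMach.IsDet {I A V : Type} (M : NMach I A V) : Prop := ∀ t v a, ∃! v', M.step t v a v'

/-- The input cells: two words of length `n`. -/
abbrev Cell (n : ℕ) : Type := Fin n ⊕ Fin n

/-- NP mode of a family of `2 ^ W` deterministic machines (`W` witness bits) with `T` steps and
memory states `V`: some machine accepts. -/
def InNP (n q T : ℕ) (V : Type) (W : ℕ) (L : (Cell n → ZMod q) → Prop) : Prop :=
  ∃ P : Fin (2 ^ W) → NMach (Cell n) (ZMod q) V, (∀ w, (P w).IsDet) ∧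
    ∀ z, L z ↔ ∃ w, (P w).Accepts T z

/-- coNP mode: all machines accept. -/
def InCoNP (n q T : ℕ) (V : Type) (W : ℕ) (L : (Cell n → ZMod q) → Prop) : Prop :=
  ∃ P : Fin (2 ^ W) → NMach (Cell n) (ZMod q) V, (∀ w, (P w).IsDet) ∧
    ∀ z, L z ↔ ∀ w, (P w).Accepts T z

/-- PP mode (`W` random bits): more than half of the machines accept. -/
def InPP (n q T : ℕ) (V : Type) (W : ℕ) (L : (Cell n → ZMod q) → Prop) : Prop :=
  ∃ P : Fin (2 ^ W) → NMach (Cell n) (ZMod q) V, (∀ w, (P w).IsDet) ∧
    ∀ z, L z ↔ 2 ^ W < 2 * Nat.card {w // (P w).Accepts T z}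

/-- The game with the quantifiers of the list (`true`: there is a bit, `false`: for all bits) about
the list of the chosen bits. -/
def Alt : List Bool → (List Bool → Prop) → Prop
  | [], R => R []
  | true :: qs, R => ∃ b, Alt qs (fun w => R (b :: w))
  | false :: qs, R => ∀ b, Alt qs (fun w => R (b :: w))

/-- PSPACE mode: in the game with a fixed string of at most `W` quantifiers the machine of the
list of the chosen bits accepts. -/
def InPSPACE (n q T : ℕ) (V : Type) (W : ℕ) (L : (Cell n → ZMod q) → Prop) : Prop :=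
  ∃ (qs : List Bool) (P : List Bool → NMach (Cell n) (ZMod q) V), qs.length ≤ W ∧
    (∀ w, (P w).IsDet) ∧ ∀ z, L z ↔ Alt qs fun w => (P w).Accepts T z

/-- NP mode of nondeterministic machines. -/
def InNNP (n q T : ℕ) (V : Type) (W : ℕ) (L : (Cell n → ZMod q) → Prop) : Prop :=
  ∃ P : Fin (2 ^ W) → NMach (Cell n) (ZMod q) V, ∀ z, L z ↔ ∃ w, (P w).Accepts T z

/-- The parity checks of a word `x` of length `n`: `∑ j, j ^ i * x j` for `i < t`. -/
def par {q : ℕ} (n t : ℕ) (x : Fin n → ZMod q) (i : Fin t) : ZMod q :=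
  ∑ j : Fin n, ((j : ℕ) : ZMod q) ^ (i : ℕ) * x j

/-- The number of violated parity checks of a word. -/
noncomputable def errs {q : ℕ} (n t : ℕ) (x : Fin n → ZMod q) : ℕ :=
  Nat.card {i : Fin t // par n t x i ≠ 0}

/-- There will be `2 ^ tlog ε n` parity checks, between `n ^ (1 - ε / 1000) / 2` and
`n ^ (1 - ε / 1000)`. -/
noncomputable def tlog (ε : ℝ) (n : ℕ) : ℕ := ⌊(1 - ε / 1000) * Real.logb 2 n⌋₊

/-- The second word violates more parity checks than the first word. -/
def MoreErr {q : ℕ} (ε : ℝ) (n : ℕ) (z : Cell n → ZMod q) : Prop :=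
  errs n (2 ^ tlog ε n) (fun j => z (Sum.inl j)) < errs n (2 ^ tlog ε n) (fun j => z (Sum.inr j))

/-- The vectors of parity checks of the two words are orthogonal. -/
def Orth {q : ℕ} (ε : ℝ) (n : ℕ) (z : Cell n → ZMod q) : Prop :=
  ∑ i, par n (2 ^ tlog ε n) (fun j => z (Sum.inl j)) i *
    par n (2 ^ tlog ε n) (fun j => z (Sum.inr j)) i = 0

end Pool.Agent.Lib_helper26.TS
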