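import Pool.Agent.Lib_helper26.TS.Runs

/-!
# Deterministic machines: the classes of inputs with the same key are closed under mixing
-/

set_option autoImplicit false
set_option linter.unusedSectionVars false

namespace Pool.Agent.Lib_helper26.TS

open Finset

variable {I A V : Type}

/-- deterministic machine: at most one next state -/
def NMach.Det (M : NMach I A V) : Prop :=
  ∀ t v a v' v'', M.step t v a v' → M.step t v a v'' → v' = v''

theorem run_unique {M : NMach I A V} (hM : M.Det) {T : ℕ} {x : I → A} {ρ ρ' : ℕ → V}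
    (h : M.Run T x ρ) (h' : M.Run T x ρ') : ∀ t ≤ T, ρ t = ρ' t := by
  intro t
  induction t with
  | zero => intro _; rw [h.1, h'.1]
  | succ t ih =>
    intro ht
    have e := ih (by omega)
    have s1 := h.2 t (by omega)
    have s2 := h'.2 t (by omega)
    rw [← e] at s2
    exact hM _ _ _ _ _ s1 s2

theorem grey {M : NMach I A V} (hM : M.Det) {T L : ℕ} (hL : 0 < L) {x x' : I → A}
    {ρ ρ' : ℕ → V} (h : M.Run T x ρ) (h' : M.Run T x' ρ') (hb : SameB T L ρ ρ') (j : ℕ)
    (hx : ∀ t < T, t / L = j → x (M.query t (ρ t)) = x' (M.query t (ρ t))) :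
    ∀ i < L, j * L + i ≤ T → ρ (j * L + i) = ρ' (j * L + i) := by
  intro i
  induction i with
  | zero => intro _ hi; exact hb j (by simpa using hi)
  | succ i ih =>
    intro hi hT
    have e := ih (by omega) (by omega)
    have s1 := h.2 (j * L + i) (by omega)
    have s2 := h'.2 (j * L + i) (by omega)
    have hj : (j * L + i) / L = j := by
      rw [mul_comm, Nat.mul_add_div hL, Nat.div_eq_of_lt (by omega), Nat.add_zero]
    have hxe := hx (j * L + i) (by omega) hj
    rw [← e, ← hxe] at s2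
    exact hM _ _ _ _ _ s1 s2

section keys

variable {r k w : ℕ} [Fintype I] [DecidableEq I] [NeZero w]

theorem mem_fil_iff {α : Type} [Fintype α] {P : α → Prop} {a : α} : a ∈ fil P ↔ P a := mem_fil

theorem seg_mix (b : Fin w) (M : NMach I A V) (T L : ℕ) (ω : Om r I k w) (ρ ρ' : ℕ → V) (e : I)
    (j : Fin r) : j ∈ seg M T L r (mixRun L (isC b ω) ρ ρ') e ↔
      if ω (Sum.inl j) = b then j ∈ seg M T L r ρ' e else j ∈ seg M T L r ρ e := by
  have hj : isC b ω j.val = decide (ω (Sum.inl j) = b) := isC_eq j.2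
  by_cases h : ω (Sum.inl j) = b
  · rw [if_pos h, mem_seg, mem_seg]
    have h1 : ∀ t, t / L = j.val → mixRun L (isC b ω) ρ ρ' t = ρ' t := by
      intro t ht
      unfold mixRun
      rw [ht, hj, h]
      simp
    constructor
    · rintro ⟨t, ht, htj, hq⟩
      rw [h1 t htj] at hq
      exact ⟨t, ht, htj, hq⟩
    · rintro ⟨t, ht, htj, hq⟩
      refine ⟨t, ht, htj, ?_⟩
      rw [h1 t htj]
      exact hq
  · rw [if_neg h, mem_seg, mem_seg]
    have h1 : ∀ t, t / L = j.val → mixRun L (isC b ω) ρ ρ' t = ρ t := by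
      intro t ht
      unfold mixRun
      rw [ht, hj, decide_eq_false h]
      simp
    constructor
    · rintro ⟨t, ht, htj, hq⟩
      rw [h1 t htj] at hq
      exact ⟨t, ht, htj, hq⟩
    · rintro ⟨t, ht, htj, hq⟩
      refine ⟨t, ht, htj, ?_⟩
      rw [h1 t htj]
      exact hq

theorem inP_iff {a b : Fin w} (hab : a ≠ b) {S S' : I → Finset (Fin r)} {ω : Om r I k w} {e : I}
    (h : ∀ j, ω (Sum.inl j) ≠ b → (j ∈ S e ↔ j ∈ S' e)) : inP a b S ω e ↔ inP a b S' ω e := by
  have key : ∀ S S' : I → Finset (Fin r), (∀ j, ω (Sum.inl j) ≠ b → (j ∈ S e ↔ j ∈ S' e)) →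
      inP a b S ω e → inP a b S' ω e := by
    rintro S S' h ⟨h1, h2, h3⟩
    have hown : own a S' ω e = own a S ω e := by
      unfold own
      congr 1
      ext j
      rw [mem_filter, mem_filter]
      constructor
      · rintro ⟨hj, hc⟩
        exact ⟨(h j (by rw [hc]; exact hab)).2 hj, hc⟩
      · rintro ⟨hj, hc⟩
        exact ⟨(h j (by rw [hc]; exact hab)).1 hj, hc⟩
    refine ⟨fun j hj => ?_, by rw [hown]; exact h2, fun i hi => h3 i (by rwa [hown] at hi)⟩
    by_cases hc : ω (Sum.inl j) = b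
    · exact Or.inr hc
    · exact h1 j ((h j hc).2 hj)
  exact ⟨key S S' h, key S' S fun j hj => (h j hj).symm⟩

theorem key_closed {M : NMach I A V} (hM : M.Det) {T L : ℕ} (hL : 0 < L) (hT : T ≤ r * L)
    {a b : Fin w} (hab : a ≠ b) (ω : Om r I k w) (JX JY : Finset I) (x x' : I → A)
    (ρ ρ' : ℕ → V) (h : M.Run T x ρ) (h' : M.Run T x' ρ') (hb : SameB T L ρ ρ')
    (hPX : PS a b M T L ρ ω JX = PS a b M T L ρ' ω JX)
    (hFX : FS a b M T L ρ ω JX = FS a b M T L ρ' ω JX)
    (hPY : PS b a M T L ρ ω JY = PS b a M T L ρ' ω JY)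
    (hxx : ∀ e, e ∉ FS a b M T L ρ ω JX → e ∉ FS b a M T L ρ ω JY → x e = x' e) :
    M.Run T (mixIn (FS b a M T L ρ ω JY) x x') (mixRun L (isC b ω) ρ ρ') ∧
      SameB T L ρ (mixRun L (isC b ω) ρ ρ') ∧
      PS a b M T L (mixRun L (isC b ω) ρ ρ') ω JX = PS a b M T L ρ ω JX ∧
      FS a b M T L (mixRun L (isC b ω) ρ ρ') ω JX = FS a b M T L ρ ω JX ∧
      PS b a M T L (mixRun L (isC b ω) ρ ρ') ω JY = PS b a M T L ρ ω JY ∧
      FS b a M T L (mixRun L (isC b ω) ρ ρ') ω JY = FS b a M T L ρ ω JY := by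
  set τ := mixRun L (isC b ω) ρ ρ' with hτ
  have hrun : M.Run T (mixIn (FS b a M T L ρ ω JY) x x') τ :=
    mix_run M T L hL hT a b hab ω JX JY x x' ρ ρ' h h' hb (FS a b M T L ρ ω JX)
      (FS b a M T L ρ ω JY) (by rw [hFX]) le_rfl hxx
  have hsame : SameB T L ρ τ := by
    intro j hj
    rw [hτ]
    unfold mixRun
    split_ifs
    · exact hb j hj
    · rfl
  -- grey segments
  have hgrey : ∀ j : Fin r, ω (Sum.inl j) ≠ a → ω (Sum.inl j) ≠ b → ∀ e,
      (j ∈ seg M T L r ρ e ↔ j ∈ seg M T L r ρ' e) := by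
    intro j hja hjb e
    have hx : ∀ t < T, t / L = j.val → x (M.query t (ρ t)) = x' (M.query t (ρ t)) := by
      intro t ht htj
      have hr : t / L < r := by rw [htj]; exact j.2
      have hjj : (⟨t / L, hr⟩ : Fin r) = j := Fin.ext htj
      refine hxx _ (fun hmem => ?_) fun hmem => ?_
      · have := colour_of_mem_FS hmem t ht hr rfl
        rw [hjj] at this
        exact hja this
      · have := colour_of_mem_FS hmem t ht hr rfl
        rw [hjj] at this
        exact hjb this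
    have heq : ∀ t < T, t / L = j.val → ρ t = ρ' t := by
      intro t ht htj
      have e1 : j.val * L + t % L = t := by
        rw [← htj]
        have := Nat.div_add_mod t L
        rw [mul_comm] at this
        exact this
      have := grey hM hL h h' hb j.val hx (t % L) (Nat.mod_lt _ hL) (by omega)
      rwa [e1] at this
    rw [mem_seg, mem_seg]
    constructor
    · rintro ⟨t, ht, htj, hq⟩
      exact ⟨t, ht, htj, by rw [← heq t ht htj]; exact hq⟩
    · rintro ⟨t, ht, htj, hq⟩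
      exact ⟨t, ht, htj, by rw [heq t ht htj]; exact hq⟩
  -- segments of the mixed run
  have hm1 : ∀ e (j : Fin r), ω (Sum.inl j) ≠ b → (j ∈ seg M T L r τ e ↔ j ∈ seg M T L r ρ e) := by
    intro e j hj
    rw [hτ, seg_mix, if_neg hj]
  have hm2 : ∀ e (j : Fin r), ω (Sum.inl j) ≠ a → (j ∈ seg M T L r τ e ↔ j ∈ seg M T L r ρ' e) := by
    intro e j hj
    rw [hτ, seg_mix]
    by_cases hjb : ω (Sum.inl j) = b
    · rw [if_pos hjb]
    · rw [if_neg hjb]
      exact hgrey j hj hjb e
  have hPX' : PS a b M T L τ ω JX = PS a b M T L ρ ω JX := by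
    ext e
    rw [mem_PS, mem_PS, inP_iff hab (hm1 e)]
  have hPY' : PS b a M T L τ ω JY = PS b a M T L ρ ω JY := by
    rw [hPY]
    ext e
    rw [mem_PS, mem_PS, inP_iff hab.symm (hm2 e)]
  refine ⟨hrun, hsame, hPX', ?_, hPY', ?_⟩
  · rw [hFX]
    ext e
    have e1 : e ∈ PS a b M T L τ ω JX ↔ e ∈ PS a b M T L ρ' ω JX := by rw [hPX', hPX]
    rw [mem_PS, mem_PS] at e1
    rw [mem_FS, mem_FS]
    unfold inF
    have e2 : (∀ j ∈ seg M T L r τ e, ω (Sum.inl j) ≠ b) ↔
        ∀ j ∈ seg M T L r ρ' e, ω (Sum.inl j) ≠ b := by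
      constructor
      · intro hh j hj hjb
        exact hh j ((hm2 e j (by rw [hjb]; exact hab.symm)).2 hj) hjb
      · intro hh j hj hjb
        exact hh j ((hm2 e j (by rw [hjb]; exact hab.symm)).1 hj) hjb
    rw [← and_assoc, ← and_assoc, e1, e2]
  · ext e
    have e1 : e ∈ PS b a M T L τ ω JY ↔ e ∈ PS b a M T L ρ ω JY := by rw [hPY']
    rw [mem_PS, mem_PS] at e1
    rw [mem_FS, mem_FS]
    unfold inF
    have e2 : (∀ j ∈ seg M T L r τ e, ω (Sum.inl j) ≠ a) ↔
        ∀ j ∈ seg M T L r ρ e, ω (Sum.inl j) ≠ a := by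
      constructor
      · intro hh j hj hjb
        exact hh j ((hm1 e j (by rw [hjb]; exact hab)).2 hj) hjb
      · intro hh j hj hjb
        exact hh j ((hm1 e j (by rw [hjb]; exact hab)).1 hj) hjb
    rw [← and_assoc, ← and_assoc, e1, e2]

end keys

end Pool.Agent.Lib_helper26.TS
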