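import Pool.Agent.Lib_helper26.TS.Params

/-!
# The lower bounds with the parameters put in
-/

set_option autoImplicit false
set_option linter.unusedSectionVars false

namespace Pool.Agent.Lib_helper26.TS

open Finset Filter

variable {q : ℕ} [Fact q.Prime] {V : Type} [Fintype V] {n : ℕ}

theorem log_le_logb {x : ℝ} (hx : 1 ≤ x) : Real.log x ≤ Real.logb 2 x := by
  rw [Real.logb, le_div_iff₀ (Real.log_pos (by norm_num))]
  have h1 := Real.log_nonneg hx
  have h2 : Real.log 2 ≤ 1 := by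
    have := Real.log_two_lt_d9
    linarith
  nlinarith

theorem large_one {ε : ℝ} (hL : Large ε n) : (1:ℝ) ≤ n := by
  by_contra h
  push Not at h
  have : (n : ℝ) = 0 := by
    have : n < 1 := by exact_mod_cast h
    have : n = 0 := by omega
    rw [this, Nat.cast_zero]
  have := hL.h100
  rw [‹(n : ℝ) = 0›, Real.log_zero] at this
  linarith

theorem neg_exp_le {x : ℝ} (hx : 2 ≤ x) : Real.exp (-x) ≤ 1 / 4 + 1 / 8 := by
  have h1 : x + 1 ≤ Real.exp x := Real.add_one_le_exp x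
  rw [Real.exp_neg]
  rw [inv_le_comm₀ (Real.exp_pos _) (by norm_num)]
  norm_num
  linarith

/-- nondeterministic machines -/
theorem n_lower {ε : ℝ} (h0 : 0 < ε) (h1 : ε < 1) (hL : Large ε n) (hn : n ≤ q) (T W : ℕ)
    (hT : (T : ℝ) ≤ ε / 24000 * (n * (Real.log n / Real.log (Real.log n))))
    (hW : Real.logb 2 (Fintype.card V) + W ≤ (n : ℝ) ^ (1 - ε))
    (emb : Fin n ↪ Cell n) (put : (Fin n → ZMod q) → Cell n → ZMod q)
    (hput1 : ∀ x j, put x (emb j) = x j)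
    (hput2 : ∀ x x' e, (∀ j, emb j ≠ e) → put x e = put x' e)
    (P : Fin (2 ^ W) → NMach (Cell n) (ZMod q) V)
    (h : ∀ x, (∃ y, (P y).Accepts T (put x)) ↔ ∀ i, par n (2 ^ tlog ε n) x i = 0) : False := by
  have hn1 := large_one hL
  have hn0 : (0:ℝ) < n := by linarith
  set γ := ε / 1000 with hγ
  have hγ0 : 0 < γ := by positivity
  have h100 := hL.h100
  have h32 := hL.h32
  rw [← hγ] at h32
  set ℓ := Real.log n with hℓ
  have hn2 : 2 ≤ n := by
    by_contra hc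
    have : n ≤ 1 := by omega
    have h3 : (n : ℝ) ≤ 1 := by exact_mod_cast this
    have := Real.log_nonpos hn0.le h3
    linarith
  obtain ⟨k, w, r, L, hw, hk, hL0, hTL, hTk, hm1, hm2, hkl, hr, hE⟩ := params h0 h1 hL (n / 2) T 1
    (by omega) (by omega) hT le_rfl (Real.one_le_rpow hn1 (by linarith))
  rw [← hγ, ← hℓ] at hkl
  rw [← hγ] at hr
  have : NeZero w := ⟨by omega⟩
  set t := 2 ^ tlog ε n with ht
  set N := n / 2 with hN
  set m : ℝ := (N : ℝ) / (4 * (w : ℝ) ^ k) with hm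
  set σ : ℝ := (r : ℝ) * (L : ℝ) ^ 2 + ((2 * n : ℕ) : ℝ) * k + 1 with hσ
  have hσ0 : 0 < σ := by rw [hσ]; positivity
  have hwr : (0:ℝ) < w := by exact_mod_cast (by omega : 0 < w)
  have hwk0 : (0:ℝ) < (w : ℝ) ^ k := by positivity
  obtain ⟨HX, -, hX⟩ := exists_subset_card_eq (s := (univ : Finset (Fin n))) (n := N)
    (by rw [card_univ, Fintype.card_fin]; omega)
  obtain ⟨HY, hY1, hY⟩ := exists_subset_card_eq (s := (univ : Finset (Fin n)) \ HX) (n := N)
    (by rw [card_sdiff_of_subset (subset_univ _), card_univ, Fintype.card_fin, hX]; omega)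
  have hdis : Disjoint HX HY := by
    rw [disjoint_left]
    intro j hj hj'
    exact (mem_sdiff.1 (hY1 hj')).2 hj
  set l : ℝ := k * Real.log w with hl
  have hl0 : 0 ≤ l := mul_nonneg (Nat.cast_nonneg _)
    (Real.log_nonneg (by exact_mod_cast (by omega : 1 ≤ w)))
  have hel : Real.exp (-l) = 1 / (w : ℝ) ^ k := by
    rw [hl, Real.exp_neg, ← Real.log_pow, Real.exp_log hwk0, one_div]
  have hNm : (N : ℝ) * Real.exp (-l) = 4 * m := by
    rw [hel, hm]
    field_simp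
  set NS : ℝ := Real.exp (l * t + 4 * m) with hNS
  have hsub : ∀ H : Finset (Fin n), H.card = N → ((subs (H.map emb) t).card : ℝ) ≤ NS := by
    intro H hH
    have := card_subs (H.map emb) t l hl0
    rw [card_map, hH, hNm] at this
    exact this
  have hE8 : 8 * Real.exp (-(m ^ 2 / (2 * σ))) ≤ 1 := by
    have e1 : Real.exp (-(m ^ 2 / (2 * σ))) ≤ Real.exp (-7) := by
      rw [Real.exp_le_exp, neg_le_neg_iff]
      linarith
    have e2 : Real.exp (-7) ≤ 1 / 8 := by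
      rw [Real.exp_neg, inv_le_comm₀ (Real.exp_pos _) (by norm_num)]
      have := Real.add_one_le_exp (7:ℝ)
      norm_num at this ⊢
      linarith
    linarith
  have hb := n_bound (V := V) (r := r) (k := k) (w := w) hL0 hTL hw hk hTk hm hm1 hσ0 (by
      rw [Fintype.card_sum, Fintype.card_fin, ← two_mul, hσ]
      linarith) hE8 hn emb HX HY hdis hX hY put hput1 hput2 P NS (hsub HX hX) (hsub HY hY) h
  -- numbers
  have hV : 1 ≤ Fintype.card V := by
    have : 0 < 2 ^ W := by positivity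
    exact Fintype.card_pos_iff.2 ⟨(P ⟨0, this⟩).start⟩
  have hVr : (1:ℝ) ≤ Fintype.card V := by exact_mod_cast hV
  have hqn : (n : ℝ) ≤ q := by exact_mod_cast hn
  have hq0 : (0:ℝ) < q := by linarith
  have hlq : ℓ ≤ Real.log q := Real.log_le_log hn0 hqn
  have htr : (0:ℝ) < t := by rw [ht]; positivity
  have ht1 : (1:ℝ) ≤ t := by
    have : 1 ≤ t := Nat.one_le_two_pow
    exact_mod_cast this
  have hlog : (t : ℝ) * Real.log q ≤ Real.log 2 + W * Real.log 2 +
      ((r : ℝ) + 1) * Real.log (Fintype.card V) + 2 * (l * t + 4 * m) := by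
    have h2 := Real.log_le_log (by positivity) hb
    rw [Real.log_pow] at h2
    refine h2.trans (le_of_eq ?_)
    have hVpos : (0:ℝ) < (Fintype.card V : ℝ) ^ (r + 1) := by positivity
    have hNSpos : (0:ℝ) < NS ^ 2 := by positivity
    push_cast
    rw [Real.log_mul (by norm_num) (by positivity), Real.log_mul (by positivity) (by positivity),
      Real.log_mul hVpos.ne' hNSpos.ne', Real.log_pow, Real.log_pow, Real.log_pow, hNS,
      Real.log_exp]
    push_cast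
    ring
  have hl2 : Real.log 2 ≤ 1 := by
    have := Real.log_two_lt_d9
    linarith
  have hl20 : 0 ≤ Real.log 2 := Real.log_nonneg (by norm_num)
  obtain ⟨-, hn2t⟩ := tlog_bounds h0 h1 (n := n) (by omega)
  rw [← hγ, ← ht] at hn2t
  set lV := Real.logb 2 (Fintype.card V) with hlV
  have hlV1 : Real.log (Fintype.card V) ≤ lV := log_le_logb hVr
  have hlV0 : 0 ≤ Real.log (Fintype.card V) := Real.log_nonneg hVr
  have hn3 : 1 ≤ (n : ℝ) ^ (3 * γ) := Real.one_le_rpow hn1 (by positivity)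
  have hZ : (n : ℝ) ^ (3 * γ) * (n : ℝ) ^ (1 - ε) * 32 ≤ 2 * t := by
    calc (n : ℝ) ^ (3 * γ) * (n : ℝ) ^ (1 - ε) * 32 ≤
        (n : ℝ) ^ (3 * γ) * (n : ℝ) ^ (1 - ε) * (n : ℝ) ^ (ε - 4 * γ) := by gcongr
      _ = (n : ℝ) ^ (1 - γ) := by
          rw [← Real.rpow_add hn0, ← Real.rpow_add hn0]
          congr 1
          ring
      _ ≤ 2 * t := hn2t
  have hW0 : (0:ℝ) ≤ W := Nat.cast_nonneg _
  have e1 : ((r : ℝ) + 1) * Real.log (Fintype.card V) ≤
      3 * (n : ℝ) ^ (3 * γ) * lV := by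
    calc ((r : ℝ) + 1) * Real.log (Fintype.card V) ≤
        (3 * ((n : ℝ) ^ (3 * γ) * 1)) * lV := by
          refine mul_le_mul hr hlV1 hlV0 (by positivity)
      _ = _ := by ring
  have e2 : W * Real.log 2 ≤ 3 * (n : ℝ) ^ (3 * γ) * W := by
    have : (W : ℝ) * Real.log 2 ≤ W * 1 := mul_le_mul_of_nonneg_left hl2 hW0
    nlinarith
  have e3 : 3 * (n : ℝ) ^ (3 * γ) * lV + 3 * (n : ℝ) ^ (3 * γ) * W ≤ t := by
    have : 3 * (n : ℝ) ^ (3 * γ) * (lV + W) ≤ 3 * (n : ℝ) ^ (3 * γ) * (n : ℝ) ^ (1 - ε) :=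
      mul_le_mul_of_nonneg_left hW (by positivity)
    nlinarith
  have e4 : l * t ≤ γ * ℓ * t := mul_le_mul_of_nonneg_right hkl htr.le
  have e5 : t * ℓ ≤ t * Real.log q := mul_le_mul_of_nonneg_left hlq htr.le
  have hγ1 : γ ≤ 1 / 1000 := by rw [hγ]; linarith
  have e6 : γ * ℓ * t ≤ 1 / 1000 * ℓ * t := by gcongr
  have e7 : 100 * (t : ℝ) ≤ ℓ * t := mul_le_mul_of_nonneg_right h100 htr.le
  linarith

/-- majorities of deterministic machines -/
theorem pp_lower {ε : ℝ} (h0 : 0 < ε) (h1 : ε < 1) (hL : Large ε n) (hn : n ≤ q) (T W : ℕ)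
    (hT : (T : ℝ) ≤ ε / 24000 * (n * (Real.log n / Real.log (Real.log n))))
    (hW : (Real.logb 2 (Fintype.card V) + 1) * (W + Real.logb 2 q) ≤ (n : ℝ) ^ (1 - ε))
    (P : Fin (2 ^ W) → NMach (Cell n) (ZMod q) V) (hP : ∀ y, (P y).Det)
    (h : ∀ z : Cell n → ZMod q, dotp n (2 ^ tlog ε n) (pr z) = 0 ↔
      2 ^ W < 2 * (fil fun y => (P y).Accepts T z).card) : False := by
  have hn1 := large_one hL
  have hn0 : (0:ℝ) < n := by linarith
  set γ := ε / 1000 with hγ
  have hγ0 : 0 < γ := by positivity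
  have h100 := hL.h100
  have h32 := hL.h32
  rw [← hγ] at h32
  set ℓ := Real.log n with hℓ
  have hqn : (n : ℝ) ≤ q := by exact_mod_cast hn
  have hq0 : (0:ℝ) < q := by linarith
  have hq2 : (2:ℝ) ≤ q := by exact_mod_cast (Fact.out : q.Prime).two_le
  have hlq1 : 1 ≤ Real.logb 2 q := by
    rw [Real.le_logb_iff_rpow_le (by norm_num) hq0, Real.rpow_one]
    exact hq2
  have hV : 1 ≤ Fintype.card V := by
    have : 0 < 2 ^ W := by positivity
    exact Fintype.card_pos_iff.2 ⟨(P ⟨0, this⟩).start⟩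
  have hVr : (1:ℝ) ≤ Fintype.card V := by exact_mod_cast hV
  set lV := Real.logb 2 (Fintype.card V) with hlV
  have hlV1 : Real.log (Fintype.card V) ≤ lV := log_le_logb hVr
  have hlV0 : 0 ≤ Real.log (Fintype.card V) := Real.log_nonneg hVr
  have hlV2 : 0 ≤ lV := hlV0.trans hlV1
  have hW0 : (0:ℝ) ≤ W := Nat.cast_nonneg _
  set B : ℝ := W + Real.logb 2 q with hB
  have hB1 : 1 ≤ B := by rw [hB]; linarith
  have hB2 : B ≤ (n : ℝ) ^ (1 - ε) := by nlinarith
  obtain ⟨k, w, r, L, hw, hk, hL0, hTL, hTk, hm1, hm2, hkl, hr, hE⟩ := params h0 h1 hL n T B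
    (by omega) le_rfl hT hB1 hB2
  rw [← hγ, ← hℓ] at hkl
  rw [← hγ] at hr
  have : NeZero w := ⟨by omega⟩
  set m : ℝ := (n : ℝ) / (4 * (w : ℝ) ^ k) with hm
  set σ : ℝ := (r : ℝ) * (L : ℝ) ^ 2 + ((2 * n : ℕ) : ℝ) * k + 1 with hσ
  have hσ0 : 0 < σ := by rw [hσ]; positivity
  have hwr : (0:ℝ) < w := by exact_mod_cast (by omega : 0 < w)
  have hwk0 : (0:ℝ) < (w : ℝ) ^ k := by positivity
  -- `t` is even
  obtain ⟨-, hn2t⟩ := tlog_bounds h0 h1 (n := n) (by exact_mod_cast hn1)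
  rw [← hγ] at hn2t
  have hlt : 1 ≤ tlog ε n := by
    unfold tlog
    refine Nat.le_floor ?_
    push_cast
    rw [← hγ]
    have e1 : ℓ ≤ Real.logb 2 n := log_le_logb hn1
    have e2 : γ ≤ 1 / 1000 := by rw [hγ]; linarith
    nlinarith
  obtain ⟨τ, hτ⟩ : ∃ τ, 2 ^ tlog ε n = 2 * τ :=
    ⟨2 ^ (tlog ε n - 1), by rw [← pow_succ']; congr 1; omega⟩
  rw [hτ] at h hm1 hm2 hn2t
  have hτ1 : 1 ≤ τ := by
    have : 0 < 2 * τ := by rw [← hτ]; positivity
    omega
  have hτr : (1:ℝ) ≤ τ := by exact_mod_cast hτ1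
  have h2τ : ((2 * τ : ℕ) : ℝ) = 2 * (τ : ℝ) := by push_cast; ring
  set l : ℝ := k * Real.log w with hl
  have hl0 : 0 ≤ l := mul_nonneg (Nat.cast_nonneg _)
    (Real.log_nonneg (by exact_mod_cast (by omega : 1 ≤ w)))
  have hel : Real.exp (-l) = 1 / (w : ℝ) ^ k := by
    rw [hl, Real.exp_neg, ← Real.log_pow, Real.exp_log hwk0, one_div]
  have hNm : (n : ℝ) * Real.exp (-l) = 4 * m := by
    rw [hel, hm]
    field_simp
  have hm0 : 0 ≤ m := by rw [hm]; positivity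
  set NS : ℝ := Real.exp (l * (16 * m) + 4 * m) with hNS
  have hsub : ∀ H : Finset (Cell n), H.card = n → ((subs H (16 * m)).card : ℝ) ≤ NS := by
    intro H hH
    have := card_subs H (16 * m) l hl0
    rw [hH, hNm] at this
    exact this
  have hNS1 : 1 ≤ NS := Real.one_le_exp (by positivity)
  have hpar : Par n T r L k w τ m σ := ⟨hL0, hTL, hw, hk, hTk, hm, hm1, hσ0, by rw [hσ]; linarith⟩
  have hb := pp_bound hpar hn P hP NS hNS1 (hsub _ (card_cellX n)) (hsub _ (card_cellY n)) h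
  -- numbers
  set E := m ^ 2 / (2 * σ) with hEd
  have hl2 : Real.log 2 ≤ 1 := by
    have := Real.log_two_lt_d9
    linarith
  have hlq : ℓ ≤ Real.log q := Real.log_le_log hn0 hqn
  have hlq' : Real.log q ≤ Real.logb 2 q := log_le_logb (by linarith)
  have hY : (q : ℝ) * (2 * ((2 ^ W : ℕ) : ℝ) + 1) ≤ Real.exp (B + 2) := by
    have e1 : (2 * ((2 ^ W : ℕ) : ℝ) + 1) ≤ 2 ^ (W + 2) := by
      have : (1:ℝ) ≤ 2 ^ W := one_le_pow₀ (by norm_num)
      push_cast
      rw [pow_add]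
      linarith
    have e2 : (2:ℝ) ^ (W + 2) ≤ Real.exp (W + 2) := by
      have h3 : (2:ℝ) ≤ Real.exp 1 := by
        have := Real.add_one_le_exp (1:ℝ)
        linarith
      calc (2:ℝ) ^ (W + 2) ≤ (Real.exp 1) ^ (W + 2) := pow_le_pow_left₀ (by norm_num) h3 _
        _ = Real.exp (W + 2) := by
          rw [← Real.exp_nat_mul]
          push_cast
          ring_nf
    have e3 : (q : ℝ) ≤ Real.exp (Real.logb 2 q) := by
      rw [← Real.log_le_iff_le_exp hq0]
      exact hlq'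
    calc (q : ℝ) * (2 * ((2 ^ W : ℕ) : ℝ) + 1) ≤
        Real.exp (Real.logb 2 q) * Real.exp (W + 2) := by
          refine mul_le_mul e3 (e1.trans e2) (by positivity) (by positivity)
      _ = Real.exp (B + 2) := by
          rw [← Real.exp_add, hB]
          congr 1
          ring
  have hZ : (n : ℝ) ^ (3 * γ) * (n : ℝ) ^ (1 - ε) * 32 ≤ 4 * τ := by
    calc (n : ℝ) ^ (3 * γ) * (n : ℝ) ^ (1 - ε) * 32 ≤
        (n : ℝ) ^ (3 * γ) * (n : ℝ) ^ (1 - ε) * (n : ℝ) ^ (ε - 4 * γ) := by gcongr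
      _ = (n : ℝ) ^ (1 - γ) := by
          rw [← Real.rpow_add hn0, ← Real.rpow_add hn0]
          congr 1
          ring
      _ ≤ 2 * ((2 * τ : ℕ) : ℝ) := hn2t
      _ = 4 * τ := by rw [h2τ]; ring
  set Zb : ℝ := (n : ℝ) ^ (3 * γ) * (n : ℝ) ^ (1 - ε) with hZb
  have hn3 : 1 ≤ (n : ℝ) ^ (3 * γ) := Real.one_le_rpow hn1 (by positivity)
  have hn4 : 1 ≤ (n : ℝ) ^ (1 - ε) := Real.one_le_rpow hn1 (by linarith)
  have hBZ : B ≤ Zb := by
    rw [hZb]
    nlinarith
  have hZ1 : 1 ≤ Zb := by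
    rw [hZb]
    nlinarith
  -- the keys
  have hkeys : (Fintype.card V : ℝ) ^ (r + 1) * NS ^ 4 / (q : ℝ) ^ τ ≤
      Real.exp (3 * Zb + 4 * (l * (16 * m) + 4 * m) - τ * ℓ) := by
    have e1 : (Fintype.card V : ℝ) ^ (r + 1) ≤ Real.exp (3 * Zb) := by
      have : (Fintype.card V : ℝ) ^ (r + 1) =
          Real.exp (((r : ℝ) + 1) * Real.log (Fintype.card V)) := by
        rw [← Real.exp_log (show (0:ℝ) < (Fintype.card V : ℝ) by linarith), ← Real.exp_nat_mul,
          Real.log_exp]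
        push_cast
        rfl
      rw [this, Real.exp_le_exp]
      calc ((r : ℝ) + 1) * Real.log (Fintype.card V) ≤
          (3 * ((n : ℝ) ^ (3 * γ) * B)) * lV := mul_le_mul hr hlV1 hlV0 (by positivity)
        _ = 3 * ((n : ℝ) ^ (3 * γ) * (lV * B)) := by ring
        _ ≤ 3 * ((n : ℝ) ^ (3 * γ) * (n : ℝ) ^ (1 - ε)) := by
            have : lV * B ≤ (n : ℝ) ^ (1 - ε) := by nlinarith
            gcongr
    have e2 : NS ^ 4 = Real.exp (4 * (l * (16 * m) + 4 * m)) := by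
      rw [hNS, ← Real.exp_nat_mul]
      norm_num
    have e3 : Real.exp (τ * ℓ) ≤ (q : ℝ) ^ τ := by
      calc Real.exp (τ * ℓ) ≤ Real.exp (τ * Real.log q) := by
            rw [Real.exp_le_exp]
            gcongr
        _ = (q : ℝ) ^ τ := by rw [Real.exp_nat_mul, Real.exp_log hq0]
    rw [div_le_iff₀ (by positivity)]
    calc (Fintype.card V : ℝ) ^ (r + 1) * NS ^ 4 ≤
        Real.exp (3 * Zb) * Real.exp (4 * (l * (16 * m) + 4 * m)) := by
          rw [e2]
          exact mul_le_mul_of_nonneg_right e1 (by positivity)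
      _ = Real.exp (3 * Zb + 4 * (l * (16 * m) + 4 * m) - τ * ℓ) * Real.exp (τ * ℓ) := by
          rw [← Real.exp_add, ← Real.exp_add]
          congr 1
          ring
      _ ≤ _ := mul_le_mul_of_nonneg_left e3 (by positivity)
  have hexp1 : B + 2 + (3 * Zb + 4 * (l * (16 * m) + 4 * m) - τ * ℓ) ≤ -3 := by
    have hγ1 : γ ≤ 1 / 1000 := by rw [hγ]; linarith
    have f1 : l * m ≤ γ * ℓ * (4 * τ) := by
      refine mul_le_mul hkl ?_ hm0 (by positivity)
      rw [h2τ] at hm2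
      linarith
    have f2 : γ * ℓ * (4 * τ) ≤ 1 / 1000 * ℓ * (4 * τ) := by gcongr
    have f3 : 100 * (τ : ℝ) ≤ ℓ * τ := mul_le_mul_of_nonneg_right h100 (by linarith)
    rw [h2τ] at hm2
    nlinarith
  have hexp2 : B + 2 - E ≤ -4 := by
    linarith
  have g1 : (q : ℝ) * ((2 * ((2 ^ W : ℕ) : ℝ) + 1) *
      (3 * ((Fintype.card V : ℝ) ^ (r + 1) * NS ^ 4) / (q : ℝ) ^ τ + 4 * Real.exp (-E))) ≤
      3 * Real.exp (-3) + 4 * Real.exp (-4) := by
    have c1 : 3 * ((Fintype.card V : ℝ) ^ (r + 1) * NS ^ 4) / (q : ℝ) ^ τ =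
        3 * ((Fintype.card V : ℝ) ^ (r + 1) * NS ^ 4 / (q : ℝ) ^ τ) := by ring
    have c2 : 0 ≤ 3 * ((Fintype.card V : ℝ) ^ (r + 1) * NS ^ 4) / (q : ℝ) ^ τ +
        4 * Real.exp (-E) := by positivity
    calc _ = ((q : ℝ) * (2 * ((2 ^ W : ℕ) : ℝ) + 1)) *
          (3 * ((Fintype.card V : ℝ) ^ (r + 1) * NS ^ 4) / (q : ℝ) ^ τ + 4 * Real.exp (-E)) := by
          ring
      _ ≤ Real.exp (B + 2) * (3 * Real.exp (3 * Zb + 4 * (l * (16 * m) + 4 * m) - τ * ℓ) +
          4 * Real.exp (-E)) := by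
          refine mul_le_mul hY ?_ c2 (by positivity)
          rw [c1]
          linarith
      _ = 3 * Real.exp (B + 2 + (3 * Zb + 4 * (l * (16 * m) + 4 * m) - τ * ℓ)) +
          4 * Real.exp (B + 2 - E) := by
          rw [Real.exp_add (B + 2) (3 * Zb + 4 * (l * (16 * m) + 4 * m) - τ * ℓ),
            sub_eq_add_neg (B + 2) E, Real.exp_add (B + 2) (-E)]
          ring
      _ ≤ _ := by
          have d1 := Real.exp_le_exp.2 hexp1
          have d2 := Real.exp_le_exp.2 hexp2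
          linarith
  have g2 : Real.exp (-3) ≤ 1 / 8 := by
    rw [Real.exp_neg, inv_le_comm₀ (Real.exp_pos _) (by norm_num)]
    have h3 : (2:ℝ) ≤ Real.exp 1 := by
      have := Real.add_one_le_exp (1:ℝ)
      linarith
    have h4 : Real.exp 3 = Real.exp 1 ^ 3 := by rw [← Real.exp_nat_mul]; norm_num
    rw [h4]
    have := pow_le_pow_left₀ (by norm_num) h3 3
    norm_num at this ⊢
    linarith
  have g3 : Real.exp (-4) ≤ 1 / 8 := (Real.exp_le_exp.2 (by norm_num)).trans g2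
  linarith

end Pool.Agent.Lib_helper26.TS
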