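import Pool.Agent.Lib_helper26.TS.LowerPP

/-!
# The parity checks and nondeterministic machines
-/

set_option autoImplicit false
set_option linter.unusedSectionVars false

namespace Pool.Agent.Lib_helper26.TS

open Finset

variable {q : ℕ} [Fact q.Prime] {V I : Type} [Fintype V] [Fintype I] [DecidableEq I]
  {n r k w : ℕ} [NeZero w]

/-- the kernel of the parity checks is large -/
theorem card_ker (n t : ℕ) : q ^ n ≤ q ^ t *
    (fil fun x : Fin n → ZMod q => ∀ i : Fin t, par n t x i = 0).card := by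
  classical
  set K := fil fun x : Fin n → ZMod q => ∀ i : Fin t, par n t x i = 0 with hK
  have h1 : ∀ v ∈ (univ : Finset (Fin t → ZMod q)),
      ((univ : Finset (Fin n → ZMod q)).filter fun x => par n t x = v).card ≤ K.card := by
    intro v _
    rcases ((univ : Finset (Fin n → ZMod q)).filter fun x => par n t x = v).eq_empty_or_nonempty
      with h | ⟨x0, hx0⟩
    · rw [h, card_empty]
      exact Nat.zero_le _
    · refine card_le_card_of_injOn (fun x => fun j => x j - x0 j) (fun x hx => ?_)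
        (fun x _ x' _ h => ?_)
      · rw [mem_coe, mem_filter] at hx
        rw [mem_filter] at hx0
        rw [mem_coe, hK, mem_fil]
        intro i
        rw [par_sub, hx.2, hx0.2, sub_self]
      · funext j
        have := congrFun h j
        simpa using this
  have h2 := Finset.card_le_mul_card_image_of_maps_to
    (s := (univ : Finset (Fin n → ZMod q))) (t := (univ : Finset (Fin t → ZMod q)))
    (f := fun x => par n t x) (fun x _ => mem_univ _) K.card h1
  rw [card_univ, card_univ, Fintype.card_fun, Fintype.card_fun, ZMod.card, Fintype.card_fin,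
    Fintype.card_fin] at h2
  rw [mul_comm]
  exact h2

theorem n_bound {T L t N : ℕ} {m σ : ℝ} (hL : 0 < L) (hT : T ≤ r * L) (hw : 4 ≤ w)
    (hk : 2 * k ≤ w) (hT' : 2 * T ≤ N * (k + 1)) (hm : m = N / (4 * (w : ℝ) ^ k))
    (ht : (t : ℝ) ≤ m) (hσ : 0 < σ) (hσ' : r * (L : ℝ) ^ 2 + (Fintype.card I : ℝ) * k ≤ σ)
    (hE : 8 * Real.exp (-(m ^ 2 / (2 * σ))) ≤ 1) (hn : n ≤ q)
    (emb : Fin n ↪ I) (HX HY : Finset (Fin n)) (hH : Disjoint HX HY) (hX : HX.card = N)
    (hY : HY.card = N) (put : (Fin n → ZMod q) → I → ZMod q)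
    (hput1 : ∀ x j, put x (emb j) = x j)
    (hput2 : ∀ x x' e, (∀ j, emb j ≠ e) → put x e = put x' e)
    {Y : ℕ} (P : Fin Y → NMach I (ZMod q) V) (NS : ℝ)
    (hSX : ((subs (HX.map emb) t).card : ℝ) ≤ NS) (hSY : ((subs (HY.map emb) t).card : ℝ) ≤ NS)
    (h : ∀ x, (∃ y, (P y).Accepts T (put x)) ↔ ∀ i, par n t x i = 0) :
    (q : ℝ) ^ t ≤ 2 * (Y * ((Fintype.card V : ℝ) ^ (r + 1) * NS ^ 2)) := by
  classical
  have hq0 : (0:ℝ) < q := by exact_mod_cast (Fact.out : q.Prime).pos
  -- two colours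
  set a : Fin w := ⟨0, by omega⟩ with ha
  set b : Fin w := ⟨1, by omega⟩ with hb
  have hab : a ≠ b := by
    rw [ha, hb]
    intro h
    have := congrArg Fin.val h
    simp at this
  set C := fil fun x : Fin n → ZMod q => ∀ i : Fin t, par n t x i = 0 with hC
  have hY0 : 0 < Y := by
    obtain ⟨y, -⟩ := (h fun _ => 0).2 (fun i => by
      unfold par
      exact Finset.sum_eq_zero fun j _ => by rw [mul_zero])
    exact y.pos
  have hrun : ∀ x : Fin n → ZMod q, ∃ p : Fin Y × (ℕ → V), x ∈ C →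
      (P p.1).Run T (put x) p.2 ∧ (P p.1).acc (p.2 T) := by
    intro x
    by_cases hx : x ∈ C
    · obtain ⟨y, ρ, h1, h2⟩ := (h x).2 (mem_fil.1 hx)
      exact ⟨(y, ρ), fun _ => ⟨h1, h2⟩⟩
    · exact ⟨(⟨0, hY0⟩, fun _ => (P ⟨0, hY0⟩).start), fun h' => absurd h' hx⟩
  choose yr hyr using hrun
  set JX := HX.map emb with hJX
  set JY := HY.map emb with hJY
  obtain ⟨ω, hω⟩ := exists_om (r := r) (k := k) a b hab hw hk
    (fun x : Fin n → ZMod q => P (yr x).1) T L hL (fun x => (yr x).2) JX JY N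
    (by rw [hJX, card_map, hX]) (by rw [hJY, card_map, hY]) hT' σ hσ hσ' C
  rw [← hm] at hω
  set bad : (Fin n → ZMod q) → Prop := fun x =>
    Bad a b (P (yr x).1) T L (yr x).2 ω JX JY m with hbad
  set G := C.filter (fun x => ¬ bad x) with hG
  have hGC : (C.card : ℝ) ≤ 2 * G.card := by
    have h1 : ((C.filter bad).card : ℝ) ≤ C.card * (4 * Real.exp (-(m ^ 2 / (2 * σ)))) :=
      hω _ (filter_subset _ _) fun x hx => (mem_filter.1 hx).2
    have h2 : ((C.filter bad).card : ℝ) + (G.card : ℝ) = C.card := by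
      rw [hG]
      exact_mod_cast card_filter_add_card_filter_not (s := C) bad
    have h3 : (0:ℝ) ≤ C.card := Nat.cast_nonneg _
    nlinarith
  -- the sets
  have hsets : ∀ x : Fin n → ZMod q, ∃ p : Finset I × Finset I, x ∈ G →
      (p.1 ⊆ FS a b (P (yr x).1) T L (yr x).2 ω JX ∧ p.1.card = t) ∧
      (p.2 ⊆ FS b a (P (yr x).1) T L (yr x).2 ω JY ∧ p.2.card = t) := by
    intro x
    by_cases hx : x ∈ G
    · have hb' := (mem_filter.1 hx).2
      rw [hbad] at hb'
      simp only [Bad] at hb'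
      push Not at hb'
      obtain ⟨⟨h1, h2⟩, -, -⟩ := hb'
      have e1 : t ≤ (FS a b (P (yr x).1) T L (yr x).2 ω JX).card := by
        have := ht.trans h1.le
        exact_mod_cast this
      have e2 : t ≤ (FS b a (P (yr x).1) T L (yr x).2 ω JY).card := by
        have := ht.trans h2.le
        exact_mod_cast this
      obtain ⟨A, hA1, hA2⟩ := exists_subset_card_eq e1
      obtain ⟨B, hB1, hB2⟩ := exists_subset_card_eq e2
      exact ⟨(A, B), fun _ => ⟨⟨hA1, hA2⟩, ⟨hB1, hB2⟩⟩⟩
    · exact ⟨(∅, ∅), fun h' => absurd h' hx⟩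
  choose AB hAB using hsets
  set sg : (Fin n → ZMod q) → Fin (r + 1) → V := fun x j => (yr x).2 (j.val * L) with hsg
  set key : (Fin n → ZMod q) → Fin Y × (Fin (r + 1) → V) × Finset I × Finset I := fun x =>
    ((yr x).1, sg x, (AB x).1, (AB x).2) with hkey
  set Keys : Finset (Fin Y × (Fin (r + 1) → V) × Finset I × Finset I) :=
    univ ×ˢ univ ×ˢ subs JX t ×ˢ subs JY t with hKeys
  have hFJ : ∀ (a b : Fin w) (M : NMach I (ZMod q) V) (ρ : ℕ → V) (J : Finset I),
      FS a b M T L ρ ω J ⊆ J := by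
    intro a b M ρ J e he
    exact (mem_FS.1 he).1
  have hmaps : ∀ x ∈ G, key x ∈ Keys := by
    intro x hx
    obtain ⟨⟨h1, h2⟩, ⟨h3, h4⟩⟩ := hAB x hx
    rw [hKeys, hkey]
    simp only [mem_product, mem_univ, true_and, mem_subs]
    exact ⟨⟨h1.trans (hFJ _ _ _ _ _), by rw [h2]⟩, ⟨h3.trans (hFJ _ _ _ _ _), by rw [h4]⟩⟩
  have hcls : ∀ κ ∈ Keys, (G.filter (fun x => key x = κ)).card ≤ q ^ (n - 2 * t) := by
    rintro κ -
    rcases (G.filter (fun x => key x = κ)).eq_empty_or_nonempty with hemp | ⟨x0, hx0⟩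
    · rw [hemp, card_empty]
      exact Nat.zero_le _
    have hx0G := (mem_filter.1 hx0).1
    have hkx0 := (mem_filter.1 hx0).2
    obtain ⟨⟨hA1, hA2⟩, ⟨hB1, hB2⟩⟩ := hAB x0 hx0G
    set A := (AB x0).1 with hA
    set B := (AB x0).2 with hB
    have hAJ : A ⊆ JX := hA1.trans (hFJ _ _ _ _ _)
    have hBJ : B ⊆ JY := hB1.trans (hFJ _ _ _ _ _)
    set A' := (univ : Finset (Fin n)).filter (fun j => emb j ∈ A) with hA'
    set B' := (univ : Finset (Fin n)).filter (fun j => emb j ∈ B) with hB'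
    have cA : A'.card = t := by
      rw [← hA2]
      refine card_bij (fun j _ => emb j) (fun j hj => (mem_filter.1 hj).2)
        (fun j _ j' _ hh => emb.injective hh) fun e he => ?_
      obtain ⟨j, -, hj⟩ := mem_map.1 (hAJ he)
      exact ⟨j, mem_filter.2 ⟨mem_univ _, by rw [hj]; exact he⟩, hj⟩
    have cB : B'.card = t := by
      rw [← hB2]
      refine card_bij (fun j _ => emb j) (fun j hj => (mem_filter.1 hj).2)
        (fun j _ j' _ hh => emb.injective hh) fun e he => ?_
      obtain ⟨j, -, hj⟩ := mem_map.1 (hBJ he)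
      exact ⟨j, mem_filter.2 ⟨mem_univ _, by rw [hj]; exact he⟩, hj⟩
    have dAB : Disjoint A' B' := by
      rw [disjoint_left]
      intro j hj hj'
      obtain ⟨j1, h1, h1'⟩ := mem_map.1 (hAJ (mem_filter.1 hj).2)
      obtain ⟨j2, h2, h2'⟩ := mem_map.1 (hBJ (mem_filter.1 hj').2)
      have e1 := emb.injective h1'
      have e2 := emb.injective h2'
      subst e1
      subst e2
      exact disjoint_left.1 hH h1 h2
    have hcard : Fintype.card ({j // j ∉ A' ∪ B'} → ZMod q) = q ^ (n - 2 * t) := by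
      rw [Fintype.card_fun, ZMod.card]
      congr 1
      rw [Fintype.card_subtype_compl, Fintype.card_fin, Fintype.card_coe,
        card_union_of_disjoint dAB, cA, cB, two_mul]
    rw [← hcard, ← card_univ]
    refine card_le_card_of_injOn (fun x => fun j => x j.1) (fun _ _ => mem_univ _) ?_
    intro x hx x' hx' hxx0
    rw [mem_coe, mem_filter] at hx hx'
    have hxx : ∀ j, j ∉ A' → j ∉ B' → x j = x' j := by
      intro j h1 h2
      exact congrFun hxx0 ⟨j, by rw [mem_union]; tauto⟩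
    have hkk : key x = key x' := hx.2.trans hx'.2.symm
    have hk1 : key x = key x0 := hx.2.trans hkx0.symm
    have hk2 : key x' = key x0 := hx'.2.trans hkx0.symm
    rw [hkey] at hkk hk1 hk2
    simp only [Prod.mk.injEq] at hkk hk1 hk2
    obtain ⟨g1, g2, -, -⟩ := hkk
    obtain ⟨-, -, -, g4⟩ := hk1
    obtain ⟨-, -, g3, -⟩ := hk2
    have hxC := mem_filter.1 hx.1
    have hxC' := mem_filter.1 hx'.1
    obtain ⟨r1, a1⟩ := hyr x hxC.1
    obtain ⟨r2, a2⟩ := hyr x' hxC'.1
    rw [← g1] at r2 a2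
    obtain ⟨⟨hA1', -⟩, ⟨-, -⟩⟩ := hAB x' hx'.1
    obtain ⟨⟨-, -⟩, ⟨hB1', -⟩⟩ := hAB x hx.1
    rw [g3, ← hA, ← g1] at hA1'
    rw [g4, ← hB] at hB1'
    have hsame : SameB T L (yr x).2 (yr x').2 := by
      intro j hj
      have hjr : j < r + 1 := by
        have : j * L ≤ r * L := hj.trans hT
        have := Nat.le_of_mul_le_mul_right this hL
        omega
      exact congrFun g2 ⟨j, hjr⟩
    have hput : ∀ e, e ∉ A → e ∉ B → put x e = put x' e := by
      intro e h1 h2
      by_cases he : ∃ j, emb j = e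
      · obtain ⟨j, rfl⟩ := he
        rw [hput1, hput1]
        exact hxx j (fun hj => h1 (mem_filter.1 hj).2) fun hj => h2 (mem_filter.1 hj).2
      · push Not at he
        exact hput2 x x' e he
    have hmix := mix_run (P (yr x).1) T L hL hT a b hab ω JX JY (put x) (put x') (yr x).2
      (yr x').2 r1 r2 hsame A B hA1' hB1' hput
    set v : Fin n → ZMod q := fun j => if emb j ∈ B then x' j else x j with hv
    have hvput : mixIn B (put x) (put x') = put v := by
      funext e
      unfold mixIn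
      by_cases he : ∃ j, emb j = e
      · obtain ⟨j, rfl⟩ := he
        rw [hput1, hput1, hput1]
      · push Not at he
        split_ifs
        · exact hput2 _ _ e he
        · exact hput2 _ _ e he
    rw [hvput] at hmix
    have hacc : (P (yr x).1).acc (mixRun L (isC b ω) (yr x).2 (yr x').2 T) := by
      unfold mixRun
      split_ifs
      · exact a2
      · exact a1
    have hpv := (h v).1 ⟨(yr x).1, _, hmix, hacc⟩
    have hpx := mem_fil.1 hxC.1
    have hpx' := mem_fil.1 hxC'.1
    have e1 : x = v := by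
      refine par_inj (t := t) hn B' cB.le x v (fun j hj => ?_) fun i => by rw [hpx i, hpv i]
      rw [hv]
      simp only
      rw [if_neg]
      intro hj'
      exact hj (mem_filter.2 ⟨mem_univ _, hj'⟩)
    refine par_inj (t := t) hn A' cA.le x x' (fun j hj => ?_) fun i => by rw [hpx i, hpx' i]
    by_cases hjB : j ∈ B'
    · have := congrFun e1 j
      rw [hv] at this
      simp only at this
      rwa [if_pos (mem_filter.1 hjB).2] at this
    · exact hxx j hj hjB
  have hNS : 0 ≤ NS := le_trans (Nat.cast_nonneg _) hSX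
  have hGcard : (G.card : ℝ) ≤ (Y * ((Fintype.card V : ℝ) ^ (r + 1) * NS ^ 2)) *
      (q : ℝ) ^ (n - 2 * t) := by
    have h1 := Finset.card_le_mul_card_image_of_maps_to (f := key) hmaps (q ^ (n - 2 * t)) hcls
    have h2 : (G.card : ℝ) ≤ (q : ℝ) ^ (n - 2 * t) * (Keys.card : ℝ) := by exact_mod_cast h1
    refine h2.trans ?_
    rw [mul_comm]
    refine mul_le_mul_of_nonneg_right ?_ (by positivity)
    rw [hKeys, card_product, card_product, card_product, card_univ, card_univ,
      Fintype.card_fun, Fintype.card_fin, Fintype.card_fin]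
    push_cast
    refine mul_le_mul_of_nonneg_left ?_ (Nat.cast_nonneg _)
    refine mul_le_mul_of_nonneg_left ?_ (by positivity)
    rw [pow_two]
    exact mul_le_mul hSX hSY (Nat.cast_nonneg _) hNS
  have hker := card_ker (q := q) n t
  have hker' : (q : ℝ) ^ n ≤ (q : ℝ) ^ t * (C.card : ℝ) := by exact_mod_cast hker
  have htn : 2 * t ≤ n := by
    have e1 : (t : ℝ) ≤ N := by
      refine ht.trans ?_
      rw [hm]
      refine div_le_self (Nat.cast_nonneg _) ?_
      have hw0 : (1:ℝ) ≤ w := by exact_mod_cast (by omega : 1 ≤ w)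
      have : (1:ℝ) ≤ (w : ℝ) ^ k := one_le_pow₀ hw0
      linarith
    have e2 : t ≤ N := by exact_mod_cast e1
    have e3 : (HX ∪ HY).card ≤ n := by
      refine (card_le_univ _).trans ?_
      rw [Fintype.card_fin]
    rw [card_union_of_disjoint hH, hX, hY] at e3
    omega
  set S := Y * ((Fintype.card V : ℝ) ^ (r + 1) * NS ^ 2) with hS
  have hfin : (q : ℝ) ^ n ≤ (q : ℝ) ^ t * (2 * (S * (q : ℝ) ^ (n - 2 * t))) := by
    refine hker'.trans (mul_le_mul_of_nonneg_left ?_ (by positivity))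
    linarith
  have hpow : (q : ℝ) ^ n = (q : ℝ) ^ t * (q : ℝ) ^ t * (q : ℝ) ^ (n - 2 * t) := by
    rw [← pow_add, ← pow_add]
    congr 1
    omega
  rw [hpow] at hfin
  have hpos : (0:ℝ) < (q : ℝ) ^ t * (q : ℝ) ^ (n - 2 * t) := by positivity
  have hfin' : (q : ℝ) ^ t * ((q : ℝ) ^ t * (q : ℝ) ^ (n - 2 * t)) ≤
      (2 * S) * ((q : ℝ) ^ t * (q : ℝ) ^ (n - 2 * t)) := by
    calc _ = (q : ℝ) ^ t * (q : ℝ) ^ t * (q : ℝ) ^ (n - 2 * t) := by ring
      _ ≤ _ := hfin
      _ = _ := by ring
  exact le_of_mul_le_mul_right hfin' hpos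

end Pool.Agent.Lib_helper26.TS
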