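import Pool.Agent.Lib_helper26.TS.Det
import Pool.Agent.Lib_helper26.TS.Code

/-!
# The inner product of the parity checks and majorities of deterministic machines
-/

set_option autoImplicit false
set_option linter.unusedSectionVars false

namespace Pool.Agent.Lib_helper26.TS

open Finset

/-- the cells of the first word -/
def cellX (n : ℕ) : Finset (Cell n) := univ.map ⟨Sum.inl, Sum.inl_injective⟩

/-- the cells of the second word -/
def cellY (n : ℕ) : Finset (Cell n) := univ.map ⟨Sum.inr, Sum.inr_injective⟩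

theorem mem_cellX {n : ℕ} {e : Cell n} : e ∈ cellX n ↔ ∃ j, e = Sum.inl j := by
  unfold cellX
  rw [mem_map]
  constructor
  · rintro ⟨j, -, h⟩
    exact ⟨j, h.symm⟩
  · rintro ⟨j, h⟩
    exact ⟨j, mem_univ _, h.symm⟩

theorem mem_cellY {n : ℕ} {e : Cell n} : e ∈ cellY n ↔ ∃ j, e = Sum.inr j := by
  unfold cellY
  rw [mem_map]
  constructor
  · rintro ⟨j, -, h⟩
    exact ⟨j, h.symm⟩
  · rintro ⟨j, h⟩
    exact ⟨j, mem_univ _, h.symm⟩

theorem card_cellX (n : ℕ) : (cellX n).card = n := by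
  unfold cellX
  rw [card_map, card_univ, Fintype.card_fin]

theorem card_cellY (n : ℕ) : (cellY n).card = n := by
  unfold cellY
  rw [card_map, card_univ, Fintype.card_fin]

/-- the two words of an input -/
def pr {n : ℕ} {A : Type} : (Cell n → A) ≃ (Fin n → A) × (Fin n → A) :=
  Equiv.sumArrowEquivProdArrow _ _ _

theorem pr_fst {n : ℕ} {A : Type} (z : Cell n → A) (j : Fin n) : (pr z).1 j = z (Sum.inl j) := rfl

theorem pr_snd {n : ℕ} {A : Type} (z : Cell n → A) (j : Fin n) : (pr z).2 j = z (Sum.inr j) := rfl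

theorem seg_congr {I A V : Type} {M : NMach I A V} {T L r : ℕ} {ρ ρ' : ℕ → V}
    (h : ∀ t < T, ρ t = ρ' t) : (seg M T L r ρ : I → Finset (Fin r)) = seg M T L r ρ' := by
  funext e
  ext j
  rw [mem_seg, mem_seg]
  constructor
  · rintro ⟨t, ht, htj, hq⟩
    exact ⟨t, ht, htj, by rw [← h t ht]; exact hq⟩
  · rintro ⟨t, ht, htj, hq⟩
    exact ⟨t, ht, htj, by rw [h t ht]; exact hq⟩

/-- small subsets of `J` -/
noncomputable def subs {I : Type} [Fintype I] (J : Finset I) (m : ℝ) : Finset (Finset I) :=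
  fil fun P : Finset I => P ⊆ J ∧ (P.card : ℝ) ≤ m

theorem mem_subs {I : Type} [Fintype I] {J : Finset I} {m : ℝ} {P : Finset I} :
    P ∈ subs J m ↔ P ⊆ J ∧ (P.card : ℝ) ≤ m := mem_fil

variable {q : ℕ} [Fact q.Prime] {V : Type} [Fintype V] {n r k w : ℕ} [NeZero w]

theorem abs_dl_le (c : ZMod q) : |dl c| ≤ 1 := by
  unfold dl
  by_cases h0 : c = 0
  · rw [if_pos h0, if_neg (by rw [h0]; exact zero_ne_one)]
    norm_num
  · rw [if_neg h0]
    split_ifs <;> norm_num

/-- the parameters of the argument -/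
structure Par (n T r L k w τ : ℕ) (m σ : ℝ) : Prop where
  hL : 0 < L
  hT : T ≤ r * L
  hw : 4 ≤ w
  hk : 2 * k ≤ w
  hT' : 2 * T ≤ n * (k + 1)
  hm : m = n / (4 * (w : ℝ) ^ k)
  hτ : ((2 * τ : ℕ) : ℝ) ≤ m
  hσ : 0 < σ
  hσ' : r * (L : ℝ) ^ 2 + ((2 * n : ℕ) : ℝ) * k ≤ σ

theorem det_bound {T L τ : ℕ} {m σ : ℝ} (hp : Par n T r L k w τ m σ) (hn : n ≤ q)
    {M : NMach (Cell n) (ZMod q) V} (hM : M.Det) (NS : ℝ)
    (hX : ((subs (cellX n) (16 * m)).card : ℝ) ≤ NS)
    (hY : ((subs (cellY n) (16 * m)).card : ℝ) ≤ NS) :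
    |∑ z ∈ fil (fun z => M.Accepts T z), dl (dotp n (2 * τ) (pr z))| ≤
      (Fintype.card V : ℝ) ^ (r + 1) * NS ^ 4 * (2 * (q : ℝ) ^ (2 * n - τ)) +
        (q : ℝ) ^ (2 * n) * (4 * Real.exp (-(m ^ 2 / (2 * σ)))) := by
  classical
  obtain ⟨hL, hT, hw, hk, hT', hm, hτ, hσ, hσ'⟩ := hp
  -- two colours
  set a : Fin w := ⟨0, by omega⟩ with ha
  set b : Fin w := ⟨1, by omega⟩ with hb
  have hab : a ≠ b := by
    rw [ha, hb]
    intro h
    have := congrArg Fin.val h
    simp at this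
  -- the runs
  have hrun : ∀ z : Cell n → ZMod q, ∃ ρ : ℕ → V, M.Accepts T z → M.Run T z ρ ∧ M.acc (ρ T) := by
    intro z
    by_cases h : M.Accepts T z
    · obtain ⟨ρ, h1, h2⟩ := h
      exact ⟨ρ, fun _ => ⟨h1, h2⟩⟩
    · exact ⟨fun _ => M.start, fun h' => absurd h' h⟩
  choose ρ hρ using hrun
  set Acc := fil (fun z : Cell n → ZMod q => M.Accepts T z) with hAcc
  obtain ⟨ω, hω⟩ := exists_om (r := r) (k := k) a b hab hw hk (fun _ : Cell n → ZMod q => M) T L hL
    ρ (cellX n) (cellY n) n (card_cellX n) (card_cellY n) hT' σ hσ (by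
      rw [Fintype.card_sum, Fintype.card_fin, ← two_mul]
      exact hσ') Acc
  rw [← hm] at hω
  set bad : (Cell n → ZMod q) → Prop := fun z => Bad a b M T L (ρ z) ω (cellX n) (cellY n) m
    with hbad
  -- the split
  have hsplit : ∑ z ∈ Acc, dl (dotp n (2 * τ) (pr z)) =
      ∑ z ∈ Acc.filter bad, dl (dotp n (2 * τ) (pr z)) +
        ∑ z ∈ Acc.filter (fun z => ¬ bad z), dl (dotp n (2 * τ) (pr z)) :=
    (Finset.sum_filter_add_sum_filter_not Acc bad _).symm
  have hone : |∑ z ∈ Acc.filter bad, dl (dotp n (2 * τ) (pr z))| ≤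
      (q : ℝ) ^ (2 * n) * (4 * Real.exp (-(m ^ 2 / (2 * σ)))) := by
    have h1 : |∑ z ∈ Acc.filter bad, dl (dotp n (2 * τ) (pr z))| ≤ ((Acc.filter bad).card : ℝ) := by
      refine (Finset.abs_sum_le_sum_abs _ _).trans ?_
      refine (Finset.sum_le_sum fun z _ => abs_dl_le _).trans ?_
      rw [Finset.sum_const, nsmul_eq_mul, mul_one]
    refine h1.trans ((hω _ (filter_subset _ _) fun x hx => (mem_filter.1 hx).2).trans ?_)
    refine mul_le_mul_of_nonneg_right ?_ (by positivity)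
    have h2 := card_le_univ Acc
    rw [Fintype.card_fun, ZMod.card, Fintype.card_sum, Fintype.card_fin, ← two_mul] at h2
    exact_mod_cast h2
  -- the keys
  set sg : (Cell n → ZMod q) → Fin (r + 1) → V := fun z j =>
    if j.val * L ≤ T then ρ z (j.val * L) else M.start with hsg
  set key : (Cell n → ZMod q) → (Fin (r + 1) → V) × Finset (Cell n) × Finset (Cell n) ×
      Finset (Cell n) × Finset (Cell n) := fun z =>
    (sg z, PS a b M T L (ρ z) ω (cellX n), FS a b M T L (ρ z) ω (cellX n),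
      PS b a M T L (ρ z) ω (cellY n), FS b a M T L (ρ z) ω (cellY n)) with hkey
  set Keys : Finset ((Fin (r + 1) → V) × Finset (Cell n) × Finset (Cell n) ×
      Finset (Cell n) × Finset (Cell n)) :=
    univ ×ˢ subs (cellX n) (16 * m) ×ˢ subs (cellX n) (16 * m) ×ˢ subs (cellY n) (16 * m) ×ˢ
      subs (cellY n) (16 * m) with hKeys
  have hFP : ∀ (a b : Fin w) (ρ : ℕ → V) (J : Finset (Cell n)),
      FS a b M T L ρ ω J ⊆ PS a b M T L ρ ω J := by
    intro a b ρ J e he
    rw [mem_FS] at he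
    rw [mem_PS]
    exact ⟨he.1, he.2.1⟩
  have hPJ : ∀ (a b : Fin w) (ρ : ℕ → V) (J : Finset (Cell n)), PS a b M T L ρ ω J ⊆ J := by
    intro a b ρ J e he
    exact (mem_PS.1 he).1
  have hmaps : ∀ z ∈ Acc.filter (fun z => ¬ bad z), key z ∈ Keys := by
    intro z hz
    have hz' := (mem_filter.1 hz).2
    rw [hbad] at hz'
    simp only [Bad] at hz'
    push Not at hz'
    obtain ⟨⟨-, -⟩, h3, h4⟩ := hz'
    rw [hKeys, hkey]
    simp only [mem_product, mem_univ, true_and, mem_subs]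
    have c1 : (((FS a b M T L (ρ z) ω (cellX n)).card : ℕ) : ℝ) ≤
        ((PS a b M T L (ρ z) ω (cellX n)).card : ℝ) := by
      exact_mod_cast card_le_card (hFP _ _ _ _)
    have c2 : (((FS b a M T L (ρ z) ω (cellY n)).card : ℕ) : ℝ) ≤
        ((PS b a M T L (ρ z) ω (cellY n)).card : ℝ) := by
      exact_mod_cast card_le_card (hFP _ _ _ _)
    exact ⟨⟨hPJ _ _ _ _, h3.le⟩, ⟨(hFP _ _ _ _).trans (hPJ _ _ _ _), c1.trans h3.le⟩,
      ⟨hPJ _ _ _ _, h4.le⟩, ⟨(hFP _ _ _ _).trans (hPJ _ _ _ _), c2.trans h4.le⟩⟩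
  have hcls : ∀ κ ∈ Keys, |∑ z ∈ (Acc.filter (fun z => ¬ bad z)).filter (fun z => key z = κ),
      dl (dotp n (2 * τ) (pr z))| ≤ 2 * (q : ℝ) ^ (2 * n - τ) := by
    intro κ _
    set G := (Acc.filter (fun z => ¬ bad z)).filter (fun z => key z = κ) with hG
    rcases G.eq_empty_or_nonempty with hemp | ⟨z0, hz0⟩
    · rw [hemp, Finset.sum_empty, abs_zero]
      positivity
    -- the sets
    have hz0' : ¬ bad z0 := (mem_filter.1 (mem_filter.1 hz0).1).2
    have hk0 : key z0 = κ := (mem_filter.1 hz0).2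
    rw [hbad] at hz0'
    simp only [Bad] at hz0'
    push Not at hz0'
    obtain ⟨⟨hf1, hf2⟩, -, -⟩ := hz0'
    set FX := FS a b M T L (ρ z0) ω (cellX n) with hFX
    set FY := FS b a M T L (ρ z0) ω (cellY n) with hFY
    have hFXJ : FX ⊆ cellX n := (hFP _ _ _ _).trans (hPJ _ _ _ _)
    have hFYJ : FY ⊆ cellY n := (hFP _ _ _ _).trans (hPJ _ _ _ _)
    have hcX : ((univ : Finset (Fin n)).filter fun j => Sum.inl j ∈ FX).card = FX.card := by
      refine card_bij (fun j _ => Sum.inl j) (fun j hj => (mem_filter.1 hj).2)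
        (fun j _ j' _ h => Sum.inl_injective h) fun e he => ?_
      obtain ⟨j, rfl⟩ := mem_cellX.1 (hFXJ he)
      exact ⟨j, mem_filter.2 ⟨mem_univ _, he⟩, rfl⟩
    have hcY : ((univ : Finset (Fin n)).filter fun j => Sum.inr j ∈ FY).card = FY.card := by
      refine card_bij (fun j _ => Sum.inr j) (fun j hj => (mem_filter.1 hj).2)
        (fun j _ j' _ h => Sum.inr_injective h) fun e he => ?_
      obtain ⟨j, rfl⟩ := mem_cellY.1 (hFYJ he)
      exact ⟨j, mem_filter.2 ⟨mem_univ _, he⟩, rfl⟩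
    have hbX : 2 * τ ≤ ((univ : Finset (Fin n)).filter fun j => Sum.inl j ∈ FX).card := by
      rw [hcX]
      have : ((2 * τ : ℕ) : ℝ) < (FX.card : ℝ) := hτ.trans_lt hf1
      exact (Nat.cast_lt.1 this).le
    have hbY : 2 * τ ≤ ((univ : Finset (Fin n)).filter fun j => Sum.inr j ∈ FY).card := by
      rw [hcY]
      have : ((2 * τ : ℕ) : ℝ) < (FY.card : ℝ) := hτ.trans_lt hf2
      exact (Nat.cast_lt.1 this).le
    obtain ⟨A, hA1, hA2⟩ := exists_subset_card_eq hbX
    obtain ⟨B, hB1, hB2⟩ := exists_subset_card_eq hbY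
    have hsum : ∑ z ∈ G, dl (dotp n (2 * τ) (pr z)) =
        ∑ p ∈ G.map (pr (n := n) (A := ZMod q)).toEmbedding, dl (dotp n (2 * τ) p) := by
      rw [Finset.sum_map]
      rfl
    rw [hsum]
    refine delta_bound hn A B hA2 hB2 _ ?_
    -- closedness
    intro p hp p' hp' h1 h2
    obtain ⟨z, hz, rfl⟩ := mem_map.1 hp
    obtain ⟨z', hz', rfl⟩ := mem_map.1 hp'
    have hkz : key z = κ := (mem_filter.1 hz).2
    have hkz' : key z' = κ := (mem_filter.1 hz').2
    have hzA : M.Accepts T z := mem_fil.1 (mem_filter.1 (mem_filter.1 hz).1).1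
    have hzA' : M.Accepts T z' := mem_fil.1 (mem_filter.1 (mem_filter.1 hz').1).1
    have hzb : ¬ bad z := (mem_filter.1 (mem_filter.1 hz).1).2
    obtain ⟨r1, a1⟩ := hρ z hzA
    obtain ⟨r2, a2⟩ := hρ z' hzA'
    have hkk : key z = key z' := hkz.trans hkz'.symm
    have hk1 : key z = key z0 := hkz.trans hk0.symm
    rw [hkey] at hkk hk1
    simp only [Prod.mk.injEq] at hkk hk1
    obtain ⟨g1, g2, g3, g4, g5⟩ := hkk
    obtain ⟨-, -, g3', -, g5'⟩ := hk1
    have hsame : SameB T L (ρ z) (ρ z') := by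
      intro j hj
      have hjr : j < r + 1 := by
        have : j * L ≤ r * L := hj.trans hT
        have := Nat.le_of_mul_le_mul_right this hL
        omega
      have := congrFun g1 ⟨j, hjr⟩
      rw [hsg] at this
      simp only at this
      rwa [if_pos hj, if_pos hj] at this
    have hxx : ∀ e, e ∉ FS a b M T L (ρ z) ω (cellX n) → e ∉ FS b a M T L (ρ z) ω (cellY n) →
        z e = z' e := by
      intro e he1 he2
      rw [g3', ← hFX] at he1
      rw [g5', ← hFY] at he2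
      rcases e with j | j
      · exact h1 j fun hj => he1 (mem_filter.1 (hA1 hj)).2
      · exact h2 j fun hj => he2 (mem_filter.1 (hB1 hj)).2
    obtain ⟨k1, k2, k3, k4, k5, k6⟩ := key_closed hM hL hT hab ω (cellX n) (cellY n) z z' (ρ z)
      (ρ z') r1 r2 hsame g2 g3 g4 hxx
    set u := mixIn (FS b a M T L (ρ z) ω (cellY n)) z z' with hu
    set τ' := mixRun L (isC b ω) (ρ z) (ρ z') with hτ'
    have hacc : M.acc (τ' T) := by
      rw [hτ']
      unfold mixRun
      split_ifs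
      · exact a2
      · exact a1
    have huA : M.Accepts T u := ⟨τ', k1, hacc⟩
    obtain ⟨r3, a3⟩ := hρ u huA
    have huniq := run_unique hM r3 k1
    have hseg : (seg M T L r (ρ u) : Cell n → Finset (Fin r)) = seg M T L r τ' :=
      seg_congr fun t ht => huniq t ht.le
    have hFS : ∀ (a b : Fin w) (J : Finset (Cell n)), FS a b M T L (ρ u) ω J =
        FS a b M T L τ' ω J := by
      intro a b J
      unfold FS
      rw [hseg]
    have hPS : ∀ (a b : Fin w) (J : Finset (Cell n)), PS a b M T L (ρ u) ω J =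
        PS a b M T L τ' ω J := by
      intro a b J
      unfold PS
      rw [hseg]
    have hsgu : sg u = sg z := by
      funext j
      rw [hsg]
      simp only
      by_cases hj : j.val * L ≤ T
      · rw [if_pos hj, if_pos hj, huniq _ hj, k2 j.val hj]
      · rw [if_neg hj, if_neg hj]
    have hkeyu : key u = key z := by
      rw [hkey]
      simp only
      rw [hsgu, hPS, hPS, hFS, hFS, k3, k4, k5, k6]
    have hbadu : ¬ bad u := by
      rw [hbad] at hzb ⊢
      simp only [Bad] at hzb ⊢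
      rw [hFS, hFS, hPS, hPS, k3, k4, k5, k6]
      exact hzb
    rw [mem_map]
    refine ⟨u, ?_, ?_⟩
    · rw [hG, mem_filter, mem_filter]
      exact ⟨⟨mem_fil.2 huA, hbadu⟩, hkeyu.trans hkz⟩
    · refine Prod.ext ?_ ?_
      · funext j
        show u (Sum.inl j) = z (Sum.inl j)
        rw [hu]
        unfold mixIn
        rw [if_neg]
        intro hj
        obtain ⟨j', hj'⟩ := mem_cellY.1 ((hFP _ _ _ _).trans (hPJ _ _ _ _) hj)
        exact Sum.inl_ne_inr hj'
      · funext j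
        show u (Sum.inr j) = z' (Sum.inr j)
        rw [hu]
        unfold mixIn
        split_ifs with hj
        · rfl
        · refine hxx _ (fun hj' => ?_) hj
          obtain ⟨j', hj''⟩ := mem_cellX.1 ((hFP _ _ _ _).trans (hPJ _ _ _ _) hj')
          exact Sum.inr_ne_inl hj''
  have hNS : 0 ≤ NS := le_trans (Nat.cast_nonneg _) hX
  have htwo : |∑ z ∈ Acc.filter (fun z => ¬ bad z), dl (dotp n (2 * τ) (pr z))| ≤
      (Fintype.card V : ℝ) ^ (r + 1) * NS ^ 4 * (2 * (q : ℝ) ^ (2 * n - τ)) := by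
    rw [← Finset.sum_fiberwise_of_maps_to hmaps]
    refine (Finset.abs_sum_le_sum_abs _ _).trans ((Finset.sum_le_sum hcls).trans ?_)
    rw [Finset.sum_const, nsmul_eq_mul]
    refine mul_le_mul_of_nonneg_right ?_ (by positivity)
    rw [hKeys, card_product, card_product, card_product, card_product, card_univ,
      Fintype.card_fun, Fintype.card_fin]
    push_cast
    have e1 : (Fintype.card V : ℝ) ^ (r + 1) * NS ^ 4 =
        (Fintype.card V : ℝ) ^ (r + 1) * (NS * (NS * (NS * NS))) := by ring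
    rw [e1]
    refine mul_le_mul_of_nonneg_left ?_ (by positivity)
    have s0 : ∀ J : Finset (Cell n), (0:ℝ) ≤ ((subs J (16 * m)).card : ℝ) :=
      fun J => Nat.cast_nonneg _
    refine mul_le_mul hX ?_ (mul_nonneg (s0 _) (mul_nonneg (s0 _) (s0 _))) hNS
    refine mul_le_mul hX ?_ (mul_nonneg (s0 _) (s0 _)) hNS
    exact mul_le_mul hY hY (s0 _) hNS
  rw [hsplit, add_comm]
  exact (abs_add_le _ _).trans (add_le_add htwo hone)

/-- majorities of deterministic machines -/
theorem pp_bound {T L τ : ℕ} {m σ : ℝ} (hp : Par n T r L k w τ m σ) (hn : n ≤ q) {Y : ℕ}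
    (P : Fin Y → NMach (Cell n) (ZMod q) V) (hP : ∀ y, (P y).Det) (NS : ℝ) (h1 : 1 ≤ NS)
    (hX : ((subs (cellX n) (16 * m)).card : ℝ) ≤ NS)
    (hY : ((subs (cellY n) (16 * m)).card : ℝ) ≤ NS)
    (h : ∀ z : Cell n → ZMod q, dotp n (2 * τ) (pr z) = 0 ↔
      Y < 2 * (fil fun y => (P y).Accepts T z).card) :
    1 ≤ (q : ℝ) * ((2 * Y + 1) * (3 * ((Fintype.card V : ℝ) ^ (r + 1) * NS ^ 4) / (q : ℝ) ^ τ +
      4 * Real.exp (-(m ^ 2 / (2 * σ))))) := by
  classical
  have hq0 : (0:ℝ) < q := by exact_mod_cast (Fact.out : q.Prime).pos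
  have hpos : 0 < Y := by
    have h0 := (h fun _ => 0).1 (by
      unfold dotp par
      refine Finset.sum_eq_zero fun i _ => ?_
      have : ∑ j : Fin n, ((j : ℕ) : ZMod q) ^ (i : ℕ) * (pr (n := n) fun _ => (0 : ZMod q)).1 j =
          0 := Finset.sum_eq_zero fun j _ => by rw [pr_fst, mul_zero]
      rw [this, zero_mul])
    by_contra hY0
    have hY0' : Y = 0 := by omega
    subst hY0'
    have := card_le_univ (fil fun y => (P y).Accepts T fun _ => (0 : ZMod q))
    rw [Fintype.card_fin] at this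
    omega
  have hV : 1 ≤ Fintype.card V := Fintype.card_pos_iff.2 ⟨(P ⟨0, hpos⟩).start⟩
  have hτn : 2 * τ ≤ n := by
    have hw0 : (1:ℝ) ≤ w := by exact_mod_cast (by have := hp.hw; omega : 1 ≤ w)
    have e1 : ((2 * τ : ℕ) : ℝ) ≤ n := by
      refine hp.hτ.trans ?_
      rw [hp.hm]
      refine div_le_self (Nat.cast_nonneg _) ?_
      have : (1:ℝ) ≤ (w : ℝ) ^ k := one_le_pow₀ hw0
      linarith
    exact_mod_cast e1
  set E := Real.exp (-(m ^ 2 / (2 * σ))) with hE
  have hE0 : 0 < E := Real.exp_pos _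
  set C : ℝ := (Fintype.card V : ℝ) ^ (r + 1) * NS ^ 4 with hC
  have hC1 : 1 ≤ C := by
    have e1 : (1:ℝ) ≤ (Fintype.card V : ℝ) ^ (r + 1) := one_le_pow₀ (by exact_mod_cast hV)
    have e2 : (1:ℝ) ≤ NS ^ 4 := one_le_pow₀ h1
    rw [hC]
    nlinarith
  set D := (((univ : Finset ((Fin n → ZMod q) × (Fin n → ZMod q))).filter
      (fun p => dotp n (2 * τ) p = 0)).card : ℝ) with hD
  have hcz := count_zero (q := q) hn hτn
  rw [← hD] at hcz
  -- the bound for one machine
  have hone : ∀ y, |∑ z ∈ fil (fun z => (P y).Accepts T z), dl (dotp n (2 * τ) (pr z))| ≤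
      C * (2 * (q : ℝ) ^ (2 * n - τ)) + (q : ℝ) ^ (2 * n) * (4 * E) :=
    fun y => det_bound hp hn (hP y) NS hX hY
  have hall : |∑ z : Cell n → ZMod q, dl (dotp n (2 * τ) (pr z))| ≤
      2 * (q : ℝ) ^ (2 * n - τ) := by
    obtain ⟨A, -, hA⟩ := exists_subset_card_eq (s := (univ : Finset (Fin n))) (n := 2 * τ)
      (by rw [card_univ, Fintype.card_fin]; exact hτn)
    have := delta_bound (q := q) hn A A hA hA univ (fun _ _ _ _ _ _ => mem_univ _)
    rwa [← (pr (n := n) (A := ZMod q)).sum_comp] at this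
  -- the weights
  have hpt : ∀ z : Cell n → ZMod q, (if dotp n (2 * τ) (pr z) = 0 then (1:ℝ) else 0) ≤
      dl (dotp n (2 * τ) (pr z)) *
        (2 * ((fil fun y => (P y).Accepts T z).card : ℝ) - Y) := by
    intro z
    by_cases h0 : dotp n (2 * τ) (pr z) = 0
    · rw [if_pos h0]
      unfold dl
      rw [if_pos h0, if_neg (by rw [h0]; exact zero_ne_one), sub_zero, one_mul]
      have := (h z).1 h0
      have h2 : (Y : ℝ) + 1 ≤ 2 * ((fil fun y => (P y).Accepts T z).card : ℝ) := by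
        exact_mod_cast this
      linarith
    · rw [if_neg h0]
      unfold dl
      rw [if_neg h0, zero_sub]
      split_ifs with h2
      · have := fun hh => h0 ((h z).2 hh)
        have h3 : 2 * ((fil fun y => (P y).Accepts T z).card : ℝ) ≤ Y := by
          exact_mod_cast not_lt.1 this
        linarith
      · simp
  have hD' : D ≤ ∑ z : Cell n → ZMod q, dl (dotp n (2 * τ) (pr z)) *
        (2 * ((fil fun y => (P y).Accepts T z).card : ℝ) - Y) := by
    refine le_trans (le_of_eq ?_) (Finset.sum_le_sum fun z _ => hpt z)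
    rw [hD, ← Finset.sum_filter, Finset.sum_const, nsmul_eq_mul, mul_one]
    congr 1
    symm
    refine card_bij (fun z _ => pr z) (fun z hz => ?_) (fun z _ z' _ hh => pr.injective hh)
      fun p hp' => ?_
    · rw [mem_filter] at hz ⊢
      exact ⟨mem_univ _, hz.2⟩
    · rw [mem_filter] at hp'
      exact ⟨pr.symm p, mem_filter.2 ⟨mem_univ _, by
        rw [Equiv.apply_symm_apply]; exact hp'.2⟩, Equiv.apply_symm_apply _ _⟩
  have hcnt : ∀ z : Cell n → ZMod q, ((fil fun y => (P y).Accepts T z).card : ℝ) =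
      ∑ y, if (P y).Accepts T z then (1:ℝ) else 0 := by
    intro z
    rw [← Finset.sum_filter, Finset.sum_const, nsmul_eq_mul, mul_one]
    congr 2
  have hswap : ∑ z : Cell n → ZMod q, dl (dotp n (2 * τ) (pr z)) *
        (2 * ((fil fun y => (P y).Accepts T z).card : ℝ) - Y) =
      2 * ∑ y, ∑ z ∈ fil (fun z => (P y).Accepts T z), dl (dotp n (2 * τ) (pr z)) -
        Y * ∑ z : Cell n → ZMod q, dl (dotp n (2 * τ) (pr z)) := by
    have e1 : ∀ y, ∑ z ∈ fil (fun z => (P y).Accepts T z), dl (dotp n (2 * τ) (pr z)) =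
        ∑ z : Cell n → ZMod q, dl (dotp n (2 * τ) (pr z)) *
          (if (P y).Accepts T z then (1:ℝ) else 0) := by
      intro y
      simp only [mul_ite, mul_one, mul_zero]
      rw [← Finset.sum_filter]
      refine Finset.sum_congr ?_ fun _ _ => rfl
      ext z
      rw [mem_fil, mem_filter]
      simp
    simp only [e1]
    rw [Finset.sum_comm, Finset.mul_sum, Finset.mul_sum, ← Finset.sum_sub_distrib]
    refine Finset.sum_congr rfl fun z _ => ?_
    rw [← Finset.mul_sum, ← hcnt z]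
    ring
  rw [hswap] at hD'
  have hS1 : ∑ y, ∑ z ∈ fil (fun z => (P y).Accepts T z), dl (dotp n (2 * τ) (pr z)) ≤
      Y * (C * (2 * (q : ℝ) ^ (2 * n - τ)) + (q : ℝ) ^ (2 * n) * (4 * E)) := by
    refine (Finset.sum_le_sum fun y _ => (le_abs_self _).trans (hone y)).trans (le_of_eq ?_)
    rw [Finset.sum_const, nsmul_eq_mul, card_univ, Fintype.card_fin]
  have hS2 : -(∑ z : Cell n → ZMod q, dl (dotp n (2 * τ) (pr z))) ≤
      2 * (q : ℝ) ^ (2 * n - τ) := (neg_le_abs _).trans hall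
  have hY0 : (0:ℝ) ≤ Y := Nat.cast_nonneg _
  have hS3 : -((Y : ℝ) * ∑ z : Cell n → ZMod q, dl (dotp n (2 * τ) (pr z))) ≤
      Y * (2 * (q : ℝ) ^ (2 * n - τ)) := by
    rw [← mul_neg]
    exact mul_le_mul_of_nonneg_left hS2 hY0
  set Q := (q : ℝ) ^ (2 * n - τ) with hQ
  have hQ0 : 0 < Q := by positivity
  have hQτ : Q * (q : ℝ) ^ τ = (q : ℝ) ^ (2 * n) := by
    rw [hQ, ← pow_add]
    congr 1
    omega
  have hqτ : (0:ℝ) < (q : ℝ) ^ τ := by positivity
  -- total
  have htot : (q : ℝ) ^ (2 * n) ≤ q * ((2 * Y + 1) * (3 * C * Q + (q : ℝ) ^ (2 * n) * (4 * E))) := by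
    have e1 : D ≤ 2 * (Y * (C * (2 * Q) + (q : ℝ) ^ (2 * n) * (4 * E))) + Y * (2 * Q) := by
      linarith
    have e2 : (q : ℝ) ^ (2 * n) ≤ q * (D + Q) := by
      calc (q : ℝ) ^ (2 * n) ≤ q * D + q * Q := hcz
        _ = _ := by ring
    refine e2.trans (mul_le_mul_of_nonneg_left ?_ hq0.le)
    have e3 : Q ≤ C * Q := le_mul_of_one_le_left hQ0.le hC1
    have e4 : 0 ≤ (q : ℝ) ^ (2 * n) * (4 * E) := by positivity
    nlinarith [mul_nonneg hY0 e4, mul_le_mul_of_nonneg_left e3 hY0, mul_nonneg hY0 hQ0.le]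
  have hq2 : (0:ℝ) < (q : ℝ) ^ (2 * n) := by positivity
  have hfin : (q : ℝ) * ((2 * Y + 1) * (3 * C * Q + (q : ℝ) ^ (2 * n) * (4 * E))) =
      (q : ℝ) ^ (2 * n) * ((q : ℝ) * ((2 * Y + 1) * (3 * C / (q : ℝ) ^ τ + 4 * E))) := by
    rw [← hQτ]
    field_simp
  rw [hfin] at htot
  exact (le_mul_iff_one_le_right hq2).1 htot

end Pool.Agent.Lib_helper26.TS
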