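import Pool.Agent.Lib_helper26.TS.Hits
import Pool.Agent.Lib_helper26.TS.Defs

/-!
# Random access machines, their runs, mixing of two runs
-/

set_option autoImplicit false
set_option linter.unusedSectionVars false

namespace Pool.Agent.Lib_helper26.TS

open Finset

variable {I A V : Type}

/-- the segments (of length `L`) in which the cell `e` is read -/
noncomputable def seg (M : NMach I A V) (T L r : ℕ) (ρ : ℕ → V) (e : I) : Finset (Fin r) :=
  fil fun j => ∃ t < T, t / L = j.val ∧ M.query t (ρ t) = e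

theorem mem_seg {M : NMach I A V} {T L r : ℕ} {ρ : ℕ → V} {e : I} {j : Fin r} :
    j ∈ seg M T L r ρ e ↔ ∃ t < T, t / L = j.val ∧ M.query t (ρ t) = e := mem_fil

/-- the same boundary states -/
def SameB (T L : ℕ) (ρ ρ' : ℕ → V) : Prop := ∀ j, j * L ≤ T → ρ (j * L) = ρ' (j * L)

/-- the mixed run: `ρ'` in the segments with `c`, else `ρ` -/
def mixRun (L : ℕ) (c : ℕ → Bool) (ρ ρ' : ℕ → V) (t : ℕ) : V := if c (t / L) then ρ' t else ρ t

/-- mixing two runs with the same boundary states -/
theorem run_mix (M : NMach I A V) (T L : ℕ) (hL : 0 < L) (c : ℕ → Bool) (x x' z : I → A)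
    (ρ ρ' : ℕ → V) (h : M.Run T x ρ) (h' : M.Run T x' ρ') (hb : SameB T L ρ ρ')
    (h0 : ∀ t < T, c (t / L) = false → z (M.query t (ρ t)) = x (M.query t (ρ t)))
    (h1 : ∀ t < T, c (t / L) = true → z (M.query t (ρ' t)) = x' (M.query t (ρ' t))) :
    M.Run T z (mixRun L c ρ ρ') := by
  have hz : ρ 0 = ρ' 0 := by rw [h.1, h'.1]
  refine ⟨?_, fun t ht => ?_⟩
  · unfold mixRun
    split_ifs
    · rw [h'.1]
    · rw [h.1]
  · -- the next state
    have hnext : ∀ b, c (t / L) = b → mixRun L c ρ ρ' (t + 1) = if b then ρ' (t + 1) else ρ (t + 1) := by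
      intro b hb'
      by_cases hs : (t + 1) / L = t / L
      · unfold mixRun
        rw [hs, hb']
      · have h3 : (t + 1) / L * L = t + 1 := by
          have e1 := Nat.div_add_mod t L
          have e2 := Nat.div_add_mod (t + 1) L
          have e3 := Nat.mod_lt t hL
          have e4 := Nat.mod_lt (t + 1) hL
          have e5 : t / L ≤ (t + 1) / L := Nat.div_le_div_right (Nat.le_succ t)
          have e6 : t / L + 1 ≤ (t + 1) / L := by omega
          have e7 : L * (t / L) + L ≤ L * ((t + 1) / L) := by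
            have := Nat.mul_le_mul_left L e6
            rw [Nat.mul_add, Nat.mul_one] at this
            exact this
          rw [mul_comm]
          omega
        have h4 := hb ((t + 1) / L) (by rw [h3]; omega)
        rw [h3] at h4
        unfold mixRun
        split_ifs <;> first | rfl | exact h4 | exact h4.symm
    rcases hc : c (t / L) with _ | _
    · rw [hnext false hc]
      have h5 : mixRun L c ρ ρ' t = ρ t := by unfold mixRun; rw [hc]; rfl
      rw [h5, h0 t ht hc]
      exact h.2 t ht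
    · rw [hnext true hc]
      have h5 : mixRun L c ρ ρ' t = ρ' t := by unfold mixRun; rw [hc]; rfl
      rw [h5, h1 t ht hc]
      exact h'.2 t ht

section colours

variable {r k w : ℕ} [Fintype I] [DecidableEq I] [NeZero w]

/-- survivors of the run -/
noncomputable def FS (a b : Fin w) (M : NMach I A V) (T L : ℕ) (ρ : ℕ → V) (ω : Om r I k w)
    (J : Finset I) : Finset I := J ∩ fil (inF a b (seg M T L r ρ) ω)

/-- candidates of the run -/
noncomputable def PS (a b : Fin w) (M : NMach I A V) (T L : ℕ) (ρ : ℕ → V) (ω : Om r I k w)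
    (J : Finset I) : Finset I := J ∩ fil (inP a b (seg M T L r ρ) ω)

theorem mem_FS {a b : Fin w} {M : NMach I A V} {T L : ℕ} {ρ : ℕ → V} {ω : Om r I k w}
    {J : Finset I} {e : I} : e ∈ FS a b M T L ρ ω J ↔ e ∈ J ∧ inF a b (seg M T L r ρ) ω e := by
  unfold FS
  rw [mem_inter, mem_fil]

theorem mem_PS {a b : Fin w} {M : NMach I A V} {T L : ℕ} {ρ : ℕ → V} {ω : Om r I k w}
    {J : Finset I} {e : I} : e ∈ PS a b M T L ρ ω J ↔ e ∈ J ∧ inP a b (seg M T L r ρ) ω e := by
  unfold PS
  rw [mem_inter, mem_fil]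

/-- a survivor is only read in segments of its colour -/
theorem colour_of_mem_FS {a b : Fin w} {M : NMach I A V} {T L : ℕ} {ρ : ℕ → V}
    {ω : Om r I k w} {J : Finset I} {e : I} (he : e ∈ FS a b M T L ρ ω J) (t : ℕ) (ht : t < T)
    (hr : t / L < r) (hq : M.query t (ρ t) = e) : ω (Sum.inl ⟨t / L, hr⟩) = a := by
  obtain ⟨-, ⟨h1, -, -⟩, h2⟩ := mem_FS.1 he
  have hj : (⟨t / L, hr⟩ : Fin r) ∈ seg M T L r ρ e := mem_seg.2 ⟨t, ht, rfl, hq⟩
  exact (h1 _ hj).resolve_right (h2 _ hj)

/-- the colour of a segment number (`true` for colour `b`) -/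
def isC (b : Fin w) (ω : Om r I k w) (j : ℕ) : Bool :=
  if h : j < r then decide (ω (Sum.inl ⟨j, h⟩) = b) else false

theorem isC_eq {b : Fin w} {ω : Om r I k w} {j : ℕ} (h : j < r) :
    isC b ω j = decide (ω (Sum.inl ⟨j, h⟩) = b) := by
  unfold isC
  rw [dif_pos h]

/-- mixing two inputs: `x'` on `B`, else `x` -/
def mixIn (B : Finset I) (x x' : I → A) (e : I) : A := if e ∈ B then x' e else x e

/-- mixing two accepted inputs -/
theorem mix_run (M : NMach I A V) (T L : ℕ) (hL : 0 < L) (hT : T ≤ r * L) (a b : Fin w)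
    (hab : a ≠ b) (ω : Om r I k w) (JX JY : Finset I) (x x' : I → A) (ρ ρ' : ℕ → V)
    (h : M.Run T x ρ) (h' : M.Run T x' ρ') (hb : SameB T L ρ ρ')
    (A' B' : Finset I) (hA : A' ⊆ FS a b M T L ρ' ω JX) (hB : B' ⊆ FS b a M T L ρ ω JY)
    (hxx : ∀ e, e ∉ A' → e ∉ B' → x e = x' e) :
    M.Run T (mixIn B' x x') (mixRun L (isC b ω) ρ ρ') := by
  have hr : ∀ t < T, t / L < r := fun t ht => (Nat.div_lt_iff_lt_mul hL).2 (by omega)
  refine run_mix M T L hL _ x x' _ ρ ρ' h h' hb (fun t ht hc => ?_) fun t ht hc => ?_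
  · unfold mixIn
    rw [if_neg]
    intro he
    have := colour_of_mem_FS (hB he) t ht (hr t ht) rfl
    rw [isC_eq (hr t ht), this] at hc
    simp at hc
  · unfold mixIn
    rw [isC_eq (hr t ht), decide_eq_true_eq] at hc
    by_cases he : M.query t (ρ' t) ∈ B'
    · rw [if_pos he]
    · rw [if_neg he]
      refine hxx _ (fun hA' => ?_) he
      have := colour_of_mem_FS (hA hA') t ht (hr t ht) rfl
      rw [hc] at this
      exact hab this.symm

end colours

end Pool.Agent.Lib_helper26.TS
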