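import Pool.Agent.Lib_helper26.TS.Upper

/-!
# The two functions and the separations
-/

set_option autoImplicit false
set_option linter.unusedSectionVars false

namespace Pool.Agent.Lib_helper26.TS

open Finset Filter

variable {n q : ℕ} [Fact q.Prime]

theorem moreErr_iff {ε : ℝ} {z : Cell n → ZMod q} : MoreErr ε n z ↔
    errs n (2 ^ tlog ε n) (pr z).1 < errs n (2 ^ tlog ε n) (pr z).2 := Iff.rfl

theorem InNP.nnp {T W : ℕ} {V : Type} {L : (Cell n → ZMod q) → Prop} (h : InNP n q T V W L) :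
    InNNP n q T V W L := by
  obtain ⟨P, -, hL⟩ := h
  exact ⟨P, hL⟩

theorem InCoNP.nnp {T W : ℕ} {V : Type} {L : (Cell n → ZMod q) → Prop}
    (h : InCoNP n q T V W L) : InNNP n q T V W (fun z => ¬ L z) := by
  obtain ⟨P, hP, hL⟩ := h
  refine ⟨fun w => (P w).compl, fun z => ?_⟩
  show ¬ L z ↔ _
  rw [hL z, not_forall]
  exact exists_congr fun w => (compl_accepts (hP w) T z).symm

theorem errs_zero_iff {t : ℕ} (x : Fin n → ZMod q) : errs n t x = 0 ↔ ∀ i, par n t x i = 0 := by
  unfold errs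
  rw [Nat.card_eq_zero]
  constructor
  · rintro (h | h)
    · intro i
      by_contra hi
      exact h.false ⟨i, hi⟩
    · exact absurd (inferInstance : Finite {i : Fin t // par n t x i ≠ 0}) (not_finite_iff_infinite.2 h)
  · intro h
    left
    exact ⟨fun i => i.2 (h i.1)⟩

/-- the comparison function is not in the NP mode of nondeterministic machines -/
theorem more_n {ε : ℝ} (h0 : 0 < ε) (h1 : ε < 1) (hL : Large ε n) (hn : n ≤ q) (T W : ℕ)
    (V : Type) [Fintype V]
    (hT : (T : ℝ) ≤ ε / 24000 * (n * (Real.log n / Real.log (Real.log n))))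
    (hW : Real.logb 2 (Fintype.card V) + W ≤ (n : ℝ) ^ (1 - ε)) :
    ¬ InNNP n q T V W (MoreErr ε n) := by
  rintro ⟨P, hP⟩
  -- a word with exactly one violated parity check
  have hn1 : 1 ≤ n := by exact_mod_cast large_one hL
  have ht : 2 ^ tlog ε n ≤ n := by
    have h2 := (tlog_bounds h0 h1 hn1).1
    have h3 : (n : ℝ) ^ (1 - ε / 1000) ≤ (n : ℝ) ^ (1:ℝ) :=
      Real.rpow_le_rpow_of_exponent_le (by exact_mod_cast hn1) (by linarith)
    rw [Real.rpow_one] at h3
    exact_mod_cast h2.trans h3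
  set t := 2 ^ tlog ε n with htd
  have ht0 : 0 < t := by positivity
  obtain ⟨y0, hy0⟩ := exists_par hn ht (fun i : Fin t => if i.val = 0 then (1 : ZMod q) else 0)
  have hone : errs n t y0 = 1 := by
    unfold errs
    rw [Nat.card_eq_one_iff_unique]
    constructor
    · constructor
      rintro ⟨i, hi⟩ ⟨j, hj⟩
      rw [hy0] at hi hj
      have hi' : i.val = 0 := by
        by_contra h
        rw [if_neg h] at hi
        exact hi rfl
      have hj' : j.val = 0 := by
        by_contra h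
        rw [if_neg h] at hj
        exact hj rfl
      exact Subtype.ext (Fin.ext (hi'.trans hj'.symm))
    · refine ⟨⟨⟨0, ht0⟩, ?_⟩⟩
      rw [hy0]
      simp
  refine n_lower (q := q) h0 h1 hL hn T W hT hW ⟨Sum.inl, Sum.inl_injective⟩
    (fun x => Sum.elim x y0) (fun x j => rfl) (fun x x' e he => ?_) P fun x => ?_
  · rcases e with j | j
    · exact absurd rfl (he j)
    · rfl
  · rw [← hP, moreErr_iff, ← htd]
    have e1 : (pr (Sum.elim x y0 : Cell n → ZMod q)).1 = x := rfl
    have e2 : (pr (Sum.elim x y0 : Cell n → ZMod q)).2 = y0 := rfl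
    rw [e1, e2, hone, ← errs_zero_iff]
    omega

/-- nor is its complement -/
theorem more_con {ε : ℝ} (h0 : 0 < ε) (h1 : ε < 1) (hL : Large ε n) (hn : n ≤ q) (T W : ℕ)
    (V : Type) [Fintype V]
    (hT : (T : ℝ) ≤ ε / 24000 * (n * (Real.log n / Real.log (Real.log n))))
    (hW : Real.logb 2 (Fintype.card V) + W ≤ (n : ℝ) ^ (1 - ε)) :
    ¬ InNNP n q T V W (fun z => ¬ MoreErr ε n z) := by
  rintro ⟨P, hP⟩
  refine n_lower (q := q) h0 h1 hL hn T W hT hW ⟨Sum.inr, Sum.inr_injective⟩
    (fun x => Sum.elim (fun _ => 0) x) (fun x j => rfl) (fun x x' e he => ?_) P fun x => ?_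
  · rcases e with j | j
    · rfl
    · exact absurd rfl (he j)
  · rw [← hP]
    show ¬ MoreErr ε n _ ↔ _
    rw [moreErr_iff]
    have e1 : (pr (Sum.elim (fun _ => 0) x : Cell n → ZMod q)).1 = fun _ => 0 := rfl
    have e2 : (pr (Sum.elim (fun _ => 0) x : Cell n → ZMod q)).2 = x := rfl
    have e3 : errs n (2 ^ tlog ε n) (fun _ : Fin n => (0 : ZMod q)) = 0 := by
      rw [errs_zero_iff]
      intro i
      unfold par
      exact Finset.sum_eq_zero fun j _ => by rw [mul_zero]
    rw [e1, e2, e3, ← errs_zero_iff]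
    omega

/-- the inner product of the parity checks is not in the PP mode -/
theorem orth_pp {ε : ℝ} (h0 : 0 < ε) (h1 : ε < 1) (hL : Large ε n) (hn : n ≤ q) (T W : ℕ)
    (V : Type) [Fintype V]
    (hT : (T : ℝ) ≤ ε / 24000 * (n * (Real.log n / Real.log (Real.log n))))
    (hW : (Real.logb 2 (Fintype.card V) + 1) * (W + Real.logb 2 q) ≤ (n : ℝ) ^ (1 - ε)) :
    ¬ InPP n q T V W (Orth ε n) := by
  classical
  rintro ⟨P, hPd, hP⟩
  refine pp_lower (q := q) h0 h1 hL hn T W hT hW P (fun w => (hPd w).det) fun z => ?_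
  have h2 : (fil fun y => (P y).Accepts T z).card = Nat.card {w // (P w).Accepts T z} := by
    rw [Nat.card_eq_fintype_card, Fintype.card_subtype]
    congr 1
  rw [h2]
  exact hP z

end Pool.Agent.Lib_helper26.TS
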