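import Pool.Agent.Lib_helper26.TS.Final
import Pool.Agent.Lib_helper45.PPQ2.Alt

/-!
# The modes NP, coNP, PP, PSPACE of random access machines and the inclusions
-/

set_option autoImplicit false
set_option linter.unusedSectionVars false
set_option linter.unusedSimpArgs false

namespace Pool.Agent.Lib_helper26.TS

open Finset
open Pool.Agent.Lib_helper45.PPQ2 (Game game_congr game_true game_false val exists_val qq length_qq
  dec evl cn cn_succ cn_le game_count)

variable {n q : ℕ} {V : Type}

theorem NMach.IsDet.det {I A V : Type} {M : NMach I A V} (h : M.IsDet) : M.Det :=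
  fun t v a _ _ h1 h2 => (h t v a).unique h1 h2

theorem alt_iff (qs : List Bool) : ∀ R : List Bool → Prop, Alt qs R ↔ Game qs R := by
  induction qs with
  | nil => intro R; exact Iff.rfl
  | cons b qs ih =>
    intro R
    cases b
    · exact forall_congr' fun b => ih _
    · exact exists_congr fun b => ih _

section general

variable {I A : Type}

/-- a deterministic machine has a run -/
theorem exists_run {M : NMach I A V} (h : M.IsDet) (T : ℕ) (x : I → A) : ∃ ρ, M.Run T x ρ := by
  choose f hf _ using h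
  let ρ : ℕ → V := fun t => Nat.rec M.start (fun t v => f t v (x (M.query t v))) t
  exact ⟨ρ, rfl, fun t _ => hf t (ρ t) (x (M.query t (ρ t)))⟩

/-- other accepting states -/
def NMach.compl (M : NMach I A V) : NMach I A V where
  start := M.start
  query := M.query
  step := M.step
  acc := fun v => ¬ M.acc v

theorem compl_accepts {M : NMach I A V} (h : M.IsDet) (T : ℕ) (x : I → A) :
    M.compl.Accepts T x ↔ ¬ M.Accepts T x := by
  obtain ⟨ρ, hρ⟩ := exists_run h T x
  have h1 : M.Accepts T x ↔ M.acc (ρ T) := by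
    constructor
    · rintro ⟨ρ', h1, h2⟩
      rwa [run_unique h.det h1 hρ T le_rfl] at h2
    · exact fun h2 => ⟨ρ, hρ, h2⟩
  have h2 : M.compl.Accepts T x ↔ ¬ M.acc (ρ T) := by
    constructor
    · rintro ⟨ρ', h1, h2⟩
      have h3 : M.Run T x ρ' := h1
      have h4 : ¬ M.acc (ρ' T) := h2
      rwa [run_unique h.det h3 hρ T le_rfl] at h4
    · exact fun h2 => ⟨ρ, hρ, h2⟩
  rw [h1, h2]

/-- a constant machine -/
def constM (M : NMach I A V) (b : Prop) : NMach I A V where
  start := M.start
  query := M.query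
  step := fun _ _ _ v' => v' = M.start
  acc := fun _ => b

theorem constM_det (M : NMach I A V) (b : Prop) : (constM M b).IsDet :=
  fun _ _ _ => ⟨M.start, rfl, fun _ h => h⟩

theorem constM_accepts (M : NMach I A V) (b : Prop) (T : ℕ) (x : I → A) :
    (constM M b).Accepts T x ↔ b := by
  constructor
  · rintro ⟨_, _, h⟩
    exact h
  · intro h
    exact ⟨fun _ => M.start, ⟨rfl, fun _ _ => rfl⟩, h⟩

end general

/-- counting with numbers -/
theorem card_eq_cn {W : ℕ} (p : Fin (2 ^ W) → Prop) (p' : ℕ → Prop)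
    (h : ∀ i : Fin (2 ^ W), p' i.val ↔ p i) : Nat.card {w // p w} = cn p' W 0 := by
  classical
  unfold cn
  rw [Nat.card_eq_fintype_card, Fintype.card_subtype]
  simp only [zero_mul, zero_add]
  refine card_bij (fun y _ => (y : ℕ)) ?_ ?_ ?_
  · intro y hy
    rw [mem_filter] at hy
    rw [mem_filter, mem_range]
    exact ⟨y.2, (h y).2 hy.2⟩
  · intro y _ y' _ h
    exact Fin.ext h
  · intro j hj
    rw [mem_filter, mem_range] at hj
    exact ⟨⟨j, hj.1⟩, by rw [mem_filter]; exact ⟨mem_univ _, (h ⟨j, hj.1⟩).1 hj.2⟩, rfl⟩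

/-- the numbers in the second half -/
theorem cn_half {W : ℕ} (p : ℕ → Prop) : cn p W 1 = cn (fun i => p (2 ^ W + i)) W 0 := by
  classical
  unfold cn
  simp only [one_mul, zero_mul, zero_add]

theorem cn_congr {W : ℕ} {p p' : ℕ → Prop} (h : ∀ i < 2 ^ W, (p i ↔ p' i)) :
    cn p W 0 = cn p' W 0 := by
  classical
  unfold cn
  simp only [zero_mul, zero_add]
  congr 1
  refine filter_congr fun i hi => ?_
  exact h i (mem_range.1 hi)

theorem cn_true {W : ℕ} : cn (fun _ => True) W 0 = 2 ^ W := by
  classical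
  unfold cn
  simp only [zero_mul, zero_add]
  rw [filter_true_of_mem (fun _ _ => trivial), card_range]

theorem cn_single {W : ℕ} : cn (fun i => i = 0) W 0 = 1 := by
  classical
  unfold cn
  simp only [zero_mul, zero_add]
  have : (range (2 ^ W)).filter (fun i => i = 0) = {0} := by
    ext i
    rw [mem_filter, mem_range, mem_singleton]
    constructor
    · exact fun h => h.2
    · rintro rfl
      exact ⟨by positivity, rfl⟩
  rw [this, card_singleton]

/-- twice as many machines -/
def twice {W : ℕ} {I A : Type} (P : Fin (2 ^ W) → NMach I A V) (b : ℕ → Prop)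
    (w : Fin (2 ^ (W + 1))) : NMach I A V :=
  if h : w.val < 2 ^ W then P ⟨w.val, h⟩ else constM (P ⟨0, by positivity⟩) (b (w.val - 2 ^ W))

theorem twice_det {W : ℕ} {I A : Type} {P : Fin (2 ^ W) → NMach I A V} (h : ∀ w, (P w).IsDet)
    (b : ℕ → Prop) (w : Fin (2 ^ (W + 1))) : (twice P b w).IsDet := by
  unfold twice
  split_ifs
  · exact h _
  · exact constM_det _ _

theorem card_twice {W : ℕ} {I A : Type} (P : Fin (2 ^ W) → NMach I A V) (b : ℕ → Prop) (T : ℕ)
    (x : I → A) : Nat.card {w // (twice P b w).Accepts T x} =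
      Nat.card {w // (P w).Accepts T x} + cn b W 0 := by
  classical
  let p : ℕ → Prop := fun i => if h : i < 2 ^ W then (P ⟨i, h⟩).Accepts T x else b (i - 2 ^ W)
  have h1 : ∀ i : Fin (2 ^ (W + 1)), p i.val ↔ (twice P b i).Accepts T x := by
    intro i
    by_cases h : i.val < 2 ^ W
    · simp only [p, twice, dif_pos h]
    · simp only [p, twice, dif_neg h]
      rw [constM_accepts]
  rw [card_eq_cn _ p h1, cn_succ, mul_zero, zero_add, cn_half]
  congr 1
  · symm
    refine card_eq_cn _ p fun i => ?_
    simp only [p]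
    rw [dif_pos i.2]
  · refine cn_congr fun i _ => ?_
    simp only [p]
    rw [dif_neg (by omega)]
    rw [Nat.add_sub_cancel_left]

theorem np_sub_pp {T W : ℕ} {L : (Cell n → ZMod q) → Prop} (h : InNP n q T V W L) :
    InPP n q T V (W + 1) L := by
  obtain ⟨P, hP, hL⟩ := h
  refine ⟨twice P (fun _ => True), twice_det hP _, fun z => ?_⟩
  rw [card_twice, cn_true, hL z, pow_succ]
  have h1 : (∃ w, (P w).Accepts T z) ↔ 0 < Nat.card {w // (P w).Accepts T z} := by
    rw [Nat.card_pos_iff]
    constructor
    · rintro ⟨w, hw⟩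
      exact ⟨⟨⟨w, hw⟩⟩, inferInstance⟩
    · rintro ⟨⟨w, hw⟩, -⟩
      exact ⟨w, hw⟩
  rw [h1]
  omega

theorem conp_sub_pp {T W : ℕ} {L : (Cell n → ZMod q) → Prop} (h : InCoNP n q T V W L) :
    InPP n q T V (W + 1) L := by
  classical
  obtain ⟨P, hP, hL⟩ := h
  refine ⟨twice P (fun i => i = 0), twice_det hP _, fun z => ?_⟩
  rw [card_twice, cn_single, hL z, pow_succ]
  have h1 : (∀ w, (P w).Accepts T z) ↔ 2 ^ W ≤ Nat.card {w // (P w).Accepts T z} := by
    rw [Nat.card_eq_fintype_card, Fintype.card_subtype]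
    constructor
    · intro h
      rw [filter_true_of_mem (fun w _ => h w), card_univ, Fintype.card_fin]
    · intro h w
      have h2 : (univ.filter fun w => (P w).Accepts T z) = univ := by
        refine eq_univ_of_card _ (le_antisymm (card_le_univ _) ?_)
        rw [Fintype.card_fin]
        exact h
      have h3 := mem_univ w
      rw [← h2] at h3
      exact (mem_filter.1 h3).2
  rw [h1]
  omega

theorem pp_sub_pspace {T W : ℕ} {L : (Cell n → ZMod q) → Prop} (h : InPP n q T V W L) :
    InPSPACE n q T V (W * (W + 3) / 2) L := by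
  classical
  obtain ⟨P, hP, hL⟩ := h
  have h0 : 0 < 2 ^ W := by positivity
  let B : List Bool → NMach (Cell n) (ZMod q) V := fun w =>
    match dec W (2 ^ W / 2 + 1) 0 w with
    | Sum.inl b => constM (P ⟨0, h0⟩) (b = true)
    | Sum.inr j => if h : j < 2 ^ W then P ⟨j, h⟩ else constM (P ⟨0, h0⟩) False
  refine ⟨qq W, B, ?_, ?_, ?_⟩
  · have := length_qq W
    omega
  · intro w
    simp only [B]
    split
    · exact constM_det _ _
    · split_ifs
      · exact hP _
      · exact constM_det _ _
  · intro z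
    let p : ℕ → Prop := fun j => ∃ h : j < 2 ^ W, (P ⟨j, h⟩).Accepts T z
    have h1 : ∀ w, (B w).Accepts T z ↔ evl p (dec W (2 ^ W / 2 + 1) 0 w) := by
      intro w
      simp only [B]
      rcases dec W (2 ^ W / 2 + 1) 0 w with b | j
      · exact constM_accepts _ _ _ _
      · simp only [evl, p]
        split_ifs with h
        · exact ⟨fun h' => ⟨h, h'⟩, fun ⟨_, h'⟩ => h'⟩
        · rw [constM_accepts]
          simp [h]
    rw [alt_iff, game_congr h1, game_count, hL z]
    have h2 : cn p W 0 = Nat.card {w // (P w).Accepts T z} := by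
      symm
      refine card_eq_cn _ p fun i => ?_
      exact ⟨fun ⟨_, h'⟩ => h', fun h' => ⟨i.2, h'⟩⟩
    rw [h2]
    omega

end Pool.Agent.Lib_helper26.TS
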