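import Pool.Agent.Lib_helper26.TS.LowerN

/-!
# The parameters
-/

set_option autoImplicit false
set_option linter.unusedSectionVars false

namespace Pool.Agent.Lib_helper26.TS

open Finset Filter

/-- the number of small subsets -/
theorem card_subs {I : Type} [Fintype I] (J : Finset I) (m l : ℝ) (hl : 0 ≤ l) :
    ((subs J m).card : ℝ) ≤ Real.exp (l * m + J.card * Real.exp (-l)) := by
  classical
  have h1 : ((subs J m).card : ℝ) ≤ ∑ P ∈ J.powerset, Real.exp (l * m) * Real.exp (-l) ^ P.card := by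
    have h2 : ((subs J m).card : ℝ) ≤ ∑ P ∈ subs J m, Real.exp (l * m) * Real.exp (-l) ^ P.card := by
      rw [← nsmul_one, ← Finset.sum_const]
      refine Finset.sum_le_sum fun P hP => ?_
      rw [← Real.exp_nat_mul, ← Real.exp_add]
      refine Real.one_le_exp ?_
      have := (mem_subs.1 hP).2
      nlinarith
    refine h2.trans (Finset.sum_le_sum_of_subset_of_nonneg (fun P hP => ?_)
      fun _ _ _ => by positivity)
    exact mem_powerset.2 (mem_subs.1 hP).1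
  refine h1.trans ?_
  rw [← Finset.mul_sum]
  have h3 : ∑ P ∈ J.powerset, Real.exp (-l) ^ P.card = (Real.exp (-l) + 1) ^ J.card := by
    rw [← Finset.sum_pow_mul_eq_add_pow]
    exact Finset.sum_congr rfl fun P _ => by rw [one_pow, mul_one]
  rw [h3, Real.exp_add]
  refine mul_le_mul_of_nonneg_left ?_ (by positivity)
  calc (Real.exp (-l) + 1) ^ J.card ≤ (Real.exp (Real.exp (-l))) ^ J.card :=
        pow_le_pow_left₀ (by positivity) (Real.add_one_le_exp _) _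
    _ = Real.exp (J.card * Real.exp (-l)) := by rw [← Real.exp_nat_mul]

theorem tlog_bounds {ε : ℝ} (h0 : 0 < ε) (h1 : ε < 1) {n : ℕ} (hn : 1 ≤ n) :
    ((2 ^ tlog ε n : ℕ) : ℝ) ≤ (n : ℝ) ^ (1 - ε / 1000) ∧
      (n : ℝ) ^ (1 - ε / 1000) ≤ 2 * ((2 ^ tlog ε n : ℕ) : ℝ) := by
  have hn0 : (0:ℝ) < n := by exact_mod_cast hn
  have hlog : 0 ≤ Real.logb 2 n := Real.logb_nonneg (by norm_num) (by exact_mod_cast hn)
  have hx : 0 ≤ (1 - ε / 1000) * Real.logb 2 n := mul_nonneg (by linarith) hlog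
  have e1 : (n : ℝ) ^ (1 - ε / 1000) = (2:ℝ) ^ ((1 - ε / 1000) * Real.logb 2 n) := by
    rw [mul_comm, Real.rpow_mul (by norm_num), Real.rpow_logb (by norm_num) (by norm_num) hn0]
  have e2 : ((2 ^ tlog ε n : ℕ) : ℝ) = (2:ℝ) ^ ((tlog ε n : ℕ) : ℝ) := by
    rw [Real.rpow_natCast]
    push_cast
    rfl
  rw [e1, e2]
  constructor
  · exact Real.rpow_le_rpow_of_exponent_le (by norm_num) (Nat.floor_le hx)
  · have h2 : (1 - ε / 1000) * Real.logb 2 n ≤ ((tlog ε n : ℕ) : ℝ) + 1 :=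
      (Nat.lt_floor_add_one _).le
    refine (Real.rpow_le_rpow_of_exponent_le (by norm_num) h2).trans (le_of_eq ?_)
    rw [Real.rpow_add (by norm_num), Real.rpow_one, mul_comm]

/-- what is needed of `n` -/
structure Large (ε : ℝ) (n : ℕ) : Prop where
  h100 : 100 ≤ Real.log n
  hll : 1 ≤ Real.log (Real.log n)
  hk : 1 ≤ ε / 4000 * (Real.log n / Real.log (Real.log n))
  h12 : 12 ≤ (n : ℝ) ^ (ε / 2000)
  h168 : 168 * Real.log n ^ 2 ≤ (n : ℝ) ^ (ε / 1000)
  h32 : 32 ≤ (n : ℝ) ^ (ε - 4 * (ε / 1000))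

theorem eventually_large {ε : ℝ} (h0 : 0 < ε) : ∀ᶠ n : ℕ in atTop, Large ε n := by
  have hlog : Tendsto (fun n : ℕ => Real.log n) atTop atTop :=
    Real.tendsto_log_atTop.comp tendsto_natCast_atTop_atTop
  have hll : Tendsto (fun n : ℕ => Real.log (Real.log n)) atTop atTop :=
    Real.tendsto_log_atTop.comp hlog
  have e1 := hlog.eventually_ge_atTop 100
  have e2 := hll.eventually_ge_atTop 1
  have hpow : ∀ δ : ℝ, 0 < δ → Tendsto (fun n : ℕ => (n : ℝ) ^ δ) atTop atTop := fun δ hδ =>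
    (tendsto_rpow_atTop hδ).comp tendsto_natCast_atTop_atTop
  have e3 := (hpow (ε / 2000) (by positivity)).eventually_ge_atTop 12
  have e4 := (hpow (ε - 4 * (ε / 1000)) (by linarith)).eventually_ge_atTop 32
  have e5 : ∀ᶠ n : ℕ in atTop, 168 * Real.log n ^ 2 ≤ (n : ℝ) ^ (ε / 1000) := by
    have h := (isLittleO_log_rpow_rpow_atTop (2:ℝ) (show 0 < ε / 1000 by positivity))
    have h2 := (h.comp_tendsto tendsto_natCast_atTop_atTop).bound
      (show (0:ℝ) < 1 / 168 by norm_num)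
    filter_upwards [h2, e1] with n hn hn1
    simp only [Function.comp] at hn
    rw [Real.norm_of_nonneg (by positivity), Real.norm_of_nonneg (by positivity)] at hn
    have : Real.log n ^ (2:ℝ) = Real.log n ^ 2 := by
      rw [← Real.rpow_natCast]
      norm_num
    rw [this] at hn
    linarith
  have e6 : ∀ᶠ n : ℕ in atTop, 1 ≤ ε / 4000 * (Real.log n / Real.log (Real.log n)) := by
    have h := Real.isLittleO_log_id_atTop
    have h2 := (h.comp_tendsto hlog).bound (show (0:ℝ) < ε / 4000 by positivity)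
    filter_upwards [h2, e1, e2] with n hn hn1 hn2
    simp only [Function.comp, id] at hn
    rw [Real.norm_of_nonneg (by linarith), Real.norm_of_nonneg (by linarith)] at hn
    rw [← mul_div_assoc, le_div_iff₀ (by linarith)]
    linarith
  filter_upwards [e1, e2, e3, e4, e5, e6] with n h1 h2 h3 h4 h5 h6
  exact ⟨h1, h2, h6, h3, h5, h4⟩

/-- the choice of the parameters -/
theorem params {ε : ℝ} (h0 : 0 < ε) (h1 : ε < 1) {n : ℕ} (hL : Large ε n) (N T : ℕ) (B : ℝ)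
    (hN : n ≤ 3 * N) (hN' : N ≤ n)
    (hT : (T : ℝ) ≤ ε / 24000 * (n * (Real.log n / Real.log (Real.log n))))
    (hB : 1 ≤ B) (hB' : B ≤ (n : ℝ) ^ (1 - ε)) :
    ∃ k w r L : ℕ, 4 ≤ w ∧ 2 * k ≤ w ∧ 0 < L ∧ T ≤ r * L ∧ 2 * T ≤ N * (k + 1) ∧
      ((2 ^ tlog ε n : ℕ) : ℝ) ≤ N / (4 * (w : ℝ) ^ k) ∧
      N / (4 * (w : ℝ) ^ k) ≤ 2 * ((2 ^ tlog ε n : ℕ) : ℝ) ∧
      k * Real.log w ≤ ε / 1000 * Real.log n ∧
      (r : ℝ) + 1 ≤ 3 * ((n : ℝ) ^ (3 * (ε / 1000)) * B) ∧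
      7 * B ≤ (N / (4 * (w : ℝ) ^ k)) ^ 2 /
        (2 * (r * (L : ℝ) ^ 2 + ((2 * n : ℕ) : ℝ) * k + 1)) := by
  obtain ⟨H100, Hll, Hk, H12, H168, -⟩ := hL
  set γ := ε / 1000 with hγ
  have hγ0 : 0 < γ := by positivity
  set ℓ := Real.log n with hℓ
  set ℓℓ := Real.log ℓ with hℓℓ
  have hn1 : (1:ℝ) ≤ n := by
    by_contra h
    push Not at h
    have : (n : ℝ) = 0 := by
      have : n < 1 := by exact_mod_cast h
      have : n = 0 := by omega
      rw [this, Nat.cast_zero]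
    rw [hℓ, this, Real.log_zero] at H100
    linarith
  have hn0 : (0:ℝ) < n := by linarith
  obtain ⟨ht1, ht2⟩ := tlog_bounds h0 h1 (n := n) (by exact_mod_cast hn1)
  set t : ℝ := ((2 ^ tlog ε n : ℕ) : ℝ) with ht
  have ht0 : 0 < t := by rw [ht]; positivity
  rw [← hγ] at ht1 ht2
  set k : ℕ := ⌊ε / 4000 * (ℓ / ℓℓ)⌋₊ with hk
  have hk1 : 1 ≤ k := by
    rw [hk]
    exact Nat.le_floor (by exact_mod_cast Hk)
  have hkle : (k : ℝ) ≤ ε / 4000 * (ℓ / ℓℓ) := Nat.floor_le (by linarith)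
  have hklt : ε / 4000 * (ℓ / ℓℓ) < k + 1 := Nat.lt_floor_add_one _
  have hll2 : ℓ / ℓℓ ≤ ℓ := div_le_self (by linarith) Hll
  have hkℓ : (k : ℝ) ≤ ℓ / 4 := by
    refine hkle.trans ?_
    nlinarith
  have h2k4 : 2 * (k : ℝ) + 4 ≤ ℓ := by linarith
  have hNr : (n : ℝ) / 3 ≤ N := by
    rw [div_le_iff₀ (by norm_num)]
    have : (n : ℝ) ≤ 3 * N := by exact_mod_cast hN
    linarith
  have hN0 : (0:ℝ) < N := lt_of_lt_of_le (by positivity) hNr
  have hN'r : (N : ℝ) ≤ n := by exact_mod_cast hN'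
  -- time
  have hTk : 2 * T ≤ N * (k + 1) := by
    have : (2:ℝ) * T ≤ N * (k + 1) := by
      calc (2:ℝ) * T ≤ 2 * (ε / 24000 * (n * (ℓ / ℓℓ))) := by linarith
        _ = (n / 3) * (ε / 4000 * (ℓ / ℓℓ)) := by ring
        _ ≤ N * (k + 1) := mul_le_mul hNr hklt.le (by linarith) (by linarith)
    exact_mod_cast this
  have hTn : (T : ℝ) ≤ n * ℓ := by
    refine hT.trans ?_
    have e1 : n * (ℓ / ℓℓ) ≤ n * ℓ := mul_le_mul_of_nonneg_left hll2 hn0.le
    have e2 : 0 ≤ n * (ℓ / ℓℓ) := by positivity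
    nlinarith
  -- the quotient
  set x : ℝ := N / (4 * t) with hx
  have hx0 : 0 < x := by positivity
  have hnγ : (n : ℝ) = (n : ℝ) ^ γ * (n : ℝ) ^ (1 - γ) := by
    rw [← Real.rpow_add hn0]
    simp
  have hxl : (n : ℝ) ^ γ / 12 ≤ x := by
    rw [hx, div_le_div_iff₀ (by norm_num) (by positivity)]
    calc (n : ℝ) ^ γ * (4 * t) ≤ (n : ℝ) ^ γ * (4 * (n : ℝ) ^ (1 - γ)) := by gcongr
      _ = 4 * n := by rw [mul_left_comm, ← hnγ]
      _ ≤ N * 12 := by linarith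
  have hxu : x ≤ (n : ℝ) ^ γ := by
    rw [hx, div_le_iff₀ (by positivity)]
    calc (N : ℝ) ≤ n := hN'r
      _ = (n : ℝ) ^ γ * (n : ℝ) ^ (1 - γ) := hnγ
      _ ≤ (n : ℝ) ^ γ * (4 * t) := by
        refine mul_le_mul_of_nonneg_left ?_ (by positivity)
        linarith
  have hkpos : (0:ℝ) < k := by exact_mod_cast hk1
  set w : ℕ := ⌊x ^ (1 / (k : ℝ))⌋₊ with hw
  have hroot : (x ^ (1 / (k : ℝ))) ^ k = x := by
    rw [← Real.rpow_natCast, ← Real.rpow_mul hx0.le, one_div_mul_cancel hkpos.ne', Real.rpow_one]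
  have hw_ge : 2 * k + 4 ≤ w := by
    rw [hw]
    refine Nat.le_floor ?_
    push_cast
    have h3 : (2 * (k : ℝ) + 4) ^ k ≤ x := by
      refine le_trans ?_ hxl
      have h4 : (2 * (k : ℝ) + 4) ^ k ≤ (n : ℝ) ^ (ε / 4000) := by
        calc (2 * (k : ℝ) + 4) ^ k ≤ ℓ ^ k := pow_le_pow_left₀ (by positivity) h2k4 _
          _ = Real.exp (k * ℓℓ) := by
            rw [mul_comm, Real.exp_mul, hℓℓ, Real.exp_log (by linarith), Real.rpow_natCast]
          _ ≤ Real.exp (ε / 4000 * ℓ) := by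
            rw [Real.exp_le_exp]
            calc (k : ℝ) * ℓℓ ≤ ε / 4000 * (ℓ / ℓℓ) * ℓℓ :=
                  mul_le_mul_of_nonneg_right hkle (by linarith)
              _ = ε / 4000 * ℓ := by field_simp
          _ = (n : ℝ) ^ (ε / 4000) := by
            rw [Real.rpow_def_of_pos hn0, mul_comm]
      rw [le_div_iff₀ (by norm_num)]
      calc (2 * (k : ℝ) + 4) ^ k * 12 ≤ (n : ℝ) ^ (ε / 4000) * (n : ℝ) ^ (ε / 2000) := by
            gcongr
        _ = (n : ℝ) ^ (3 * ε / 4000) := by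
            rw [← Real.rpow_add hn0]
            congr 1
            ring
        _ ≤ (n : ℝ) ^ γ := by
            refine Real.rpow_le_rpow_of_exponent_le hn1 ?_
            rw [hγ]
            linarith
    have h5 := Real.rpow_le_rpow (by positivity) h3 (show 0 ≤ 1 / (k : ℝ) by positivity)
    rw [← Real.rpow_natCast, ← Real.rpow_mul (by positivity), mul_one_div_cancel hkpos.ne',
      Real.rpow_one] at h5
    exact h5
  have hw4 : 4 ≤ w := by omega
  have hwr : (0:ℝ) < w := by exact_mod_cast (by omega : 0 < w)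
  have hwk : (w : ℝ) ^ k ≤ x := by
    calc (w : ℝ) ^ k ≤ (x ^ (1 / (k : ℝ))) ^ k :=
          pow_le_pow_left₀ hwr.le (Nat.floor_le (by positivity)) _
      _ = x := hroot
  have hwk0 : (0:ℝ) < (w : ℝ) ^ k := by positivity
  have hxw : x ≤ 2 * (w : ℝ) ^ k := by
    calc x = (x ^ (1 / (k : ℝ))) ^ k := hroot.symm
      _ ≤ ((w : ℝ) + 1) ^ k := pow_le_pow_left₀ (by positivity) (Nat.lt_floor_add_one _).le _
      _ = (w : ℝ) ^ k * (1 / w + 1) ^ k := by
        rw [← mul_pow]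
        congr 1
        field_simp
        ring
      _ ≤ (w : ℝ) ^ k * (Real.exp (1 / w)) ^ k := by
        refine mul_le_mul_of_nonneg_left (pow_le_pow_left₀ (by positivity) ?_ _) hwk0.le
        exact Real.add_one_le_exp _
      _ = (w : ℝ) ^ k * Real.exp (k / w) := by
        rw [← Real.exp_nat_mul]
        congr 2
        ring
      _ ≤ (w : ℝ) ^ k * 2 := by
        refine mul_le_mul_of_nonneg_left ?_ hwk0.le
        have h6 : (k : ℝ) / w ≤ 1 / 2 := by
          rw [div_le_div_iff₀ hwr (by norm_num)]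
          have : (2 * k + 4 : ℝ) ≤ w := by exact_mod_cast hw_ge
          linarith
        calc Real.exp (k / w) ≤ Real.exp (1 / 2) := Real.exp_le_exp.2 h6
          _ ≤ 2 := by
            have h7 : Real.exp (1 / 2) ^ 2 ≤ 2 ^ 2 := by
              rw [← Real.exp_nat_mul]
              have := Real.exp_one_lt_d9
              norm_num
              linarith
            exact le_of_sq_le_sq h7 (by norm_num)
      _ = _ := by ring
  have hm1 : t ≤ N / (4 * (w : ℝ) ^ k) := by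
    rw [le_div_iff₀ (by positivity)]
    rw [hx, le_div_iff₀ (by positivity)] at hwk
    linarith
  have hm2 : N / (4 * (w : ℝ) ^ k) ≤ 2 * t := by
    rw [div_le_iff₀ (by positivity)]
    rw [hx, div_le_iff₀ (by positivity)] at hxw
    linarith
  have hklog : k * Real.log w ≤ γ * ℓ := by
    calc (k : ℝ) * Real.log w = Real.log ((w : ℝ) ^ k) := (Real.log_pow _ _).symm
      _ ≤ Real.log ((n : ℝ) ^ γ) := Real.log_le_log hwk0 (hwk.trans hxu)
      _ = γ * ℓ := Real.log_rpow hn0 _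
  -- the segments
  set Z : ℝ := (n : ℝ) ^ (3 * γ) * B with hZ
  have hn3 : 1 ≤ (n : ℝ) ^ (3 * γ) := Real.one_le_rpow hn1 (by positivity)
  have hZ1 : 1 ≤ Z := by
    rw [hZ]
    nlinarith
  have hZn : Z ≤ n := by
    calc Z ≤ (n : ℝ) ^ (3 * γ) * (n : ℝ) ^ (1 - ε) := by
          rw [hZ]
          exact mul_le_mul_of_nonneg_left hB' (by positivity)
      _ = (n : ℝ) ^ (3 * γ + (1 - ε)) := (Real.rpow_add hn0 _ _).symm
      _ ≤ (n : ℝ) ^ (1:ℝ) := by
          refine Real.rpow_le_rpow_of_exponent_le hn1 ?_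
          rw [hγ]
          linarith
      _ = n := Real.rpow_one _
  set r : ℕ := ⌈Z⌉₊ with hr
  have hr1 : Z ≤ r := Nat.le_ceil _
  have hr2 : (r : ℝ) < Z + 1 := Nat.ceil_lt_add_one (by linarith)
  have hr0 : (0:ℝ) < r := by linarith
  have hr0' : 0 < r := by exact_mod_cast hr0
  set L : ℕ := T / r + 1 with hLd
  have hTL : T ≤ r * L := by
    rw [hLd]
    exact (Nat.lt_mul_div_succ T hr0').le
  have hLle : (L : ℝ) ≤ T / r + 1 := by
    rw [hLd]
    push_cast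
    have := Nat.cast_div_le (α := ℝ) (m := T) (n := r)
    linarith
  have hL0 : 0 < L := Nat.succ_pos _
  refine ⟨k, w, r, L, hw4, by omega, hL0, hTL, hTk, hm1, hm2, hklog, by linarith, ?_⟩
  -- the variance
  have hσ1 : (r : ℝ) * (L : ℝ) ^ 2 ≤ 2 * (n * ℓ) ^ 2 / Z + 4 * Z := by
    calc (r : ℝ) * (L : ℝ) ^ 2 ≤ (r : ℝ) * ((T : ℝ) / r + 1) ^ 2 := by
          refine mul_le_mul_of_nonneg_left ?_ hr0.le
          exact pow_le_pow_left₀ (Nat.cast_nonneg _) hLle 2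
      _ ≤ (r : ℝ) * (2 * ((T : ℝ) / r) ^ 2 + 2) := by
          refine mul_le_mul_of_nonneg_left ?_ hr0.le
          nlinarith [sq_nonneg ((T : ℝ) / r - 1)]
      _ = 2 * (T : ℝ) ^ 2 / r + 2 * r := by field_simp
      _ ≤ 2 * (n * ℓ) ^ 2 / Z + 4 * Z := by
          refine add_le_add ?_ (by linarith)
          refine div_le_div₀ (by positivity) ?_ (by linarith) hr1
          have : (T : ℝ) ^ 2 ≤ (n * ℓ) ^ 2 := pow_le_pow_left₀ (Nat.cast_nonneg _) hTn 2
          linarith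
  have hσ2 : r * (L : ℝ) ^ 2 + ((2 * n : ℕ) : ℝ) * k + 1 ≤ 3 * (n * ℓ) ^ 2 / Z := by
    have h8 : 4 * Z + ((2 * n : ℕ) : ℝ) * k + 1 ≤ (n * ℓ) ^ 2 / Z := by
      rw [le_div_iff₀ (by linarith)]
      push_cast
      have e1 : (n : ℝ) * k ≤ n * (ℓ / 4) := mul_le_mul_of_nonneg_left hkℓ hn0.le
      have e2 : 4 * Z + 2 * n * k + 1 ≤ n * ℓ := by nlinarith
      calc (4 * Z + 2 * n * k + 1) * Z ≤ (n * ℓ) * n := by
            refine mul_le_mul e2 hZn (by linarith) (by positivity)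
        _ ≤ (n * ℓ) ^ 2 := by
            rw [pow_two]
            refine mul_le_mul_of_nonneg_left ?_ (by positivity)
            nlinarith
    have e3 : 3 * (n * ℓ) ^ 2 / Z = 2 * (n * ℓ) ^ 2 / Z + (n * ℓ) ^ 2 / Z := by ring
    rw [e3]
    linarith
  have hσ0 : 0 < r * (L : ℝ) ^ 2 + ((2 * n : ℕ) : ℝ) * k + 1 := by positivity
  have hZ0 : 0 < Z := by linarith
  rw [le_div_iff₀ (by linarith)]
  have hm3 : (n : ℝ) ^ (1 - γ) / 2 ≤ N / (4 * (w : ℝ) ^ k) := by linarith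
  have hnn : (0:ℝ) < (n : ℝ) ^ (1 - γ) := by positivity
  calc 7 * B * (2 * (r * (L : ℝ) ^ 2 + ((2 * n : ℕ) : ℝ) * k + 1))
      ≤ 7 * B * (2 * (3 * (n * ℓ) ^ 2 / Z)) := by gcongr
    _ = 42 * ((n : ℝ) ^ 2 * ℓ ^ 2) / (n : ℝ) ^ (3 * γ) := by
        rw [hZ]
        field_simp
        ring
    _ ≤ ((n : ℝ) ^ (1 - γ) / 2) ^ 2 := by
        rw [div_le_iff₀ (by positivity)]
        have e4 : ((n : ℝ) ^ (1 - γ) / 2) ^ 2 * (n : ℝ) ^ (3 * γ) =
            (n : ℝ) ^ 2 * ((n : ℝ) ^ γ / 4) := by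
          have e5 : ((n : ℝ) ^ (1 - γ)) ^ 2 * (n : ℝ) ^ (3 * γ) = (n : ℝ) ^ 2 * (n : ℝ) ^ γ := by
            rw [← Real.rpow_natCast, ← Real.rpow_natCast, ← Real.rpow_mul hn0.le,
              ← Real.rpow_add hn0, ← Real.rpow_add hn0]
            congr 1
            push_cast
            ring
          linear_combination (1 / 4) * e5
        rw [e4]
        have e6 : 42 * ℓ ^ 2 ≤ (n : ℝ) ^ γ / 4 := by linarith
        calc 42 * ((n : ℝ) ^ 2 * ℓ ^ 2) = (n : ℝ) ^ 2 * (42 * ℓ ^ 2) := by ring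
          _ ≤ _ := mul_le_mul_of_nonneg_left e6 (by positivity)
    _ ≤ (N / (4 * (w : ℝ) ^ k)) ^ 2 := pow_le_pow_left₀ (by positivity) hm3 2

end Pool.Agent.Lib_helper26.TS
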