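import Pool.Agent.Lib_helper26.TS.Mach

/-!
# Counting for runs: every segment meets few cells, few cells are met by many segments; good
colours and marks exist
-/

set_option autoImplicit false
set_option linter.unusedSectionVars false

namespace Pool.Agent.Lib_helper26.TS

open Finset

variable {I A V : Type} {r k w : ℕ} [Fintype I] [DecidableEq I]

theorem seg_le (M : NMach I A V) (T L : ℕ) (hL : 0 < L) (ρ : ℕ → V) (J : Finset I) (j : Fin r) :
    (J ∩ fil fun e => j ∈ seg M T L r ρ e).card ≤ L := by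
  have h : (J ∩ fil fun e => j ∈ seg M T L r ρ e) ⊆
      (range L).image fun i => M.query (j.val * L + i) (ρ (j.val * L + i)) := by
    intro e he
    rw [mem_inter, mem_fil, mem_seg] at he
    obtain ⟨-, t, -, ht, hq⟩ := he
    rw [mem_image]
    refine ⟨t % L, mem_range.2 (Nat.mod_lt _ hL), ?_⟩
    have : j.val * L + t % L = t := by
      rw [← ht]
      have := Nat.div_add_mod t L
      rw [mul_comm] at this
      exact this
    rw [this]
    exact hq
  refine (card_le_card h).trans (card_image_le.trans ?_)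
  rw [card_range]

theorem sum_seg (M : NMach I A V) (T L : ℕ) (ρ : ℕ → V) (J : Finset I) :
    ∑ e ∈ J, (seg M T L r ρ e).card ≤ T := by
  have h1 : ∑ e ∈ J, (seg M T L r ρ e).card =
      (J.sigma fun e => seg M T L r ρ e).card := by
    rw [card_sigma]
  rw [h1]
  have h2 : (J.sigma fun e => seg M T L r ρ e).card ≤
      ((range T).image fun t => (M.query t (ρ t), t / L)).card := by
    refine card_le_card_of_injOn (fun p => (p.1, p.2.val)) ?_ ?_
    · rintro ⟨e, j⟩ hp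
      rw [mem_coe, mem_sigma] at hp
      obtain ⟨t, ht, htj, hq⟩ := mem_seg.1 hp.2
      rw [mem_coe, mem_image]
      exact ⟨t, mem_range.2 ht, by simp only [hq, htj]⟩
    · rintro ⟨e, j⟩ _ ⟨e', j'⟩ _ h
      simp only [Prod.mk.injEq] at h
      obtain ⟨rfl, h⟩ := h
      have : j = j' := Fin.ext h
      subst this
      rfl
  refine h2.trans (card_image_le.trans ?_)
  rw [card_range]

theorem many_light (M : NMach I A V) (T L : ℕ) (ρ : ℕ → V) (J : Finset I)
    (hT : 2 * T ≤ J.card * (k + 1)) :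
    J.card ≤ 2 * (J ∩ fil fun e => (seg M T L r ρ e).card ≤ k).card := by
  have h1 : J = (J ∩ fil fun e => (seg M T L r ρ e).card ≤ k) ∪
      (J ∩ fil fun e => ¬ (seg M T L r ρ e).card ≤ k) := by
    ext e
    simp only [mem_union, mem_inter, mem_fil]
    tauto
  have h2 : J.card ≤ (J ∩ fil fun e => (seg M T L r ρ e).card ≤ k).card +
      (J ∩ fil fun e => ¬ (seg M T L r ρ e).card ≤ k).card := by
    calc J.card = ((J ∩ fil fun e => (seg M T L r ρ e).card ≤ k) ∪
      (J ∩ fil fun e => ¬ (seg M T L r ρ e).card ≤ k)).card := by rw [← h1]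
      _ ≤ _ := card_union_le _ _
  have h3 : (J ∩ fil fun e => ¬ (seg M T L r ρ e).card ≤ k).card * (k + 1) ≤ T := by
    calc (J ∩ fil fun e => ¬ (seg M T L r ρ e).card ≤ k).card * (k + 1)
        = ∑ _e ∈ (J ∩ fil fun e => ¬ (seg M T L r ρ e).card ≤ k), (k + 1) := by
          rw [sum_const, smul_eq_mul]
      _ ≤ ∑ e ∈ (J ∩ fil fun e => ¬ (seg M T L r ρ e).card ≤ k), (seg M T L r ρ e).card := by
          refine sum_le_sum fun e he => ?_
          rw [mem_inter, mem_fil] at he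
          omega
      _ ≤ T := sum_seg M T L ρ _
  have h4 : 2 * (J ∩ fil fun e => ¬ (seg M T L r ρ e).card ≤ k).card ≤ J.card := by
    by_contra h
    rw [not_le] at h
    have : J.card * (k + 1) < 2 * (J ∩ fil fun e => ¬ (seg M T L r ρ e).card ≤ k).card * (k + 1) :=
      Nat.mul_lt_mul_of_pos_right h (by omega)
    have h5 : 2 * (J ∩ fil fun e => ¬ (seg M T L r ρ e).card ≤ k).card * (k + 1) =
      2 * ((J ∩ fil fun e => ¬ (seg M T L r ρ e).card ≤ k).card * (k + 1)) := by ring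
    omega
  omega

variable [NeZero w]

/-- the bad event: few survivors or many candidates in one of the two halves -/
def Bad (a b : Fin w) (M : NMach I A V) (T L : ℕ) (ρ : ℕ → V) (ω : Om r I k w)
    (JX JY : Finset I) (m : ℝ) : Prop :=
  (((FS a b M T L ρ ω JX).card : ℝ) ≤ m ∨ ((FS b a M T L ρ ω JY).card : ℝ) ≤ m) ∨
    (16 * m ≤ ((PS a b M T L ρ ω JX).card : ℝ) ∨ 16 * m ≤ ((PS b a M T L ρ ω JY).card : ℝ))

theorem bad_le (a b : Fin w) (hab : a ≠ b) (hw : 4 ≤ w) (hk : 2 * k ≤ w) (M : NMach I A V)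
    (T L : ℕ) (hL : 0 < L) (ρ : ℕ → V) (JX JY : Finset I) (N : ℕ) (hX : JX.card = N)
    (hY : JY.card = N) (hT : 2 * T ≤ N * (k + 1)) (σ : ℝ) (hσ : 0 < σ)
    (hσ' : r * (L : ℝ) ^ 2 + Fintype.card I * k ≤ σ) :
    ((fil fun ω : Om r I k w => Bad a b M T L ρ ω JX JY (N / (4 * (w : ℝ) ^ k))).card : ℝ) ≤
      (w : ℝ) ^ Fintype.card (Fin r ⊕ (I × Fin k)) *
        (4 * Real.exp (-((N / (4 * (w : ℝ) ^ k)) ^ 2 / (2 * σ)))) := by
  have hw0 : (0:ℝ) < w := by exact_mod_cast (by omega : 0 < w)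
  set m : ℝ := N / (4 * (w : ℝ) ^ k) with hm
  have hm0 : 0 ≤ m := by rw [hm]; positivity
  have hN : (N : ℝ) = 4 * m * (w : ℝ) ^ k := by rw [hm]; field_simp
  have e1 := fun (a b : Fin w) (hab : a ≠ b) (J : Finset I) (hJ : J.card = N) =>
    few_inF (k := k) a b hab (seg M T L r ρ) J L (seg_le M T L hL ρ J) m σ hσ hσ' hm0 (by
      have h := many_light (r := r) (k := k) M T L ρ J (by rw [hJ]; exact hT)
      rw [hJ] at h
      have h' : (N : ℝ) ≤ 2 * ((J ∩ fil fun e => (seg M T L r ρ e).card ≤ k).card : ℝ) := by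
        exact_mod_cast h
      rw [hN] at h'
      linarith)
  have e2 := fun (a b : Fin w) (J : Finset I) (hJ : J.card = N) =>
    many_inP (k := k) a b hw hk (seg M T L r ρ) J L (seg_le M T L hL ρ J) (4 * m) σ hσ hσ'
      (by linarith) (by rw [hJ, hN])
  have e3 : Real.exp (-((4 * m) ^ 2 / (2 * σ))) ≤ Real.exp (-(m ^ 2 / (2 * σ))) := by
    rw [Real.exp_le_exp, neg_le_neg_iff]
    refine div_le_div_of_nonneg_right ?_ (by linarith)
    nlinarith [sq_nonneg m]
  have hsub : (fil fun ω : Om r I k w => Bad a b M T L ρ ω JX JY m) ⊆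
      ((fil fun ω : Om r I k w => cnt JX (inF a b (seg M T L r ρ) ω) ≤ m) ∪
        (fil fun ω : Om r I k w => cnt JY (inF b a (seg M T L r ρ) ω) ≤ m)) ∪
      ((fil fun ω : Om r I k w => 4 * (4 * m) ≤ cnt JX (inP a b (seg M T L r ρ) ω)) ∪
        (fil fun ω : Om r I k w => 4 * (4 * m) ≤ cnt JY (inP b a (seg M T L r ρ) ω))) := by
    intro ω hω
    rw [mem_fil] at hω
    simp only [mem_union, mem_fil]
    unfold Bad at hω
    have e16 : 4 * (4 * m) = 16 * m := by ring
    rw [e16]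
    exact hω
  have hcard : ((fil fun ω : Om r I k w => Bad a b M T L ρ ω JX JY m).card : ℝ) ≤
      (((fil fun ω : Om r I k w => cnt JX (inF a b (seg M T L r ρ) ω) ≤ m).card : ℝ) +
        ((fil fun ω : Om r I k w => cnt JY (inF b a (seg M T L r ρ) ω) ≤ m).card : ℝ)) +
      (((fil fun ω : Om r I k w => 4 * (4 * m) ≤ cnt JX (inP a b (seg M T L r ρ) ω)).card : ℝ) +
        ((fil fun ω : Om r I k w => 4 * (4 * m) ≤ cnt JY (inP b a (seg M T L r ρ) ω)).card : ℝ)) := by
    have h := (card_le_card hsub).trans ((card_union_le _ _).trans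
      (Nat.add_le_add (card_union_le _ _) (card_union_le _ _)))
    exact_mod_cast h
  have hW : (0:ℝ) ≤ (w : ℝ) ^ Fintype.card (Fin r ⊕ (I × Fin k)) := by positivity
  have f1 := e1 a b hab JX hX
  have f2 := e1 b a hab.symm JY hY
  have f3 := (e2 a b JX hX).trans (mul_le_mul_of_nonneg_left e3 hW)
  have f4 := (e2 b a JY hY).trans (mul_le_mul_of_nonneg_left e3 hW)
  linarith

/-- averaging -/
theorem exists_avg {Ω X : Type} [Fintype Ω] [Nonempty Ω] (Xs : Finset X)
    (bad : Ω → X → Prop) (p : ℝ)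
    (h : ∀ x ∈ Xs, ((fil fun ω => bad ω x).card : ℝ) ≤ Fintype.card Ω * p) :
    ∃ ω, ∀ Z : Finset X, Z ⊆ Xs → (∀ x ∈ Z, bad ω x) → (Z.card : ℝ) ≤ Xs.card * p := by
  classical
  by_contra hcon
  push Not at hcon
  choose Z hZ1 hZ2 hZ3 using hcon
  have h1 : ∑ ω, ((Z ω).card : ℝ) ≤ ∑ x ∈ Xs, ((fil fun ω => bad ω x).card : ℝ) := by
    have e1 : ∀ ω, ((Z ω).card : ℝ) ≤ ∑ x ∈ Xs, if bad ω x then (1:ℝ) else 0 := by
      intro ω
      rw [← Finset.sum_filter, Finset.sum_const, nsmul_eq_mul, mul_one]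
      have : Z ω ⊆ Xs.filter (bad ω) := fun x hx => mem_filter.2 ⟨hZ1 ω hx, hZ2 ω x hx⟩
      exact_mod_cast card_le_card this
    refine (Finset.sum_le_sum fun ω _ => e1 ω).trans (le_of_eq ?_)
    rw [Finset.sum_comm]
    refine Finset.sum_congr rfl fun x _ => ?_
    rw [← Finset.sum_filter, Finset.sum_const, nsmul_eq_mul, mul_one]
    congr 2
  have h2 : ∑ x ∈ Xs, ((fil fun ω => bad ω x).card : ℝ) ≤ Xs.card * (Fintype.card Ω * p) := by
    refine (Finset.sum_le_sum h).trans (le_of_eq ?_)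
    rw [Finset.sum_const, nsmul_eq_mul]
  have h3 : ∑ _ω : Ω, (Xs.card * p : ℝ) < ∑ ω, ((Z ω).card : ℝ) :=
    Finset.sum_lt_sum_of_nonempty univ_nonempty fun ω _ => hZ3 ω
  rw [Finset.sum_const, nsmul_eq_mul, card_univ] at h3
  have h4 : (Fintype.card Ω : ℝ) * (Xs.card * p) = Xs.card * (Fintype.card Ω * p) := by ring
  linarith

/-- colours and marks that are good for most of the runs -/
theorem exists_om {X : Type} (a b : Fin w) (hab : a ≠ b) (hw : 4 ≤ w) (hk : 2 * k ≤ w)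
    (M : X → NMach I A V) (T L : ℕ) (hL : 0 < L) (ρ : X → ℕ → V) (JX JY : Finset I) (N : ℕ)
    (hX : JX.card = N) (hY : JY.card = N) (hT : 2 * T ≤ N * (k + 1)) (σ : ℝ) (hσ : 0 < σ)
    (hσ' : r * (L : ℝ) ^ 2 + Fintype.card I * k ≤ σ) (Xs : Finset X) :
    ∃ ω : Om r I k w, ∀ Z : Finset X, Z ⊆ Xs →
      (∀ x ∈ Z, Bad a b (M x) T L (ρ x) ω JX JY (N / (4 * (w : ℝ) ^ k))) →
      (Z.card : ℝ) ≤ Xs.card * (4 * Real.exp (-((N / (4 * (w : ℝ) ^ k)) ^ 2 / (2 * σ)))) := by
  have : Nonempty (Om r I k w) := ⟨fun _ => 0⟩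
  refine exists_avg Xs (fun ω x => Bad a b (M x) T L (ρ x) ω JX JY (N / (4 * (w : ℝ) ^ k))) _
    fun x _ => ?_
  have h := bad_le (r := r) a b hab hw hk (M x) T L hL (ρ x) JX JY N hX hY hT σ hσ hσ'
  have hc : (Fintype.card (Om r I k w) : ℝ) =
      (w : ℝ) ^ Fintype.card (Fin r ⊕ (I × Fin k)) := by
    rw [Fintype.card_fun, Fintype.card_fin]
    push_cast
    rfl
  rw [hc]
  exact h

end Pool.Agent.Lib_helper26.TS
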