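import Pool.Agent.Lib_helper26.TS.Modes

/-!
# The machines for the two functions
-/

set_option autoImplicit false
set_option linter.unusedSectionVars false

namespace Pool.Agent.Lib_helper26.TS

open Finset
open Pool.Agent.Lib_helper45.PPQ2 (Game game_congr game_true game_false val exists_val qq length_qq
  dec evl cn cn_succ cn_le game_count)

variable {n q : ℕ} {V : Type}

section additive

variable {A : Type} [AddCommMonoid V]

/-- the machine that adds the numbers `c s (contents of the cell read at time s)` -/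
def addM (cell : ℕ → Cell n) (c : ℕ → A → V) (acc : V → Prop) : NMach (Cell n) A V where
  start := 0
  query := fun t _ => cell t
  step := fun t v a v' => v' = v + c t a
  acc := acc

theorem addM_det (cell : ℕ → Cell n) (c : ℕ → A → V) (acc : V → Prop) :
    (addM cell c acc).IsDet := fun t v a => ⟨v + c t a, rfl, fun _ h => h⟩

theorem addM_run (cell : ℕ → Cell n) (c : ℕ → A → V) (acc : V → Prop) (T : ℕ) (x : Cell n → A) :
    (addM cell c acc).Run T x (fun t => ∑ s ∈ range t, c s (x (cell s))) :=
  ⟨by simp [addM], fun t _ => by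
    show _ = _
    simp only [addM]
    rw [Finset.sum_range_succ]⟩

theorem addM_accepts (cell : ℕ → Cell n) (c : ℕ → A → V) (acc : V → Prop) (T : ℕ)
    (x : Cell n → A) :
    (addM cell c acc).Accepts T x ↔ acc (∑ s ∈ range T, c s (x (cell s))) := by
  constructor
  · rintro ⟨ρ, h1, h2⟩
    have h3 := run_unique (addM_det cell c acc).det h1 (addM_run cell c acc T x) T le_rfl
    rw [h3] at h2
    exact h2
  · intro h
    exact ⟨_, addM_run cell c acc T x, h⟩

end additive

variable [Fact q.Prime]

/-- the sum of the powers, index a natural number -/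
def parN (n : ℕ) (x : Fin n → ZMod q) (i : ℕ) : ZMod q := ∑ j : Fin n, ((j : ℕ) : ZMod q) ^ i * x j

theorem par_eq {t : ℕ} (x : Fin n → ZMod q) (i : Fin t) : par n t x i = parN n x i.val := rfl

/-- reading the first word and then the second word -/
def cellAt (hn : 0 < n) (s : ℕ) : Cell n :=
  if h : s < n then Sum.inl ⟨s, h⟩ else if h : s - n < n then Sum.inr ⟨s - n, h⟩
  else Sum.inl ⟨0, hn⟩

/-- reading the second word -/
def cellAtY (hn : 0 < n) (s : ℕ) : Cell n :=
  if h : s < n then Sum.inr ⟨s, h⟩ else Sum.inl ⟨0, hn⟩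

theorem sum_first (hn : 0 < n) {T : ℕ} (hT : n ≤ T) (i : ℕ) (z : Cell n → ZMod q) :
    ∑ s ∈ range T, (if s < n then (s : ZMod q) ^ i * z (cellAt hn s) else 0) =
      parN n (pr z).1 i := by
  have h1 : ∑ s ∈ range T, (if s < n then (s : ZMod q) ^ i * z (cellAt hn s) else 0) =
      ∑ s ∈ range n, (if s < n then (s : ZMod q) ^ i * z (cellAt hn s) else 0) := by
    symm
    refine Finset.sum_subset (range_subset_range.2 hT) fun s _ hs => ?_
    rw [mem_range] at hs
    rw [if_neg hs]
  rw [h1, Finset.sum_range]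
  unfold parN
  refine Finset.sum_congr rfl fun j _ => ?_
  rw [if_pos j.2]
  unfold cellAt
  rw [dif_pos j.2]
  rfl

theorem sum_firstY (hn : 0 < n) {T : ℕ} (hT : n ≤ T) (i : ℕ) (z : Cell n → ZMod q) :
    ∑ s ∈ range T, (if s < n then (s : ZMod q) ^ i * z (cellAtY hn s) else 0) =
      parN n (pr z).2 i := by
  have h1 : ∑ s ∈ range T, (if s < n then (s : ZMod q) ^ i * z (cellAtY hn s) else 0) =
      ∑ s ∈ range n, (if s < n then (s : ZMod q) ^ i * z (cellAtY hn s) else 0) := by
    symm
    refine Finset.sum_subset (range_subset_range.2 hT) fun s _ hs => ?_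
    rw [mem_range] at hs
    rw [if_neg hs]
  rw [h1, Finset.sum_range]
  unfold parN
  refine Finset.sum_congr rfl fun j _ => ?_
  rw [if_pos j.2]
  unfold cellAtY
  rw [dif_pos j.2]
  rfl

theorem sum_second (hn : 0 < n) {T : ℕ} (hT : 2 * n ≤ T) (i : ℕ) (z : Cell n → ZMod q) :
    ∑ s ∈ range T, (if n ≤ s ∧ s < 2 * n then ((s - n : ℕ) : ZMod q) ^ i * z (cellAt hn s)
      else 0) = parN n (pr z).2 i := by
  have h1 : ∑ s ∈ range T, (if n ≤ s ∧ s < 2 * n then ((s - n : ℕ) : ZMod q) ^ i *
      z (cellAt hn s) else 0) = ∑ s ∈ range (n + n), (if n ≤ s ∧ s < 2 * n then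
      ((s - n : ℕ) : ZMod q) ^ i * z (cellAt hn s) else 0) := by
    symm
    refine Finset.sum_subset (range_subset_range.2 (by omega)) fun s _ hs => ?_
    rw [mem_range] at hs
    rw [if_neg (by omega)]
  rw [h1, Finset.sum_range_add]
  have h2 : ∑ s ∈ range n, (if n ≤ s ∧ s < 2 * n then ((s - n : ℕ) : ZMod q) ^ i *
      z (cellAt hn s) else 0) = 0 := by
    refine Finset.sum_eq_zero fun s hs => ?_
    rw [mem_range] at hs
    rw [if_neg (by omega)]
  rw [h2, zero_add, Finset.sum_range]
  unfold parN
  refine Finset.sum_congr rfl fun j _ => ?_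
  have hj := j.2
  rw [if_pos (by omega)]
  unfold cellAt
  rw [dif_neg (by omega), dif_pos (by omega)]
  simp only [Nat.add_sub_cancel_left]
  rfl

theorem cn_not {W : ℕ} (p : ℕ → Prop) : cn p W 0 + cn (fun i => ¬ p i) W 0 = 2 ^ W := by
  classical
  unfold cn
  simp only [zero_mul, zero_add]
  have := card_filter_add_card_filter_not (s := range (2 ^ W)) (fun i => p i)
  rw [card_range] at this
  exact this

theorem errs_eq (h : ℕ) (x : Fin n → ZMod q) :
    errs n (2 ^ h) x = cn (fun i => parN n x i ≠ 0) h 0 := by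
  unfold errs
  exact card_eq_cn _ _ fun i => by rw [par_eq]

/-- the comparison function is in the PP mode -/
theorem more_pp (hn : 0 < n) (h : ℕ) {T : ℕ} (hT : n ≤ T) :
    InPP n q T (ZMod q) (h + 1) (fun z => errs n (2 ^ h) (pr z).1 < errs n (2 ^ h) (pr z).2) := by
  classical
  let P : Fin (2 ^ (h + 1)) → NMach (Cell n) (ZMod q) (ZMod q) := fun w =>
    if w.val < 2 ^ h then addM (cellAt hn) (fun s a => if s < n then (s : ZMod q) ^ w.val * a else 0)
      (fun v => v = 0)
    else addM (cellAtY hn) (fun s a => if s < n then (s : ZMod q) ^ (w.val - 2 ^ h) * a else 0)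
      (fun v => v ≠ 0)
  refine ⟨P, fun w => ?_, fun z => ?_⟩
  · simp only [P]
    split_ifs
    · exact addM_det _ _ _
    · exact addM_det _ _ _
  · let p : ℕ → Prop := fun i => if i < 2 ^ h then parN n (pr z).1 i = 0
      else parN n (pr z).2 (i - 2 ^ h) ≠ 0
    have h1 : ∀ i : Fin (2 ^ (h + 1)), p i.val ↔ (P i).Accepts T z := by
      intro i
      by_cases hi : i.val < 2 ^ h
      · simp only [p, P, if_pos hi]
        rw [addM_accepts, sum_first hn hT]
      · simp only [p, P, if_neg hi]
        rw [addM_accepts, sum_firstY hn hT]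
    show errs n (2 ^ h) (pr z).1 < errs n (2 ^ h) (pr z).2 ↔ _
    rw [card_eq_cn _ p h1, cn_succ, mul_zero, zero_add, cn_half, errs_eq, errs_eq]
    have h2 : cn p h 0 = cn (fun i => parN n (pr z).1 i = 0) h 0 := by
      refine cn_congr fun i hi => ?_
      simp only [p, if_pos hi]
    have h3 : cn (fun i => p (2 ^ h + i)) h 0 = cn (fun i => parN n (pr z).2 i ≠ 0) h 0 := by
      refine cn_congr fun i hi => ?_
      simp only [p]
      rw [if_neg (by omega), Nat.add_sub_cancel_left]
    rw [h2, h3]
    have h4 := cn_not (W := h) (fun i => parN n (pr z).1 i = 0)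
    rw [pow_succ]
    constructor
    · intro h5
      have h6 : cn (fun i => ¬ parN n (pr z).1 i = 0) h 0 < cn (fun i => parN n (pr z).2 i ≠ 0) h 0 :=
        h5
      omega
    · intro h5
      show cn (fun i => ¬ parN n (pr z).1 i = 0) h 0 < cn (fun i => parN n (pr z).2 i ≠ 0) h 0
      omega

section game

/-- quantifiers of the sum game, `m` bits for each residue -/
def sq (m : ℕ) : ℕ → List Bool
  | 0 => []
  | h + 1 => List.replicate m true ++ false :: sq m h

theorem length_sq (m h : ℕ) : (sq m h).length = h * (m + 1) := by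
  induction h with
  | zero => simp [sq]
  | succ h ih =>
    simp only [sq, List.length_append, List.length_replicate, List.length_cons, ih]
    ring

/-- the leaf of the sum game -/
def sdec (m : ℕ) : ℕ → ZMod q → ℕ → List Bool → ZMod q × ℕ
  | 0, v, j, _ => (v, j)
  | h + 1, v, j, w => match w.drop m with
    | [] => (v, j)
    | true :: w' => sdec m h (v - (val (w.take m) : ZMod q)) (2 * j + 1) w'
    | false :: w' => sdec m h (val (w.take m) : ZMod q) (2 * j) w'

/-- the sum of a block -/
def sm (a : ℕ → ZMod q) (h j : ℕ) : ZMod q := ∑ i ∈ range (2 ^ h), a (j * 2 ^ h + i)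

theorem sm_succ (a : ℕ → ZMod q) (h j : ℕ) : sm a (h + 1) j = sm a h (2 * j) + sm a h (2 * j + 1) := by
  unfold sm
  have e : 2 ^ (h + 1) = 2 ^ h + 2 ^ h := by ring
  rw [e, sum_range_add]
  congr 1
  · apply sum_congr rfl
    intro i _
    have : j * (2 ^ h + 2 ^ h) + i = 2 * j * 2 ^ h + i := by ring
    rw [this]
  · apply sum_congr rfl
    intro i _
    have : j * (2 ^ h + 2 ^ h) + (2 ^ h + i) = (2 * j + 1) * 2 ^ h + i := by ring
    rw [this]

theorem game_sum {m : ℕ} (hm : q ≤ 2 ^ m) (a : ℕ → ZMod q) (h : ℕ) : ∀ (v : ZMod q) (j : ℕ),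
    Game (sq m h) (fun w => a (sdec m h v j w).2 = (sdec m h v j w).1) ↔ v = sm a h j := by
  have : NeZero q := ⟨(Fact.out : q.Prime).ne_zero⟩
  induction h with
  | zero =>
    intro v j
    show a j = v ↔ _
    unfold sm
    simp only [pow_zero, mul_one, range_one, sum_singleton, add_zero]
    exact eq_comm
  | succ h ih =>
    intro v j
    rw [sq, game_true]
    have key : ∀ u : List Bool, u.length = m →
        (Game (false :: sq m h) (fun w => a (sdec m (h + 1) v j (u ++ w)).2 =
          (sdec m (h + 1) v j (u ++ w)).1) ↔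
          ((val u : ℕ) : ZMod q) = sm a h (2 * j) ∧
            v - ((val u : ℕ) : ZMod q) = sm a h (2 * j + 1)) := by
      intro u hu
      have hd : ∀ b w, (u ++ b :: w).drop m = b :: w := by
        intro b w
        rw [← hu, List.drop_left]
      have ht : ∀ b w, (u ++ b :: w).take m = u := by
        intro b w
        rw [← hu, List.take_left]
      have h1 : ∀ w, sdec m (h + 1) v j (u ++ true :: w) =
          sdec m h (v - ((val u : ℕ) : ZMod q)) (2 * j + 1) w := by
        intro w
        simp only [sdec, hd, ht]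
      have h2 : ∀ w, sdec m (h + 1) v j (u ++ false :: w) =
          sdec m h ((val u : ℕ) : ZMod q) (2 * j) w := by
        intro w
        simp only [sdec, hd, ht]
      constructor
      · intro hg
        have g1 := hg true
        have g2 := hg false
        simp only [h1, h2] at g1 g2
        exact ⟨(ih _ _).1 g2, (ih _ _).1 g1⟩
      · rintro ⟨g2, g1⟩ b
        cases b
        · simp only [h2]
          exact (ih _ _).2 g2
        · simp only [h1]
          exact (ih _ _).2 g1
    rw [sm_succ]
    constructor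
    · rintro ⟨u, hu, hg⟩
      obtain ⟨g1, g2⟩ := (key u hu).1 hg
      rw [← g1, ← g2]
      ring
    · intro hk
      obtain ⟨u, hu, hv⟩ := exists_val m (sm a h (2 * j)).val
        (lt_of_lt_of_le (ZMod.val_lt _) hm)
      refine ⟨u, hu, (key u hu).2 ?_⟩
      rw [hv, ZMod.natCast_zmod_val]
      refine ⟨rfl, ?_⟩
      rw [hk]
      ring

end game

/-- the machine that checks one product -/
def prodM (hn : 0 < n) (p : ZMod q × ℕ) : NMach (Cell n) (ZMod q) (ZMod q × ZMod q) :=
  addM (cellAt hn) (fun s a => (if s < n then (s : ZMod q) ^ p.2 * a else 0,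
    if n ≤ s ∧ s < 2 * n then ((s - n : ℕ) : ZMod q) ^ p.2 * a else 0))
    (fun v => v.1 * v.2 = p.1)

theorem prodM_accepts (hn : 0 < n) (p : ZMod q × ℕ) {T : ℕ} (hT : 2 * n ≤ T)
    (z : Cell n → ZMod q) : (prodM hn p).Accepts T z ↔
      parN n (pr z).1 p.2 * parN n (pr z).2 p.2 = p.1 := by
  unfold prodM
  rw [addM_accepts, Prod.fst_sum, Prod.snd_sum]
  rw [sum_first hn (by omega), sum_second hn hT]

/-- the inner product of the parity checks is in the PSPACE mode -/
theorem dot_pspace (hn : 0 < n) (h : ℕ) {T : ℕ} (hT : 2 * n ≤ T) :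
    InPSPACE n q T (ZMod q × ZMod q) (h * (Nat.clog 2 q + 1))
      (fun z => dotp n (2 ^ h) (pr z) = 0) := by
  refine ⟨sq (Nat.clog 2 q) h, fun w => prodM hn (sdec (Nat.clog 2 q) h 0 0 w),
    (length_sq _ _).le, fun w => addM_det _ _ _, fun z => ?_⟩
  have hm : q ≤ 2 ^ Nat.clog 2 q := Nat.le_pow_clog (by norm_num) q
  have h1 := fun w => prodM_accepts hn (sdec (Nat.clog 2 q) h (0 : ZMod q) 0 w) hT z
  rw [alt_iff, game_congr h1, game_sum hm (fun i => parN n (pr z).1 i * parN n (pr z).2 i) h]
  have h2 : dotp n (2 ^ h) (pr z) = sm (fun i => parN n (pr z).1 i * parN n (pr z).2 i) h 0 := by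
    unfold sm dotp
    rw [Finset.sum_range]
    simp only [zero_mul, zero_add]
    rfl
  show dotp n (2 ^ h) (pr z) = 0 ↔ _
  rw [h2]
  exact eq_comm

end Pool.Agent.Lib_helper26.TS
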